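import Mathlib

/-! Partial summation and maximal partial sums. -/

set_option autoImplicit false

namespace Pool.Agent.U918.LP
open Finset

/-- partial sums -/
noncomputable def ps (a : ℕ → ℝ) (y : ℕ) : ℝ := ∑ m ∈ Icc 1 y, a m

lemma ps_zero (a : ℕ → ℝ) : ps a 0 = 0 := by
  unfold ps
  simp

lemma ps_succ (a : ℕ → ℝ) (y : ℕ) : ps a (y + 1) = ps a y + a (y + 1) := by
  unfold ps
  rw [sum_Icc_succ_top (by omega)]

/-- Abel summation identity -/
lemma abel_id (a w : ℕ → ℝ) (x : ℕ) :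
    ∑ m ∈ Icc 1 x, a m * w m = ps a x * w x + ∑ m ∈ range x, ps a m * (w m - w (m + 1)) := by
  induction x with
  | zero => simp [ps_zero]
  | succ x ih =>
    rw [sum_Icc_succ_top (by omega), ih, sum_range_succ, ps_succ]
    ring

lemma tele_mono (w : ℕ → ℝ) (x : ℕ) : ∑ m ∈ range x, (w (m + 1) - w m) = w x - w 0 := sum_range_sub w x

/-- Abel's inequality with monotone weights -/
lemma abel_mono (a w : ℕ → ℝ) (x : ℕ) (M W : ℝ) (hM : ∀ y ≤ x, |ps a y| ≤ M) (hw0 : ∀ m, 0 ≤ w m) (hwW : ∀ m, w m ≤ W)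
    (hw : Monotone w) : |∑ m ∈ Icc 1 x, a m * w m| ≤ 2 * W * M := by
  have hM0 : 0 ≤ M := (abs_nonneg _).trans (hM x le_rfl)
  rw [abel_id]
  have h1 : |∑ m ∈ range x, ps a m * (w m - w (m + 1))| ≤ ∑ m ∈ range x, M * (w (m + 1) - w m) := by
    refine (abs_sum_le_sum_abs _ _).trans (sum_le_sum fun m hm => ?_)
    rw [abs_mul]
    have h2 : 0 ≤ w (m + 1) - w m := sub_nonneg.2 (hw (Nat.le_succ m))
    rw [abs_sub_comm, abs_of_nonneg h2]
    exact mul_le_mul_of_nonneg_right (hM m (mem_range.1 hm).le) h2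
  rw [← mul_sum, tele_mono] at h1
  have h3 : |ps a x * w x| ≤ M * w x := by
    rw [abs_mul, abs_of_nonneg (hw0 x)]
    exact mul_le_mul_of_nonneg_right (hM x le_rfl) (hw0 x)
  have h4 := abs_add_le (ps a x * w x) (∑ m ∈ range x, ps a m * (w m - w (m + 1)))
  have h5 := hw0 0
  have h6 := hwW x
  have h7 : M * (w x - w 0) ≤ M * W := mul_le_mul_of_nonneg_left (by linarith) hM0
  have h8 : M * w x ≤ M * W := mul_le_mul_of_nonneg_left h6 hM0
  linarith

/-- Abel's inequality with antitone weights -/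
lemma abel_anti (a w : ℕ → ℝ) (x : ℕ) (M W : ℝ) (hM : ∀ y ≤ x, |ps a y| ≤ M) (hw0 : ∀ m, 0 ≤ w m) (hwW : ∀ m, w m ≤ W)
    (hw : Antitone w) : |∑ m ∈ Icc 1 x, a m * w m| ≤ 2 * W * M := by
  have hM0 : 0 ≤ M := (abs_nonneg _).trans (hM x le_rfl)
  rw [abel_id]
  have h1 : |∑ m ∈ range x, ps a m * (w m - w (m + 1))| ≤ ∑ m ∈ range x, M * (w m - w (m + 1)) := by
    refine (abs_sum_le_sum_abs _ _).trans (sum_le_sum fun m hm => ?_)
    rw [abs_mul]
    have h2 : 0 ≤ w m - w (m + 1) := sub_nonneg.2 (hw (Nat.le_succ m))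
    rw [abs_of_nonneg h2]
    exact mul_le_mul_of_nonneg_right (hM m (mem_range.1 hm).le) h2
  have h2 : ∑ m ∈ range x, (w m - w (m + 1)) = w 0 - w x := by
    have := tele_mono w x
    have e : ∑ m ∈ range x, (w m - w (m + 1)) = - ∑ m ∈ range x, (w (m + 1) - w m) := by
      rw [← sum_neg_distrib]
      exact sum_congr rfl fun m _ => by ring
    rw [e, this]
    ring
  rw [← mul_sum, h2] at h1
  have h3 : |ps a x * w x| ≤ M * w x := by
    rw [abs_mul, abs_of_nonneg (hw0 x)]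
    exact mul_le_mul_of_nonneg_right (hM x le_rfl) (hw0 x)
  have h4 := abs_add_le (ps a x * w x) (∑ m ∈ range x, ps a m * (w m - w (m + 1)))
  have h5 := hwW 0
  have h7 : M * w 0 ≤ M * W := mul_le_mul_of_nonneg_left h5 hM0
  have h9 : 0 ≤ M * W := mul_nonneg hM0 ((hw0 0).trans h5)
  have h10 : M * (w 0 - w x) = M * w 0 - M * w x := by ring
  linarith

/-- the maximum over all cut-off points, bounded by a grid -/
lemma grid_max (a : ℕ → ℝ) (x q : ℕ) (hq : 1 ≤ q) (M : ℝ) (hM0 : 0 ≤ M) (ha : ∀ m ∈ Icc 1 x, |a m| ≤ M) (y : ℕ) (hy : y ≤ x) :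
    |ps a y| ≤ (∑ j ∈ range (x / q + 1), |ps a (j * q)|) + q * M := by
  set y' := (y / q) * q with hy'
  have h1 : y' ≤ y := Nat.div_mul_le_self y q
  have h2 : y < y' + q := by
    rw [hy']
    exact Nat.lt_div_mul_add (a := y) (b := q) (by omega)
  have h3 : |ps a y'| ≤ ∑ j ∈ range (x / q + 1), |ps a (j * q)| := by
    apply single_le_sum (f := fun j => |ps a (j * q)|) (fun j _ => abs_nonneg _)
    rw [mem_range]
    have := Nat.div_le_div_right (c := q) hy
    omega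
  have h4 : ps a y = ps a y' + ∑ m ∈ Ioc y' y, a m := by
    unfold ps
    have e1 : Icc 1 y = Ioc 0 y := by ext; simp [Nat.succ_le_iff]
    have e2 : Icc 1 y' = Ioc 0 y' := by ext; simp [Nat.succ_le_iff]
    rw [e1, e2]
    exact (sum_Ioc_consecutive a (Nat.zero_le _) h1).symm
  have h5 : |∑ m ∈ Ioc y' y, a m| ≤ q * M := by
    refine (abs_sum_le_sum_abs _ _).trans ?_
    refine (sum_le_sum (g := fun _ => M) fun m hm => ha m ?_).trans ?_
    · rw [mem_Ioc] at hm
      rw [mem_Icc]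
      omega
    · rw [sum_const, Nat.card_Ioc, nsmul_eq_mul]
      apply mul_le_mul_of_nonneg_right _ hM0
      exact_mod_cast (by omega : y - y' ≤ q)
  rw [h4]
  exact (abs_add_le _ _).trans (add_le_add h3 h5)

end Pool.Agent.U918.LP
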