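import Mathlib
import Pool.Agent.H373R2.T7.BilLam
import Pool.Agent.H373R2.T7.LamZ2

/-! Shifted values of a polynomial: primes and the sieve model. -/

set_option autoImplicit false

namespace Pool.Agent.U918.LP
open Finset Pool.Agent.H373R2.T7

/-- `F m + h` or `h - F m` -/
def va (σ : Bool) (F : ℕ → ℕ) (m h : ℕ) : ℕ := if σ then F m + h else h - F m

/-- the sign -/
def sgn (σ : Bool) : ℤ := if σ then 1 else -1

lemma sgn_cases (σ : Bool) : sgn σ = 1 ∨ sgn σ = -1 := by
  cases σ <;> simp [sgn]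

open Classical in
/-- the indicator of the primes -/
noncomputable def pI (v : ℕ) : ℝ := if v.Prime then 1 else 0

/-- the sieve model of the indicator of the primes -/
noncomputable def qI (z v : ℕ) : ℝ := lamz z v / Real.log v

/-- the smoothed weight -/
noncomputable def wt (v : ℕ) : ℝ := 1 / Real.log ((max v 2 : ℕ) : ℝ)

lemma log_max_pos (v : ℕ) : Real.log 2 ≤ Real.log ((max v 2 : ℕ) : ℝ) := by
  apply Real.log_le_log (by norm_num)
  exact_mod_cast le_max_right v 2

lemma wt_nonneg (v : ℕ) : 0 ≤ wt v := by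
  unfold wt
  have := log_max_pos v
  have h2 := Real.log_two_gt_d9
  have : 0 < Real.log ((max v 2 : ℕ) : ℝ) := by linarith
  positivity

lemma wt_le (v : ℕ) : wt v ≤ 2 := by
  unfold wt
  have := log_max_pos v
  have h2 := Real.log_two_gt_d9
  rw [div_le_iff₀ (by linarith)]
  linarith

lemma wt_anti : Antitone wt := by
  intro u v h
  unfold wt
  have h1 := log_max_pos u
  have h2 := Real.log_two_gt_d9
  apply one_div_le_one_div_of_le (by linarith)
  have h0 := Nat.pos_of_ne_zero (show max u 2 ≠ 0 by omega)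
  apply Real.log_le_log (by exact_mod_cast h0)
  exact_mod_cast max_le_max h le_rfl

lemma pI_nonneg (v : ℕ) : 0 ≤ pI v := by
  unfold pI
  split_ifs <;> norm_num

lemma pI_le (v : ℕ) : pI v ≤ 1 := by
  unfold pI
  split_ifs <;> norm_num

lemma qI_nonneg (z v : ℕ) : 0 ≤ qI z v := by
  unfold qI
  exact div_nonneg (lamz_nonneg _ _) (Real.log_natCast_nonneg _)

lemma lamz_le_inv (z v : ℕ) : lamz z v ≤ (Vz z)⁻¹ := by
  unfold lamz
  split_ifs
  · exact le_rfl
  · exact (inv_pos.2 (Vz_pos z)).le

lemma qI_le (z v : ℕ) : qI z v ≤ 2 * (Vz z)⁻¹ := by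
  unfold qI
  have hV := inv_pos.2 (Vz_pos z)
  rcases Nat.lt_or_ge v 2 with h | h
  · have : Real.log (v : ℝ) = 0 := by
      interval_cases v <;> simp
    rw [this, div_zero]
    positivity
  · have h1 : Real.log 2 ≤ Real.log v := Real.log_le_log (by norm_num) (by exact_mod_cast h)
    have h2 := Real.log_two_gt_d9
    rw [div_le_iff₀ (by linarith)]
    have h3 := lamz_le_inv z v
    nlinarith

/-- the prime-power part -/
noncomputable def ppI (v : ℕ) : ℝ := if v.Prime then 0 else ArithmeticFunction.vonMangoldt v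

lemma ppI_nonneg (v : ℕ) : 0 ≤ ppI v := by
  unfold ppI
  split_ifs
  · exact le_rfl
  · exact ArithmeticFunction.vonMangoldt_nonneg

lemma lam_wt (v : ℕ) : |ArithmeticFunction.vonMangoldt v * wt v - pI v| ≤ 2 * ppI v := by
  unfold pI ppI
  by_cases h : v.Prime
  · rw [if_pos h, if_pos h, ArithmeticFunction.vonMangoldt_apply_prime h]
    unfold wt
    have h2 : max v 2 = v := max_eq_left h.two_le
    rw [h2]
    have h3 : Real.log v ≠ 0 := by
      have : 0 < Real.log (v : ℝ) := Real.log_pos (by exact_mod_cast h.one_lt)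
      exact this.ne'
    rw [mul_one_div, div_self h3]
    simp
  · rw [if_neg h, if_neg h, sub_zero, abs_mul, abs_of_nonneg ArithmeticFunction.vonMangoldt_nonneg,
      abs_of_nonneg (wt_nonneg v), mul_comm]
    exact mul_le_mul_of_nonneg_right (wt_le v) ArithmeticFunction.vonMangoldt_nonneg

/-- the indicator of `1`, scaled -/
noncomputable def oneI (z v : ℕ) : ℝ := if v = 1 then (Vz z)⁻¹ else 0

lemma oneI_nonneg (z v : ℕ) : 0 ≤ oneI z v := by
  unfold oneI
  split_ifs
  · exact (inv_pos.2 (Vz_pos z)).le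
  · exact le_rfl

lemma lamz_zero (z : ℕ) (hz : 2 ≤ z) : lamz z 0 = 0 := by
  unfold lamz
  rw [if_neg]
  push Not
  exact ⟨2, mem_pz.2 ⟨hz, Nat.prime_two⟩, dvd_zero 2⟩

lemma lamz_wt (z v : ℕ) (hz : 2 ≤ z) : |lamz z v * wt v - qI z v| ≤ 2 * oneI z v := by
  unfold qI oneI
  rcases Nat.lt_or_ge v 2 with h | h
  · interval_cases v
    · rw [lamz_zero z hz]
      simp
    · simp only [if_true, Nat.cast_one, Real.log_one, div_zero, sub_zero]
      rw [abs_mul, abs_of_nonneg (lamz_nonneg _ _), abs_of_nonneg (wt_nonneg 1), mul_comm]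
      exact mul_le_mul (wt_le 1) (lamz_le_inv z 1) (lamz_nonneg _ _) (by norm_num)
  · have h2 : max v 2 = v := max_eq_left h
    rw [if_neg (by omega)]
    unfold wt
    rw [h2, mul_one_div, sub_self]
    simp

/-- summing a function of the shifted value over the shifts -/
lemma sum_va (σ : Bool) (F : ℕ → ℕ) (m H : ℕ) (g : ℕ → ℝ) (hg : ∀ v, 0 ≤ g v) (hg0 : g 0 = 0) :
    ∑ h ∈ Icc 1 H, g (va σ F m h) ≤ ∑ v ∈ Icc 1 (F m + H), g v := by
  cases σ
  · have h1 : ∑ h ∈ Icc 1 H, g (va false F m h) = ∑ h ∈ (Icc 1 H).filter (fun h => F m < h), g (va false F m h) := by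
      symm
      apply sum_filter_of_ne
      intro h _ hne
      by_contra hlt
      apply hne
      have : va false F m h = 0 := by
        unfold va
        simp only [Bool.false_eq_true, if_false]
        omega
      rw [this, hg0]
    rw [h1]
    have h2 : ∑ h ∈ (Icc 1 H).filter (fun h => F m < h), g (va false F m h) =
        ∑ v ∈ ((Icc 1 H).filter (fun h => F m < h)).image (va false F m), g v := by
      rw [sum_image]
      intro u hu v hv huv
      simp only [coe_filter, Set.mem_setOf_eq] at hu hv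
      unfold va at huv
      simp only [Bool.false_eq_true, if_false] at huv
      omega
    rw [h2]
    apply sum_le_sum_of_subset_of_nonneg
    · intro v hv
      rw [mem_image] at hv
      obtain ⟨h, hh, rfl⟩ := hv
      rw [mem_filter, mem_Icc] at hh
      unfold va
      simp only [Bool.false_eq_true, if_false]
      rw [mem_Icc]
      omega
    · intro v _ _
      exact hg v
  · have h2 : ∑ h ∈ Icc 1 H, g (va true F m h) = ∑ v ∈ (Icc 1 H).image (va true F m), g v := by
      rw [sum_image]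
      intro u _ v _ huv
      unfold va at huv
      simp only [if_true] at huv
      omega
    rw [h2]
    apply sum_le_sum_of_subset_of_nonneg
    · intro v hv
      rw [mem_image] at hv
      obtain ⟨h, hh, rfl⟩ := hv
      rw [mem_Icc] at hh
      unfold va
      simp only [if_true]
      rw [mem_Icc]
      omega
    · intro v _ _
      exact hg v

/-- the prime powers up to `Y` -/
lemma sum_ppI (Y : ℕ) (hY : 1 ≤ Y) : ∑ v ∈ Icc 1 Y, ppI v ≤ 2 * √(Y : ℝ) * Real.log Y := by
  have h := Chebyshev.abs_psi_sub_theta_le_sqrt_mul_log (x := (Y : ℝ)) (by exact_mod_cast hY)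
  have h1 := (le_abs_self _).trans h
  refine le_trans (le_of_eq ?_) h1
  unfold Chebyshev.psi Chebyshev.theta ppI
  rw [Nat.floor_natCast]
  have e1 : Icc 1 Y = Ioc 0 Y := by ext; simp [Nat.succ_le_iff]
  rw [e1, sum_filter, ← sum_sub_distrib]
  apply sum_congr rfl
  intro n _
  by_cases hn : n.Prime
  · rw [if_pos hn, if_pos hn, ArithmeticFunction.vonMangoldt_apply_prime hn]
    ring
  · rw [if_neg hn, if_neg hn]
    ring

lemma sum_oneI (z Y : ℕ) (hY : 1 ≤ Y) : ∑ v ∈ Icc 1 Y, oneI z v = (Vz z)⁻¹ := by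
  unfold oneI
  rw [sum_ite_eq' (Icc 1 Y) 1 (fun _ => (Vz z)⁻¹), if_pos (mem_Icc.2 ⟨le_rfl, hY⟩)]

end Pool.Agent.U918.LP
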