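import Mathlib
import Pool.Agent.H373R2.T7.BilLam
import Pool.Agent.H373R2.T7.LamZ2
import Pool.Agent.U918.LP.Abel
import Pool.Agent.U918.LP.Val

/-! One condition: arbitrary bounded weights, primes against the sieve model, on average over the shift. -/

set_option autoImplicit false

namespace Pool.Agent.U918.LP
open Finset Pool.Agent.H373R2.T7 Polynomial

lemma lamI_nat (n : ℕ) : lamI (n : ℤ) = ArithmeticFunction.vonMangoldt n := by
  unfold lamI
  rcases Nat.eq_zero_or_pos n with h | h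
  · subst h
    simp
  · rw [if_pos (by exact_mod_cast h), Int.toNat_natCast]

lemma lamI_nonpos (k : ℤ) (hk : k ≤ 0) : lamI k = 0 := by
  unfold lamI
  rw [if_neg (by omega)]

lemma lamzI_nat (z n : ℕ) (hz : 2 ≤ z) : lamzI z (n : ℤ) = lamz z n := by
  unfold lamzI
  rcases Nat.eq_zero_or_pos n with h | h
  · subst h
    rw [lamz_zero z hz]
    simp
  · rw [if_pos (by exact_mod_cast h), Int.toNat_natCast]

lemma lamzI_nonpos (z : ℕ) (k : ℤ) (hk : k ≤ 0) : lamzI z k = 0 := by
  unfold lamzI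
  rw [if_neg (by omega)]

lemma va_cast (σ : Bool) (F : ℕ → ℕ) (m h : ℕ) :
    (va σ F m h : ℤ) = h + sgn σ * (F m : ℤ) ∨ (va σ F m h = 0 ∧ (h : ℤ) + sgn σ * (F m : ℤ) ≤ 0) := by
  unfold va sgn
  cases σ
  · simp only [Bool.false_eq_true, if_false]
    rcases Nat.lt_or_ge (F m) h with h1 | h1
    · left
      omega
    · right
      constructor <;> omega
  · left
    simp only [if_true]
    push_cast
    ring

lemma lam_diff (σ : Bool) (F : ℕ → ℕ) (z m h : ℕ) (hz : 2 ≤ z) :
    lamI (h + sgn σ * (F m : ℤ)) - lamzI z (h + sgn σ * (F m : ℤ)) =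
      ArithmeticFunction.vonMangoldt (va σ F m h) - lamz z (va σ F m h) := by
  rcases va_cast σ F m h with h1 | ⟨h1, h2⟩
  · rw [← h1, lamI_nat, lamzI_nat z _ hz]
  · rw [lamI_nonpos _ h2, lamzI_nonpos z _ h2, h1, lamz_zero z hz]
    simp

/-- the difference between the von Mangoldt function and its model at the shifted value -/
noncomputable def dE (σ : Bool) (F : ℕ → ℕ) (z h m : ℕ) : ℝ :=
  ArithmeticFunction.vonMangoldt (va σ F m h) - lamz z (va σ F m h)

lemma bil_real (f : ℤ[X]) (F : ℕ → ℕ) (hF : ∀ m : ℕ, f.eval (m : ℤ) = F m) (x H z : ℕ) (hz : 2 ≤ z) (R : ℝ) (σ : Bool)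
    (hb : ∀ G c : ℕ → ℂ, (∀ a, ‖G a‖ ≤ 1) → (∀ m, ‖c m‖ ≤ 1) →
      ‖∑ a ∈ Icc 1 H, ∑ m ∈ Icc 1 x, G a * c m *
        ((lamI (a + sgn σ * f.eval (m : ℤ)) - lamzI z (a + sgn σ * f.eval (m : ℤ)) : ℝ) : ℂ)‖ ≤ R)
    (c : ℕ → ℝ) (hc : ∀ m, |c m| ≤ 1) (y : ℕ) (hy : y ≤ x) :
    ∑ h ∈ Icc 1 H, |ps (fun m => c m * dE σ F z h m) y| ≤ R := by
  classical
  set S : ℕ → ℝ := fun h => ps (fun m => c m * dE σ F z h m) y with hS
  have hb1 := hb (fun h => if 0 ≤ S h then 1 else -1) (fun m => if m ≤ y then ((c m : ℝ) : ℂ) else 0)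
    (by
      intro h
      split_ifs <;> simp)
    (by
      intro m
      split_ifs
      · rw [Complex.norm_real]
        exact hc m
      · simp)
  have e : ∑ a ∈ Icc 1 H, ∑ m ∈ Icc 1 x, (if 0 ≤ S a then (1 : ℂ) else -1) * (if m ≤ y then ((c m : ℝ) : ℂ) else 0) *
        ((lamI (a + sgn σ * f.eval (m : ℤ)) - lamzI z (a + sgn σ * f.eval (m : ℤ)) : ℝ) : ℂ) =
      ((∑ h ∈ Icc 1 H, |S h| : ℝ) : ℂ) := by
    rw [Complex.ofReal_sum]
    apply sum_congr rfl
    intro h _
    have e2 : ∑ m ∈ Icc 1 x, (if 0 ≤ S h then (1 : ℂ) else -1) * (if m ≤ y then ((c m : ℝ) : ℂ) else 0) *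
        ((lamI (h + sgn σ * f.eval (m : ℤ)) - lamzI z (h + sgn σ * f.eval (m : ℤ)) : ℝ) : ℂ) =
        (if 0 ≤ S h then (1 : ℂ) else -1) * ((S h : ℝ) : ℂ) := by
      have e3 : ((S h : ℝ) : ℂ) = ∑ m ∈ Icc 1 x, (if m ≤ y then ((c m : ℝ) : ℂ) else 0) * ((dE σ F z h m : ℝ) : ℂ) := by
        rw [hS]
        dsimp only
        unfold ps
        push_cast
        have e4 : (Icc 1 x).filter (fun m => m ≤ y) = Icc 1 y := by
          ext m
          rw [mem_filter, mem_Icc, mem_Icc]
          omega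
        rw [← e4, sum_filter]
        apply sum_congr rfl
        intro m _
        split_ifs <;> simp
      rw [e3, mul_sum]
      apply sum_congr rfl
      intro m _
      rw [hF, lam_diff σ F z m h hz]
      unfold dE
      ring
    rw [e2]
    split_ifs with h0
    · rw [abs_of_nonneg h0, one_mul]
    · rw [abs_of_neg (not_le.1 h0)]
      push_cast
      ring
  rw [e, Complex.norm_real, Real.norm_of_nonneg (sum_nonneg fun _ _ => abs_nonneg _)] at hb1
  exact hb1

/-- the assembled inequality for one condition -/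
lemma assemble1 (F : ℕ → ℕ) (hmono : Monotone F) (x H Y z q : ℕ) (hz : 2 ≤ z) (hq : 1 ≤ q) (hY : 1 ≤ Y) (σ : Bool) (R M : ℝ)
    (hFY : ∀ m ∈ Icc 1 x, F m + H ≤ Y) (hM : Real.log Y + (Vz z)⁻¹ ≤ M) (c : ℕ → ℝ) (hc : ∀ m, |c m| ≤ 1)
    (hR : ∀ y ≤ x, ∑ h ∈ Icc 1 H, |ps (fun m => c m * dE σ F z h m) y| ≤ R) :
    ∑ h ∈ Icc 1 H, |∑ m ∈ Icc 1 x, c m * (pI (va σ F m h) - qI z (va σ F m h))| ≤
      4 * ((x / q + 1 : ℕ) * R + H * (q * M)) + x * (2 * (2 * √(Y : ℝ) * Real.log Y) + 2 * (Vz z)⁻¹) := by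
  have hV := inv_pos.2 (Vz_pos z)
  have hlY : 0 ≤ Real.log (Y : ℝ) := Real.log_natCast_nonneg Y
  have hM0 : 0 ≤ M := by linarith
  have hvY : ∀ h ∈ Icc 1 H, ∀ m ∈ Icc 1 x, va σ F m h ≤ Y := by
    intro h hh m hm
    have h1 := hFY m hm
    rw [mem_Icc] at hh
    unfold va
    split_ifs <;> omega
  have hd : ∀ h ∈ Icc 1 H, ∀ m ∈ Icc 1 x, |c m * dE σ F z h m| ≤ M := by
    intro h hh m hm
    rw [abs_mul]
    have h1 : |dE σ F z h m| ≤ M := by
      unfold dE
      refine (abs_sub _ _).trans ?_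
      rw [abs_of_nonneg ArithmeticFunction.vonMangoldt_nonneg, abs_of_nonneg (lamz_nonneg _ _)]
      have h2 := ArithmeticFunction.vonMangoldt_le_log (n := va σ F m h)
      have h3 : Real.log (va σ F m h : ℝ) ≤ Real.log Y := by
        rcases Nat.eq_zero_or_pos (va σ F m h) with h0 | h0
        · rw [h0]
          simpa using hlY
        · exact Real.log_le_log (by exact_mod_cast h0) (by exact_mod_cast hvY h hh m hm)
      have h4 := lamz_le_inv z (va σ F m h)
      linarith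
    calc |c m| * |dE σ F z h m| ≤ 1 * M := mul_le_mul (hc m) h1 (abs_nonneg _) (by norm_num)
      _ = M := one_mul M
  -- the maximal partial sums
  obtain ⟨mx, hmx⟩ : ∃ mx : ℕ → ℝ, ∀ h, mx h = (∑ j ∈ range (x / q + 1), |ps (fun m => c m * dE σ F z h m) (j * q)|) + q * M :=
    ⟨_, fun _ => rfl⟩
  have hmx1 : ∑ h ∈ Icc 1 H, mx h ≤ (x / q + 1 : ℕ) * R + H * (q * M) := by
    have e : ∑ h ∈ Icc 1 H, mx h = (∑ j ∈ range (x / q + 1), ∑ h ∈ Icc 1 H, |ps (fun m => c m * dE σ F z h m) (j * q)|) + H * (q * M) := by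
      rw [sum_comm, sum_congr rfl (fun h _ => hmx h), sum_add_distrib, sum_const, Nat.card_Icc, nsmul_eq_mul, Nat.add_sub_cancel]
    rw [e]
    apply add_le_add _ le_rfl
    calc ∑ j ∈ range (x / q + 1), ∑ h ∈ Icc 1 H, |ps (fun m => c m * dE σ F z h m) (j * q)| ≤ ∑ j ∈ range (x / q + 1), R := by
          apply sum_le_sum
          intro j hj
          apply hR
          rw [mem_range] at hj
          calc j * q ≤ (x / q) * q := Nat.mul_le_mul_right q (by omega)
            _ ≤ x := Nat.div_mul_le_self x q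
      _ = _ := by rw [sum_const, card_range, nsmul_eq_mul]
  have hps : ∀ h ∈ Icc 1 H, ∀ y ≤ x, |ps (fun m => c m * dE σ F z h m) y| ≤ mx h := by
    intro h hh y hy
    rw [hmx]
    exact grid_max _ x q hq M hM0 (fun m hm => hd h hh m hm) y hy
  have hmono1 : ∀ h, (Antitone fun m => wt (va σ F m h)) ∨ (Monotone fun m => wt (va σ F m h)) := by
    intro h
    cases σ
    · right
      intro u v huv
      apply wt_anti
      unfold va
      simp only [Bool.false_eq_true, if_false]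
      have := hmono huv
      omega
    · left
      intro u v huv
      apply wt_anti
      unfold va
      simp only [if_true]
      have := hmono huv
      omega
  have hmain : ∀ h ∈ Icc 1 H, |∑ m ∈ Icc 1 x, c m * dE σ F z h m * wt (va σ F m h)| ≤ 4 * mx h := by
    intro h hh
    have h1 : (4 : ℝ) * mx h = 2 * 2 * mx h := by ring
    rw [h1]
    rcases hmono1 h with hm | hm
    · exact abel_anti (fun m => c m * dE σ F z h m) (fun m => wt (va σ F m h)) x (mx h) 2 (hps h hh)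
        (fun m => wt_nonneg _) (fun m => wt_le _) hm
    · exact abel_mono (fun m => c m * dE σ F z h m) (fun m => wt (va σ F m h)) x (mx h) 2 (hps h hh)
        (fun m => wt_nonneg _) (fun m => wt_le _) hm
  -- pointwise
  have hpt : ∀ h ∈ Icc 1 H, |∑ m ∈ Icc 1 x, c m * (pI (va σ F m h) - qI z (va σ F m h))| ≤
      4 * mx h + ∑ m ∈ Icc 1 x, (2 * ppI (va σ F m h) + 2 * oneI z (va σ F m h)) := by
    intro h hh
    have e : ∑ m ∈ Icc 1 x, c m * (pI (va σ F m h) - qI z (va σ F m h)) =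
        (∑ m ∈ Icc 1 x, c m * dE σ F z h m * wt (va σ F m h)) +
        ∑ m ∈ Icc 1 x, c m * (-(ArithmeticFunction.vonMangoldt (va σ F m h) * wt (va σ F m h) - pI (va σ F m h)) +
          (lamz z (va σ F m h) * wt (va σ F m h) - qI z (va σ F m h))) := by
      rw [← sum_add_distrib]
      apply sum_congr rfl
      intro m _
      unfold dE
      ring
    rw [e]
    refine (abs_add_le _ _).trans (add_le_add (hmain h hh) ?_)
    refine (abs_sum_le_sum_abs _ _).trans (sum_le_sum fun m _ => ?_)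
    rw [abs_mul]
    have h1 : |-(ArithmeticFunction.vonMangoldt (va σ F m h) * wt (va σ F m h) - pI (va σ F m h)) +
          (lamz z (va σ F m h) * wt (va σ F m h) - qI z (va σ F m h))| ≤ 2 * ppI (va σ F m h) + 2 * oneI z (va σ F m h) := by
      refine (abs_add_le _ _).trans ?_
      rw [abs_neg]
      exact add_le_add (lam_wt _) (lamz_wt z _ hz)
    calc _ ≤ 1 * (2 * ppI (va σ F m h) + 2 * oneI z (va σ F m h)) := mul_le_mul (hc m) h1 (abs_nonneg _) (by norm_num)
      _ = _ := one_mul _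
  refine (sum_le_sum hpt).trans ?_
  rw [sum_add_distrib, ← mul_sum]
  apply add_le_add (mul_le_mul_of_nonneg_left hmx1 (by norm_num))
  rw [sum_comm]
  calc ∑ m ∈ Icc 1 x, ∑ h ∈ Icc 1 H, (2 * ppI (va σ F m h) + 2 * oneI z (va σ F m h)) ≤
        ∑ m ∈ Icc 1 x, (2 * (2 * √(Y : ℝ) * Real.log Y) + 2 * (Vz z)⁻¹) := by
        apply sum_le_sum
        intro m hm
        rw [sum_add_distrib, ← mul_sum, ← mul_sum]
        have hs := hFY m hm
        have hsub : Icc 1 (F m + H) ⊆ Icc 1 Y := Icc_subset_Icc_right hs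
        apply add_le_add
        · apply mul_le_mul_of_nonneg_left _ (by norm_num)
          refine (sum_va σ F m H ppI ppI_nonneg ?_).trans ((sum_le_sum_of_subset_of_nonneg hsub (fun v _ _ => ppI_nonneg v)).trans
            (sum_ppI Y hY))
          unfold ppI
          simp
        · apply mul_le_mul_of_nonneg_left _ (by norm_num)
          refine (sum_va σ F m H (oneI z) (oneI_nonneg z) ?_).trans ((sum_le_sum_of_subset_of_nonneg hsub
            (fun v _ _ => oneI_nonneg z v)).trans (sum_oneI z Y hY).le)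
          unfold oneI
          simp
    _ = _ := by rw [sum_const, Nat.card_Icc, nsmul_eq_mul, Nat.add_sub_cancel]

end Pool.Agent.U918.LP
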