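import Mathlib
import Pool.Agent.U918.LP.One

/-! One condition: the asymptotic estimate. -/

set_option autoImplicit false

namespace Pool.Agent.U918.LP
open Finset Pool.Agent.H373R2.T7 Polynomial

set_option maxHeartbeats 2000000 in
theorem lp1 (f : ℤ[X]) (hd : 1 ≤ f.natDegree) (hl : 0 < f.leadingCoeff) (F : ℕ → ℕ) (hF : ∀ m : ℕ, f.eval (m : ℤ) = F m)
    (hmono : Monotone F) (B : ℕ) (hB : 1 ≤ B) (U : ℕ) :
    ∃ B0 : ℕ, ∀ E : ℕ, ∃ x0 : ℕ, ∀ x : ℕ, x0 ≤ x → ∀ z : ℕ, Real.log x ^ B0 ≤ z → (z : ℝ) ≤ Real.log x ^ E →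
    ∀ σ : Bool, ∀ c : ℕ → ℝ, (∀ m, |c m| ≤ 1) →
    ∑ h ∈ Icc 1 (B * x ^ f.natDegree), |∑ m ∈ Icc 1 x, c m * (pI (va σ F m h) - qI z (va σ F m h))| ≤
      x ^ f.natDegree * x / Real.log x ^ U := by
  obtain ⟨d, hdd⟩ : ∃ d, d = f.natDegree := ⟨_, rfl⟩
  rw [← hdd] at hd ⊢
  obtain ⟨k, hk⟩ : ∃ k, k = U + 3 := ⟨_, rfl⟩
  obtain ⟨B1, hB1⟩ := bil_lam f (by rw [← hdd]; exact hd) hl B hB (2 * k)
  refine ⟨2 * B1 + 1, fun E => ?_⟩
  obtain ⟨x1, hx1⟩ := hB1 E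
  obtain ⟨C1, hC1⟩ : ∃ C1, C1 = cf f + B := ⟨_, rfl⟩
  have hC11 : 1 ≤ C1 := by omega
  obtain ⟨x2, hx2⟩ := Vz_inv_small E
  obtain ⟨x3, hx3⟩ := ev_L' (max (max 4 (Real.log C1)) (max (d : ℝ) (2 * (12 + 8 * B * (d + 2)))))
  obtain ⟨x4, hx4⟩ := ev_log' k 1
  obtain ⟨x5, hx5⟩ := ev_log' (U + 1) (2 * (4 * C1 * (d + 1) + 2))
  refine ⟨max (max x1 x2) (max x3 (max x4 (max x5 1))), fun x hx z hz1 hz2 σ c hc => ?_⟩
  have b1 : x1 ≤ x := le_trans (le_trans (le_max_left _ _) (le_max_left _ _)) hx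
  have b2 : x2 ≤ x := le_trans (le_trans (le_max_right _ _) (le_max_left _ _)) hx
  have b3 : x3 ≤ x := le_trans (le_trans (le_max_left _ _) (le_max_right _ _)) hx
  have b4 : x4 ≤ x := le_trans (le_trans (le_trans (le_max_left _ _) (le_max_right _ _)) (le_max_right _ _)) hx
  have b5 : x5 ≤ x := le_trans (le_trans (le_trans (le_trans (le_max_left _ _) (le_max_right _ _)) (le_max_right _ _)) (le_max_right _ _)) hx
  have b6 : 1 ≤ x := le_trans (le_trans (le_trans (le_trans (le_max_right _ _) (le_max_right _ _)) (le_max_right _ _)) (le_max_right _ _)) hx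
  have hL := hx3 x b3
  have h4 := hx4 x b4
  have h5 := hx5 x b5
  rw [one_mul] at h4
  obtain ⟨L, hLd⟩ : ∃ L, L = Real.log x := ⟨_, rfl⟩
  rw [← hLd] at hz1 hz2 hL h4 h5 ⊢
  have hL4 : 4 ≤ L := ((le_max_left _ _).trans (le_max_left _ _)).trans hL
  have hLC : Real.log C1 ≤ L := ((le_max_right _ _).trans (le_max_left _ _)).trans hL
  have hLdd : (d : ℝ) ≤ L := ((le_max_left _ _).trans (le_max_right _ _)).trans hL
  have hLB : 2 * (12 + 8 * B * (d + 2)) ≤ L := ((le_max_right _ _).trans (le_max_right _ _)).trans hL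
  have hL1 : 1 ≤ L := by linarith
  have hL0 : 0 < L := by linarith
  have hxr : (1 : ℝ) ≤ x := by exact_mod_cast b6
  have hx0 : (0 : ℝ) < x := by linarith
  have hdr : (1 : ℝ) ≤ d := by exact_mod_cast hd
  have hBr : (1 : ℝ) ≤ B := by exact_mod_cast hB
  have hCr : (1 : ℝ) ≤ C1 := by exact_mod_cast hC11
  -- N
  obtain ⟨N, hN⟩ : ∃ N, N = x ^ d := ⟨_, rfl⟩
  have hNx : x ≤ N := by rw [hN]; exact Nat.le_self_pow (by omega) x
  have hNr : (N : ℝ) = (x : ℝ) ^ d := by rw [hN]; push_cast; rfl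
  have hN0 : (0 : ℝ) < N := by rw [hNr]; positivity
  have hlN : Real.log N = d * L := by rw [hNr, Real.log_pow, hLd]
  have hLN : L ≤ Real.log N := by rw [hlN]; exact le_mul_of_one_le_left hL0.le hdr
  have hlN1 : 1 ≤ Real.log N := by linarith
  have hlN2 : Real.log N ≤ L ^ 2 := by
    rw [hlN, sq]
    exact mul_le_mul_of_nonneg_right hLdd hL0.le
  -- z
  have hz2' : (2 : ℕ) ≤ z := by
    have h1 : (2 : ℝ) ≤ z := by
      calc (2 : ℝ) ≤ L := by linarith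
        _ = L ^ 1 := (pow_one L).symm
        _ ≤ L ^ (2 * B1 + 1) := pow_le_pow_right₀ hL1 (by omega)
        _ ≤ z := hz1
    exact_mod_cast h1
  have hzN1 : Real.log N ^ B1 ≤ z := by
    calc Real.log N ^ B1 ≤ (L ^ 2) ^ B1 := pow_le_pow_left₀ (by linarith) hlN2 _
      _ = L ^ (2 * B1) := (pow_mul L 2 B1).symm
      _ ≤ L ^ (2 * B1 + 1) := pow_le_pow_right₀ hL1 (by omega)
      _ ≤ z := hz1
  have hzN2 : (z : ℝ) ≤ Real.log N ^ E := hz2.trans (pow_le_pow_left₀ hL0.le hLN _)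
  have hV := hx2 x b2 z (by omega) (by rw [← hLd]; exact hz2)
  rw [← hLd] at hV
  have hV0 := inv_pos.2 (Vz_pos z)
  -- the bilinear bound
  obtain ⟨R, hRd⟩ : ∃ R : ℝ, R = N * x / Real.log N ^ (2 * k) := ⟨_, rfl⟩
  have hR : ∀ y ≤ x, ∑ h ∈ Icc 1 (B * x ^ d), |ps (fun m => c m * dE σ F z h m) y| ≤ R := by
    intro y hy
    apply bil_real f F hF x (B * x ^ d) z hz2' R σ _ c hc y hy
    intro G c' hG hc'
    rw [hRd]
    exact hx1 N (b1.trans hNx) x (by rw [← hdd, ← hN]; exact Nat.le_mul_of_pos_left N hB)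
      (by rw [← hdd, ← hN]; exact Nat.le_mul_of_pos_left N hB) (B * x ^ d) (by rw [← hN]) z hzN1 hzN2 (sgn σ) (sgn_cases σ) G c' hG hc'
  have hRL : R ≤ N * x / L ^ (2 * k) := by
    rw [hRd]
    apply div_le_div_of_nonneg_left (by positivity) (by positivity)
    exact pow_le_pow_left₀ hL0.le hLN _
  -- Y
  obtain ⟨Y, hY⟩ : ∃ Y, Y = C1 * x ^ d := ⟨_, rfl⟩
  have hY1 : 1 ≤ Y := by rw [hY]; exact Nat.mul_pos hC11 (by positivity)
  have hFY : ∀ m ∈ Icc 1 x, F m + B * x ^ d ≤ Y := by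
    intro m hm
    rw [mem_Icc] at hm
    have h1 := abs_eval_le f m hm.1
    rw [hF, Nat.abs_cast, ← hdd] at h1
    have h2 : F m ≤ cf f * m ^ d := by exact_mod_cast h1
    have h3 : cf f * m ^ d ≤ cf f * x ^ d := Nat.mul_le_mul_left _ (Nat.pow_le_pow_left hm.2 d)
    rw [hY, hC1, add_mul]
    exact Nat.add_le_add (h2.trans h3) le_rfl
  have hYr : (Y : ℝ) = C1 * N := by rw [hY, hN]; push_cast; ring
  have hlY : Real.log Y ≤ (d + 1) * L := by
    rw [hYr, Real.log_mul (by positivity) hN0.ne', hlN]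
    linarith
  have hlY0 : 0 ≤ Real.log (Y : ℝ) := Real.log_natCast_nonneg Y
  -- T and q
  obtain ⟨T, hT⟩ : ∃ T, T = ⌈L ^ k⌉₊ := ⟨_, rfl⟩
  have hLk1 : 1 ≤ L ^ k := one_le_pow₀ hL1
  have hT1 : L ^ k ≤ T := by rw [hT]; exact Nat.le_ceil _
  have hT2 : (T : ℝ) < L ^ k + 1 := by rw [hT]; exact Nat.ceil_lt_add_one (by positivity)
  have hT0 : 1 ≤ T := by
    have : (1 : ℝ) ≤ T := hLk1.trans hT1
    exact_mod_cast this
  obtain ⟨q, hq⟩ : ∃ q, q = x / T + 1 := ⟨_, rfl⟩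
  have hq1 : 1 ≤ q := by rw [hq]; exact Nat.le_add_left 1 _
  have hxq : x / q ≤ T := by
    apply Nat.div_le_of_le_mul
    have := Nat.lt_mul_div_succ x (show 0 < T by omega)
    rw [hq]
    rw [mul_comm]
    exact this.le
  have hqr : (q : ℝ) ≤ 2 * (x / L ^ k) := by
    have h1 : ((x / T : ℕ) : ℝ) ≤ (x : ℝ) / T := Nat.cast_div_le
    have h2 : (x : ℝ) / T ≤ x / L ^ k := div_le_div_of_nonneg_left hx0.le (by positivity) hT1
    have h3 : (1 : ℝ) ≤ x / L ^ k := by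
      rw [le_div_iff₀ (by positivity), one_mul]
      refine h4.trans ?_
      exact Real.sqrt_le_iff.2 ⟨hx0.le, by nlinarith⟩
    rw [hq]
    push_cast
    linarith
  have hM : Real.log Y + (Vz z)⁻¹ ≤ (d + 2) * L := by linarith
  have key := assemble1 F hmono x (B * x ^ d) Y z q hz2' hq1 hY1 σ R ((d + 2) * L) hFY hM c hc hR
  refine key.trans ?_
  have hHr : ((B * x ^ d : ℕ) : ℝ) = B * N := by rw [hN]; push_cast; ring
  rw [hHr, ← hNr]
  have hk1 : L ^ k = L ^ (U + 2) * L := by rw [hk, pow_succ]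
  have p1 : ((x / q + 1 : ℕ) : ℝ) * R ≤ 3 * (N * x / L ^ (U + 2)) := by
    have h1 : ((x / q + 1 : ℕ) : ℝ) ≤ 3 * L ^ k := by
      have : ((x / q : ℕ) : ℝ) ≤ T := by exact_mod_cast hxq
      push_cast
      linarith
    calc ((x / q + 1 : ℕ) : ℝ) * R ≤ (3 * L ^ k) * (N * x / L ^ (2 * k)) :=
          mul_le_mul h1 hRL (by rw [hRd]; positivity) (by positivity)
      _ = 3 * (N * x / L ^ k) := by
          rw [two_mul k, pow_add]
          field_simp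
      _ ≤ 3 * (N * x / L ^ (U + 2)) := by
          apply mul_le_mul_of_nonneg_left _ (by norm_num)
          apply div_le_div_of_nonneg_left (by positivity) (by positivity)
          exact pow_le_pow_right₀ hL1 (by omega)
  have p2 : (B * N : ℝ) * (q * ((d + 2) * L)) ≤ 2 * B * (d + 2) * (N * x / L ^ (U + 2)) := by
    calc (B * N : ℝ) * (q * ((d + 2) * L)) ≤ (B * N : ℝ) * ((2 * (x / L ^ k)) * ((d + 2) * L)) := by
          apply mul_le_mul_of_nonneg_left _ (by positivity)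
          exact mul_le_mul_of_nonneg_right hqr (by positivity)
      _ = 2 * B * (d + 2) * (N * x / L ^ (U + 2)) := by
          rw [hk1]
          field_simp
  have p3 : (x : ℝ) * (2 * (2 * √(Y : ℝ) * Real.log Y) + 2 * (Vz z)⁻¹) ≤ (1 / 2) * (N * x / L ^ U) := by
    have hsN : √(N : ℝ) * √(N : ℝ) = N := Real.mul_self_sqrt hN0.le
    have hsN0 : 0 < √(N : ℝ) := Real.sqrt_pos.2 hN0
    have hsN1 : 1 ≤ √(N : ℝ) := by
      rw [Real.one_le_sqrt, hNr]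
      exact one_le_pow₀ hxr
    have h1 : √(Y : ℝ) ≤ C1 * √(N : ℝ) := by
      rw [hYr, Real.sqrt_mul (by positivity)]
      apply mul_le_mul_of_nonneg_right _ hsN0.le
      rw [Real.sqrt_le_left (by positivity)]
      nlinarith
    have h2 : 2 * √(Y : ℝ) * Real.log Y ≤ 2 * (C1 * √(N : ℝ)) * ((d + 1) * L) :=
      mul_le_mul (mul_le_mul_of_nonneg_left h1 (by norm_num)) hlY hlY0 (by positivity)
    have h3 : 2 * (2 * √(Y : ℝ) * Real.log Y) + 2 * (Vz z)⁻¹ ≤ (4 * C1 * (d + 1) + 2) * L * √(N : ℝ) := by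
      have h4 : 2 * (Vz z)⁻¹ ≤ 2 * L * √(N : ℝ) := by
        calc 2 * (Vz z)⁻¹ ≤ 2 * L := by linarith
          _ ≤ 2 * L * √(N : ℝ) := le_mul_of_one_le_right (by positivity) hsN1
      calc 2 * (2 * √(Y : ℝ) * Real.log Y) + 2 * (Vz z)⁻¹ ≤ 2 * (2 * (C1 * √(N : ℝ)) * ((d + 1) * L)) + 2 * L * √(N : ℝ) := by
            linarith
        _ = _ := by ring
    have h6 : √(x : ℝ) ≤ √(N : ℝ) := Real.sqrt_le_sqrt (by exact_mod_cast hNx)
    have h7 : 2 * (4 * C1 * (d + 1) + 2) * L ^ (U + 1) ≤ √(N : ℝ) := h5.trans h6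
    have h8 : (4 * C1 * (d + 1) + 2) * L * √(N : ℝ) ≤ (1 / 2) * (N / L ^ U) := by
      have e1 : (1 / 2 : ℝ) * (N / L ^ U) = (1 / 2) * (√(N : ℝ) * √(N : ℝ)) / L ^ U := by rw [hsN]; ring
      rw [e1, le_div_iff₀ (by positivity)]
      calc (4 * C1 * (d + 1) + 2) * L * √(N : ℝ) * L ^ U = (1 / 2) * (2 * (4 * C1 * (d + 1) + 2) * L ^ (U + 1)) * √(N : ℝ) := by
            rw [pow_succ]; ring
        _ ≤ (1 / 2) * √(N : ℝ) * √(N : ℝ) := by
            apply mul_le_mul_of_nonneg_right _ hsN0.le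
            linarith
        _ = _ := by ring
    calc (x : ℝ) * (2 * (2 * √(Y : ℝ) * Real.log Y) + 2 * (Vz z)⁻¹) ≤ x * ((1 / 2) * (N / L ^ U)) :=
          mul_le_mul_of_nonneg_left (h3.trans h8) hx0.le
      _ = _ := by ring
  have p4 : 4 * (3 * (N * x / L ^ (U + 2)) + 2 * B * (d + 2) * (N * x / L ^ (U + 2))) ≤ (1 / 2) * (N * x / L ^ U) := by
    have e1 : (N : ℝ) * x / L ^ U = (N * x / L ^ (U + 2)) * (L * L) := by
      rw [pow_add]
      field_simp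
    rw [e1]
    have h0 : (0 : ℝ) ≤ N * x / L ^ (U + 2) := by positivity
    have h1 : 12 + 8 * B * (d + 2) ≤ (1 / 2) * (L * L) := by nlinarith
    calc 4 * (3 * (N * x / L ^ (U + 2)) + 2 * B * (d + 2) * (N * x / L ^ (U + 2))) = (N * x / L ^ (U + 2)) * (12 + 8 * B * (d + 2)) := by ring
      _ ≤ (N * x / L ^ (U + 2)) * ((1 / 2) * (L * L)) := mul_le_mul_of_nonneg_left h1 h0
      _ = _ := by ring
  linarith

end Pool.Agent.U918.LP
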