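import Mathlib
import Pool.Agent.U918.LP.One2

/-! Several conditions. -/

set_option autoImplicit false

namespace Pool.Agent.U918.LP
open Finset Pool.Agent.H373R2.T7 Polynomial

lemma sum_piFinset_succ {r : ℕ} (s : Fin (r + 1) → Finset ℕ) (g : (Fin (r + 1) → ℕ) → ℝ) :
    ∑ h ∈ Fintype.piFinset s, g h = ∑ a ∈ s 0, ∑ h ∈ Fintype.piFinset (fun i => s i.succ), g (Fin.cons a h) := by
  rw [← sum_product']
  refine sum_bij' (fun h _ => (h 0, fun i => h i.succ)) (fun p _ => Fin.cons p.1 p.2) ?_ ?_ ?_ ?_ ?_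
  · intro h hh
    rw [Fintype.mem_piFinset] at hh
    rw [mem_product, Fintype.mem_piFinset]
    exact ⟨hh 0, fun i => hh i.succ⟩
  · intro p hp
    rw [mem_product, Fintype.mem_piFinset] at hp
    rw [Fintype.mem_piFinset]
    intro i
    refine Fin.cases ?_ (fun j => ?_) i
    · exact hp.1
    · exact hp.2 j
  · intro h _
    funext i
    refine Fin.cases ?_ (fun j => ?_) i <;> rfl
  · intro p _
    rfl
  · intro h _
    congr 1
    funext i
    refine Fin.cases ?_ (fun j => ?_) i <;> rfl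

/-- products of indicators -/
lemma prod_pI_le {r : ℕ} (v : Fin r → ℕ) : |∏ i, pI (v i)| ≤ 1 := by
  rw [abs_of_nonneg (prod_nonneg fun i _ => pI_nonneg _)]
  exact prod_le_one (fun i _ => pI_nonneg _) (fun i _ => pI_le _)

theorem lpr (r : ℕ) : ∀ (f : Fin r → ℤ[X]), (∀ i, 1 ≤ (f i).natDegree) → (∀ i, 0 < (f i).leadingCoeff) →
    ∀ (F : Fin r → ℕ → ℕ), (∀ i, ∀ m : ℕ, (f i).eval (m : ℤ) = F i m) → (∀ i, Monotone (F i)) → ∀ B : ℕ, 1 ≤ B → ∀ U : ℕ,
    ∃ B0 : ℕ, ∀ E : ℕ, ∃ x0 : ℕ, ∀ x : ℕ, x0 ≤ x → ∀ z : ℕ, Real.log x ^ B0 ≤ z → (z : ℝ) ≤ Real.log x ^ E →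
    ∀ σ : Fin r → Bool, ∀ c : ℕ → ℝ, (∀ m, |c m| ≤ 1) →
    ∑ h ∈ Fintype.piFinset (fun i => Icc 1 (B * x ^ (f i).natDegree)),
      |∑ m ∈ Icc 1 x, c m * (∏ i, pI (va (σ i) (F i) m (h i)) - ∏ i, qI z (va (σ i) (F i) m (h i)))| ≤
      (∏ i, (x : ℝ) ^ (f i).natDegree) * x / Real.log x ^ U := by
  induction r with
  | zero =>
    intro f _ _ F _ _ B _ U
    obtain ⟨x1, hx1⟩ := ev_L' 1
    refine ⟨0, fun E => ⟨x1, fun x hx z _ _ σ c _ => ?_⟩⟩
    have hL := hx1 x hx
    have : ∑ h ∈ Fintype.piFinset (fun i => Icc 1 (B * x ^ (f i).natDegree)),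
      |∑ m ∈ Icc 1 x, c m * (∏ i, pI (va (σ i) (F i) m (h i)) - ∏ i, qI z (va (σ i) (F i) m (h i)))| = 0 := by
      apply sum_eq_zero
      intro h _
      rw [abs_eq_zero]
      apply sum_eq_zero
      intro m _
      rw [Fin.prod_univ_zero, Fin.prod_univ_zero, sub_self, mul_zero]
    rw [this]
    positivity
  | succ r ih =>
    intro f hd hl F hF hmono B hB U
    obtain ⟨Ds, hDs⟩ : ∃ Ds : ℕ, Ds = B ^ r := ⟨_, rfl⟩
    obtain ⟨Ba, ha⟩ := lp1 (f 0) (hd 0) (hl 0) (F 0) (hF 0) (hmono 0) B hB (U + 1)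
    obtain ⟨Bb, hb⟩ := ih (fun i => f i.succ) (fun i => hd i.succ) (fun i => hl i.succ) (fun i => F i.succ)
      (fun i => hF i.succ) (fun i => hmono i.succ) B hB (U + 3)
    refine ⟨max Ba Bb, fun E => ?_⟩
    obtain ⟨xa, hxa⟩ := ha E
    obtain ⟨xb, hxb⟩ := hb E
    obtain ⟨x2, hx2⟩ := Vz_inv_small E
    obtain ⟨x3, hx3⟩ := ev_L' (max 2 (max (2 * (B : ℝ) ^ r) (4 * B)))
    refine ⟨max (max xa xb) (max x2 (max x3 1)), fun x hx z hz1 hz2 σ c hc => ?_⟩
    have b1 : xa ≤ x := le_trans (le_trans (le_max_left _ _) (le_max_left _ _)) hx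
    have b2 : xb ≤ x := le_trans (le_trans (le_max_right _ _) (le_max_left _ _)) hx
    have b3 : x2 ≤ x := le_trans (le_trans (le_max_left _ _) (le_max_right _ _)) hx
    have b4 : x3 ≤ x := le_trans (le_trans (le_trans (le_max_left _ _) (le_max_right _ _)) (le_max_right _ _)) hx
    have b5 : 1 ≤ x := le_trans (le_trans (le_trans (le_max_right _ _) (le_max_right _ _)) (le_max_right _ _)) hx
    have hL := hx3 x b4
    obtain ⟨L, hLd⟩ : ∃ L, L = Real.log x := ⟨_, rfl⟩
    rw [← hLd] at hL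
    have hL2 : 2 ≤ L := (le_max_left _ _).trans hL
    have hLB1 : 2 * (B : ℝ) ^ r ≤ L := ((le_max_left _ _).trans (le_max_right _ _)).trans hL
    have hLB2 : 4 * (B : ℝ) ≤ L := ((le_max_right _ _).trans (le_max_right _ _)).trans hL
    have hL1 : 1 ≤ L := by linarith
    have hL0 : 0 < L := by linarith
    have hBr : (1 : ℝ) ≤ B := by exact_mod_cast hB
    have hxr : (1 : ℝ) ≤ x := by exact_mod_cast b5
    have hza : Real.log x ^ Ba ≤ z := (pow_le_pow_right₀ (by rw [← hLd]; exact hL1) (le_max_left Ba Bb)).trans hz1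
    have hzb : Real.log x ^ Bb ≤ z := (pow_le_pow_right₀ (by rw [← hLd]; exact hL1) (le_max_right Ba Bb)).trans hz1
    have hz0 : 1 ≤ z := by
      have : (1 : ℝ) ≤ z := (one_le_pow₀ (by rw [← hLd]; exact hL1)).trans hz1
      exact_mod_cast this
    have hV := hx2 x b3 z hz0 hz2
    rw [← hLd] at hV
    have hV0 := inv_pos.2 (Vz_pos z)
    -- abbreviations
    obtain ⟨N0, hN0⟩ : ∃ N0 : ℝ, N0 = (x : ℝ) ^ (f 0).natDegree := ⟨_, rfl⟩
    obtain ⟨N', hN'⟩ : ∃ N' : ℝ, N' = ∏ i : Fin r, (x : ℝ) ^ (f i.succ).natDegree := ⟨_, rfl⟩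
    have hN0p : 0 < N0 := by rw [hN0]; positivity
    have hN'p : 0 < N' := by rw [hN']; exact prod_pos fun i _ => by positivity
    rw [sum_piFinset_succ, Fin.prod_univ_succ, ← hN0, ← hN']
    -- pointwise splitting
    have hpt : ∀ a : ℕ, ∀ h : Fin r → ℕ,
        |∑ m ∈ Icc 1 x, c m * (∏ i, pI (va (σ i) (F i) m ((Fin.cons a h : Fin (r + 1) → ℕ) i)) -
          ∏ i, qI z (va (σ i) (F i) m ((Fin.cons a h : Fin (r + 1) → ℕ) i)))| ≤
        |∑ m ∈ Icc 1 x, (c m * ∏ i : Fin r, pI (va (σ i.succ) (F i.succ) m (h i))) *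
          (pI (va (σ 0) (F 0) m a) - qI z (va (σ 0) (F 0) m a))| +
        (2 * L) * |∑ m ∈ Icc 1 x, (c m * (qI z (va (σ 0) (F 0) m a) / (2 * L))) *
          (∏ i : Fin r, pI (va (σ i.succ) (F i.succ) m (h i)) - ∏ i : Fin r, qI z (va (σ i.succ) (F i.succ) m (h i)))| := by
      intro a h
      rw [← abs_of_pos (show (0 : ℝ) < 2 * L by positivity), ← abs_mul, abs_of_pos (show (0 : ℝ) < 2 * L by positivity)]
      refine le_trans (le_of_eq ?_) (abs_add_le _ _)
      congr 1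
      rw [mul_sum, ← sum_add_distrib]
      apply sum_congr rfl
      intro m _
      rw [Fin.prod_univ_succ, Fin.prod_univ_succ]
      simp only [Fin.cons_zero, Fin.cons_succ]
      field_simp
      ring
    refine (sum_le_sum fun a _ => sum_le_sum fun h _ => hpt a h).trans ?_
    have e1 : ∑ a ∈ Icc 1 (B * x ^ (f 0).natDegree), ∑ h ∈ Fintype.piFinset (fun i : Fin r => Icc 1 (B * x ^ (f i.succ).natDegree)),
        (|∑ m ∈ Icc 1 x, (c m * ∏ i : Fin r, pI (va (σ i.succ) (F i.succ) m (h i))) *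
          (pI (va (σ 0) (F 0) m a) - qI z (va (σ 0) (F 0) m a))| +
        (2 * L) * |∑ m ∈ Icc 1 x, (c m * (qI z (va (σ 0) (F 0) m a) / (2 * L))) *
          (∏ i : Fin r, pI (va (σ i.succ) (F i.succ) m (h i)) - ∏ i : Fin r, qI z (va (σ i.succ) (F i.succ) m (h i)))|) =
        (∑ h ∈ Fintype.piFinset (fun i : Fin r => Icc 1 (B * x ^ (f i.succ).natDegree)), ∑ a ∈ Icc 1 (B * x ^ (f 0).natDegree),
          |∑ m ∈ Icc 1 x, (c m * ∏ i : Fin r, pI (va (σ i.succ) (F i.succ) m (h i))) *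
          (pI (va (σ 0) (F 0) m a) - qI z (va (σ 0) (F 0) m a))|) +
        ∑ a ∈ Icc 1 (B * x ^ (f 0).natDegree), (2 * L) * ∑ h ∈ Fintype.piFinset (fun i : Fin r => Icc 1 (B * x ^ (f i.succ).natDegree)),
          |∑ m ∈ Icc 1 x, (c m * (qI z (va (σ 0) (F 0) m a) / (2 * L))) *
          (∏ i : Fin r, pI (va (σ i.succ) (F i.succ) m (h i)) - ∏ i : Fin r, qI z (va (σ i.succ) (F i.succ) m (h i)))| := by
      rw [sum_comm (s := Fintype.piFinset (fun i : Fin r => Icc 1 (B * x ^ (f i.succ).natDegree))), ← sum_add_distrib]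
      apply sum_congr rfl
      intro a _
      rw [sum_add_distrib, mul_sum]
    rw [e1]
    have hcard : ((Fintype.piFinset (fun i : Fin r => Icc 1 (B * x ^ (f i.succ).natDegree))).card : ℝ) = (B : ℝ) ^ r * N' := by
      rw [Fintype.card_piFinset]
      simp only [Nat.card_Icc, Nat.add_sub_cancel]
      push_cast
      rw [prod_mul_distrib, prod_const, card_univ, Fintype.card_fin, hN']
    have t1 : ∑ h ∈ Fintype.piFinset (fun i : Fin r => Icc 1 (B * x ^ (f i.succ).natDegree)), ∑ a ∈ Icc 1 (B * x ^ (f 0).natDegree),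
          |∑ m ∈ Icc 1 x, (c m * ∏ i : Fin r, pI (va (σ i.succ) (F i.succ) m (h i))) *
          (pI (va (σ 0) (F 0) m a) - qI z (va (σ 0) (F 0) m a))| ≤ (1 / 2) * (N0 * N' * x / L ^ U) := by
      calc _ ≤ ∑ h ∈ Fintype.piFinset (fun i : Fin r => Icc 1 (B * x ^ (f i.succ).natDegree)), (N0 * x / L ^ (U + 1)) := by
            apply sum_le_sum
            intro h _
            rw [hN0, hLd]
            apply hxa x b1 z hza hz2 (σ 0)
            intro m
            rw [abs_mul]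
            calc |c m| * |∏ i : Fin r, pI (va (σ i.succ) (F i.succ) m (h i))| ≤ 1 * 1 :=
                  mul_le_mul (hc m) (prod_pI_le _) (abs_nonneg _) (by norm_num)
              _ = 1 := one_mul 1
        _ = (B : ℝ) ^ r * N' * (N0 * x / L ^ (U + 1)) := by rw [sum_const, nsmul_eq_mul, hcard]
        _ = (2 * (B : ℝ) ^ r) * ((1 / 2) * (N0 * N' * x / L ^ (U + 1))) := by ring
        _ ≤ L * ((1 / 2) * (N0 * N' * x / L ^ (U + 1))) := mul_le_mul_of_nonneg_right hLB1 (by positivity)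
        _ = _ := by
            rw [pow_succ]
            field_simp
    have t2 : ∑ a ∈ Icc 1 (B * x ^ (f 0).natDegree), (2 * L) * ∑ h ∈ Fintype.piFinset (fun i : Fin r => Icc 1 (B * x ^ (f i.succ).natDegree)),
          |∑ m ∈ Icc 1 x, (c m * (qI z (va (σ 0) (F 0) m a) / (2 * L))) *
          (∏ i : Fin r, pI (va (σ i.succ) (F i.succ) m (h i)) - ∏ i : Fin r, qI z (va (σ i.succ) (F i.succ) m (h i)))| ≤
        (1 / 2) * (N0 * N' * x / L ^ U) := by
      calc _ ≤ ∑ a ∈ Icc 1 (B * x ^ (f 0).natDegree), (2 * L) * (N' * x / L ^ (U + 3)) := by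
            apply sum_le_sum
            intro a _
            apply mul_le_mul_of_nonneg_left _ (by positivity)
            rw [hN', hLd]
            apply hxb x b2 z hzb hz2 (fun i => σ i.succ)
            intro m
            rw [← hLd]
            have h1 : |qI z (va (σ 0) (F 0) m a) / (2 * L)| ≤ 1 := by
              rw [abs_of_nonneg (div_nonneg (qI_nonneg _ _) (by positivity)), div_le_one (by positivity)]
              exact (qI_le _ _).trans (by linarith)
            rw [abs_mul]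
            calc |c m| * |qI z (va (σ 0) (F 0) m a) / (2 * L)| ≤ 1 * 1 := mul_le_mul (hc m) h1 (abs_nonneg _) (by norm_num)
              _ = 1 := one_mul 1
        _ = (B * N0) * ((2 * L) * (N' * x / L ^ (U + 3))) := by
            rw [sum_const, nsmul_eq_mul, Nat.card_Icc, Nat.add_sub_cancel, hN0]
            push_cast
            ring
        _ = (4 * B) * ((1 / 2) * (N0 * N' * x / L ^ (U + 2))) := by
            rw [show U + 3 = (U + 2) + 1 from rfl, pow_succ L (U + 2)]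
            field_simp
            ring
        _ ≤ (L * L) * ((1 / 2) * (N0 * N' * x / L ^ (U + 2))) := by
            apply mul_le_mul_of_nonneg_right _ (by positivity)
            nlinarith
        _ = _ := by
            rw [pow_add]
            field_simp
    have : (1 / 2 : ℝ) * (N0 * N' * x / L ^ U) + (1 / 2) * (N0 * N' * x / L ^ U) = N0 * N' * x / L ^ U := by ring
    rw [← hLd]
    linarith

end Pool.Agent.U918.LP
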