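import Mathlib
import Pool.Agent.U918.LP.Multi

/-! The exceptional set of shift vectors. -/

set_option autoImplicit false

namespace Pool.Agent.U918.LP
open Finset Pool.Agent.H373R2.T7 Polynomial

lemma ps_sum {ι : Type*} (s : Finset ι) (g : ι → ℕ → ℝ) (y : ℕ) : ps (fun m => ∑ i ∈ s, g i m) y = ∑ i ∈ s, ps (g i) y := by
  unfold ps
  rw [sum_comm]

/-- the difference of the two products -/
noncomputable def dP {r : ℕ} (σ : Fin r → Bool) (F : Fin r → ℕ → ℕ) (z : ℕ) (h : Fin r → ℕ) (m : ℕ) : ℝ :=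
  ∏ i, pI (va (σ i) (F i) m (h i)) - ∏ i, qI z (va (σ i) (F i) m (h i))

open Classical in
theorem exc (r : ℕ) (f : Fin r → ℤ[X]) (hd : ∀ i, 1 ≤ (f i).natDegree) (hl : ∀ i, 0 < (f i).leadingCoeff)
    (F : Fin r → ℕ → ℕ) (hF : ∀ i, ∀ m : ℕ, (f i).eval (m : ℤ) = F i m) (hmono : ∀ i, Monotone (F i)) (B : ℕ) (hB : 1 ≤ B)
    (A D : ℕ) :
    ∃ B0 : ℕ, ∀ E : ℕ, ∃ x0 : ℕ, ∀ x : ℕ, x0 ≤ x → ∀ z : ℕ, Real.log x ^ B0 ≤ z → (z : ℝ) ≤ Real.log x ^ E →
    ∀ σ : Fin r → Bool, ∀ c : ℕ → ℝ, (∀ m, |c m| ≤ 1) →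
    (((Fintype.piFinset (fun i => Icc 1 (B * x ^ (f i).natDegree))).filter (fun h =>
      ∃ y ≤ x, (x : ℝ) / Real.log x ^ D < |ps (fun m => c m * dP σ F z h m) y|)).card : ℝ) ≤
      (∏ i, (x : ℝ) ^ (f i).natDegree) / Real.log x ^ A := by
  obtain ⟨k, hk⟩ : ∃ k, k = D + 2 * r + 2 := ⟨_, rfl⟩
  obtain ⟨B0, h0⟩ := lpr r f hd hl F hF hmono B hB (D + k + A + 3)
  refine ⟨B0, fun E => ?_⟩
  obtain ⟨x1, hx1⟩ := h0 E
  obtain ⟨x2, hx2⟩ := Vz_inv_small E
  obtain ⟨x3, hx3⟩ := ev_L' 8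
  obtain ⟨x4, hx4⟩ := ev_log' k 1
  refine ⟨max (max x1 x2) (max x3 (max x4 1)), fun x hx z hz1 hz2 σ c hc => ?_⟩
  have b1 : x1 ≤ x := le_trans (le_trans (le_max_left _ _) (le_max_left _ _)) hx
  have b2 : x2 ≤ x := le_trans (le_trans (le_max_right _ _) (le_max_left _ _)) hx
  have b3 : x3 ≤ x := le_trans (le_trans (le_max_left _ _) (le_max_right _ _)) hx
  have b4 : x4 ≤ x := le_trans (le_trans (le_trans (le_max_left _ _) (le_max_right _ _)) (le_max_right _ _)) hx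
  have b5 : 1 ≤ x := le_trans (le_trans (le_trans (le_max_right _ _) (le_max_right _ _)) (le_max_right _ _)) hx
  have hL8' := hx3 x b3
  have h4 := hx4 x b4
  rw [one_mul] at h4
  have hLgen := hx1 x b1 z hz1 hz2 σ
  obtain ⟨L, hLd⟩ : ∃ L, L = Real.log x := ⟨_, rfl⟩
  rw [← hLd] at hL8' h4 hLgen hz1 hz2 ⊢
  have hL1 : 1 ≤ L := by linarith
  have hL0 : 0 < L := by linarith
  have hxr : (1 : ℝ) ≤ x := by exact_mod_cast b5
  have hx0 : (0 : ℝ) < x := by linarith
  have hz0 : 1 ≤ z := by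
    have : (1 : ℝ) ≤ z := (one_le_pow₀ hL1).trans hz1
    exact_mod_cast this
  have hV := hx2 x b2 z hz0 (by rw [← hLd]; exact hz2)
  rw [← hLd] at hV
  have hV0 := inv_pos.2 (Vz_pos z)
  obtain ⟨P, hP⟩ : ∃ P : ℝ, P = ∏ i, (x : ℝ) ^ (f i).natDegree := ⟨_, rfl⟩
  have hP0 : 0 < P := by rw [hP]; exact prod_pos fun i _ => by positivity
  rw [← hP] at hLgen ⊢
  -- the pointwise bound
  have hM : ∀ h m, |c m * dP σ F z h m| ≤ L ^ (2 * r) := by
    intro h m
    rw [abs_mul]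
    have h1 : |dP σ F z h m| ≤ L ^ (2 * r) := by
      unfold dP
      have a1 : 0 ≤ ∏ i, pI (va (σ i) (F i) m (h i)) := prod_nonneg fun i _ => pI_nonneg _
      have a2 : ∏ i, pI (va (σ i) (F i) m (h i)) ≤ 1 := prod_le_one (fun i _ => pI_nonneg _) (fun i _ => pI_le _)
      have a3 : 0 ≤ ∏ i, qI z (va (σ i) (F i) m (h i)) := prod_nonneg fun i _ => qI_nonneg _ _
      have a4 : ∏ i, qI z (va (σ i) (F i) m (h i)) ≤ L ^ (2 * r) := by
        calc ∏ i, qI z (va (σ i) (F i) m (h i)) ≤ ∏ _i : Fin r, L ^ 2 := by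
              apply prod_le_prod (fun i _ => qI_nonneg _ _)
              intro i _
              refine (qI_le _ _).trans ?_
              nlinarith
          _ = (L ^ 2) ^ r := by rw [prod_const, card_univ, Fintype.card_fin]
          _ = L ^ (2 * r) := (pow_mul L 2 r).symm
      have a5 : 1 ≤ L ^ (2 * r) := one_le_pow₀ hL1
      rw [abs_le]
      constructor <;> linarith
    calc |c m| * |dP σ F z h m| ≤ 1 * L ^ (2 * r) := mul_le_mul (hc m) h1 (abs_nonneg _) (by norm_num)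
      _ = _ := one_mul _
  -- T and q
  obtain ⟨T, hT⟩ : ∃ T, T = ⌈L ^ k⌉₊ := ⟨_, rfl⟩
  have hLk1 : 1 ≤ L ^ k := one_le_pow₀ hL1
  have hT1 : L ^ k ≤ T := by rw [hT]; exact Nat.le_ceil _
  have hT2 : (T : ℝ) < L ^ k + 1 := by rw [hT]; exact Nat.ceil_lt_add_one (by positivity)
  have hT0 : 1 ≤ T := by
    have : (1 : ℝ) ≤ T := hLk1.trans hT1
    exact_mod_cast this
  obtain ⟨q, hq⟩ : ∃ q, q = x / T + 1 := ⟨_, rfl⟩
  have hq1 : 1 ≤ q := by rw [hq]; exact Nat.le_add_left 1 _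
  have hxq : x / q ≤ T := by
    apply Nat.div_le_of_le_mul
    have := Nat.lt_mul_div_succ x (show 0 < T from hT0)
    rw [hq]
    rw [mul_comm]
    exact this.le
  have hqr : (q : ℝ) ≤ 2 * (x / L ^ k) := by
    have h1 : ((x / T : ℕ) : ℝ) ≤ (x : ℝ) / T := Nat.cast_div_le
    have h2 : (x : ℝ) / T ≤ x / L ^ k := div_le_div_of_nonneg_left hx0.le (by positivity) hT1
    have h3 : (1 : ℝ) ≤ x / L ^ k := by
      rw [le_div_iff₀ (by positivity), one_mul]
      refine h4.trans ?_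
      exact Real.sqrt_le_iff.2 ⟨hx0.le, by nlinarith⟩
    rw [hq]
    push_cast
    linarith
  have hqM : (q : ℝ) * L ^ (2 * r) ≤ (1 / 2) * (x / L ^ D) := by
    calc (q : ℝ) * L ^ (2 * r) ≤ 2 * (x / L ^ k) * L ^ (2 * r) := mul_le_mul_of_nonneg_right hqr (by positivity)
      _ = 2 * (x / L ^ D) / L ^ 2 := by
          rw [hk, pow_add, pow_add]
          field_simp
      _ ≤ (1 / 2) * (x / L ^ D) := by
          rw [div_le_iff₀ (by positivity)]
          have h1 : (0 : ℝ) ≤ x / L ^ D := by positivity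
          have h2 : (4 : ℝ) ≤ L ^ 2 := by nlinarith
          have h3 : (x : ℝ) / L ^ D * 4 ≤ x / L ^ D * L ^ 2 := mul_le_mul_of_nonneg_left h2 h1
          linarith
  -- Markov
  set Hs := Fintype.piFinset (fun i => Icc 1 (B * x ^ (f i).natDegree)) with hHs
  set Bad := Hs.filter (fun h => ∃ y ≤ x, (x : ℝ) / L ^ D < |ps (fun m => c m * dP σ F z h m) y|) with hBad
  have g1 : ∀ h ∈ Bad, (1 / 2) * ((x : ℝ) / L ^ D) ≤ ∑ j ∈ range (x / q + 1), |ps (fun m => c m * dP σ F z h m) (j * q)| := by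
    intro h hh
    rw [hBad, mem_filter] at hh
    obtain ⟨_, y, hy, hlt⟩ := hh
    have := grid_max (fun m => c m * dP σ F z h m) x q hq1 (L ^ (2 * r)) (by positivity) (fun m _ => hM h m) y hy
    linarith
  have g2 : (Bad.card : ℝ) * ((1 / 2) * ((x : ℝ) / L ^ D)) ≤
      ∑ h ∈ Hs, ∑ j ∈ range (x / q + 1), |ps (fun m => c m * dP σ F z h m) (j * q)| := by
    calc (Bad.card : ℝ) * ((1 / 2) * ((x : ℝ) / L ^ D)) = ∑ _h ∈ Bad, (1 / 2) * ((x : ℝ) / L ^ D) := by
          rw [sum_const, nsmul_eq_mul]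
      _ ≤ ∑ h ∈ Bad, ∑ j ∈ range (x / q + 1), |ps (fun m => c m * dP σ F z h m) (j * q)| := sum_le_sum g1
      _ ≤ _ := sum_le_sum_of_subset_of_nonneg (filter_subset _ _) fun h _ _ => sum_nonneg fun _ _ => abs_nonneg _
  have g3 : ∑ h ∈ Hs, ∑ j ∈ range (x / q + 1), |ps (fun m => c m * dP σ F z h m) (j * q)| ≤
      (3 * L ^ k) * (P * x / L ^ (D + k + A + 3)) := by
    rw [sum_comm]
    calc _ ≤ ∑ _j ∈ range (x / q + 1), P * x / L ^ (D + k + A + 3) := by
          apply sum_le_sum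
          intro j hj
          have hjx : j * q ≤ x := by
            rw [mem_range] at hj
            calc j * q ≤ (x / q) * q := Nat.mul_le_mul_right q (by omega)
              _ ≤ x := Nat.div_mul_le_self x q
          have h1 := hLgen (fun m => if m ≤ j * q then c m else 0) (by
            intro m
            split_ifs
            · exact hc m
            · simp)
          refine le_trans (le_of_eq ?_) h1
          apply sum_congr rfl
          intro h _
          congr 1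
          unfold ps
          have e4 : (Icc 1 x).filter (fun m => m ≤ j * q) = Icc 1 (j * q) := by
            ext m
            rw [mem_filter, mem_Icc, mem_Icc]
            omega
          rw [← e4, sum_filter]
          apply sum_congr rfl
          intro m _
          unfold dP
          split_ifs
          · rfl
          · rw [zero_mul]
      _ = ((x / q + 1 : ℕ) : ℝ) * (P * x / L ^ (D + k + A + 3)) := by rw [sum_const, card_range, nsmul_eq_mul]
      _ ≤ _ := by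
          apply mul_le_mul_of_nonneg_right _ (by positivity)
          have : ((x / q : ℕ) : ℝ) ≤ T := by exact_mod_cast hxq
          push_cast
          linarith
  have g4 := g2.trans g3
  rw [le_div_iff₀ (by positivity)]
  have e1 : (3 * L ^ k) * (P * x / L ^ (D + k + A + 3)) = (P / L ^ A) * (1 / 2) * (x / L ^ D) * (6 / L ^ 3) := by
    rw [show D + k + A + 3 = D + (k + (A + 3)) by ring, pow_add L D, pow_add L k, pow_add L A]
    field_simp
    ring
  rw [e1] at g4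
  have h6 : 6 / L ^ 3 ≤ 1 := by
    rw [div_le_one (by positivity)]
    have : (8 : ℝ) ^ 3 ≤ L ^ 3 := pow_le_pow_left₀ (by norm_num) hL8' 3
    linarith
  have h7 : (P / L ^ A) * (1 / 2) * (x / L ^ D) * (6 / L ^ 3) ≤ (P / L ^ A) * (1 / 2) * (x / L ^ D) :=
    mul_le_of_le_one_right (by positivity) h6
  have h8 : (Bad.card : ℝ) * ((1 / 2) * ((x : ℝ) / L ^ D)) ≤ (P / L ^ A) * ((1 / 2) * (x / L ^ D)) := by
    calc _ ≤ _ := g4.trans h7
      _ = _ := by ring
  have h9 : (Bad.card : ℝ) ≤ P / L ^ A := le_of_mul_le_mul_right h8 (by positivity)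
  calc (Bad.card : ℝ) * L ^ A ≤ (P / L ^ A) * L ^ A := mul_le_mul_of_nonneg_right h9 (by positivity)
    _ = P := by field_simp

end Pool.Agent.U918.LP
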