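import Mathlib
import Pool.Agent.U918.LP.Exc

/-! The final form: all initial intervals and all residue classes to small moduli. -/

set_option autoImplicit false

namespace Pool.Agent.U918.LP
open Finset Pool.Agent.H373R2.T7 Polynomial

open Classical in
/-- the weight of the `m ≤ y` in a residue class at which all shifted values are prime -/
noncomputable def PS {r : ℕ} (σ : Fin r → Bool) (F : Fin r → ℕ → ℕ) (w : ℕ → ℝ) (h : Fin r → ℕ) (q a y : ℕ) : ℝ :=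
  ∑ m ∈ (Icc 1 y).filter (fun m => m ≡ a [MOD q] ∧ ∀ i, (va (σ i) (F i) m (h i)).Prime), w m

open Classical in
/-- the same for the sieve model -/
noncomputable def MS {r : ℕ} (σ : Fin r → Bool) (F : Fin r → ℕ → ℕ) (z : ℕ) (w : ℕ → ℝ) (h : Fin r → ℕ) (q a y : ℕ) : ℝ :=
  ∑ m ∈ (Icc 1 y).filter (fun m => m ≡ a [MOD q] ∧ ∀ i, ∀ p : ℕ, p.Prime → p ≤ z → ¬ p ∣ va (σ i) (F i) m (h i)),
    w m * ∏ i, (Vz z * Real.log (va (σ i) (F i) m (h i)))⁻¹

open Classical in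
lemma prod_pI {r : ℕ} (v : Fin r → ℕ) : ∏ i, pI (v i) = if ∀ i, (v i).Prime then 1 else 0 := by
  split_ifs with h
  · apply prod_eq_one
    intro i _
    unfold pI
    rw [if_pos (h i)]
  · push Not at h
    obtain ⟨i, hi⟩ := h
    apply prod_eq_zero (mem_univ i)
    unfold pI
    rw [if_neg hi]

open Classical in
lemma prod_qI {r : ℕ} (z : ℕ) (v : Fin r → ℕ) :
    ∏ i, qI z (v i) = if ∀ i, ∀ p : ℕ, p.Prime → p ≤ z → ¬ p ∣ v i then ∏ i, (Vz z * Real.log (v i))⁻¹ else 0 := by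
  split_ifs with h
  · apply prod_congr rfl
    intro i _
    unfold qI lamz
    rw [if_pos (fun p hp => h i p (mem_pz.1 hp).2 (mem_pz.1 hp).1), mul_inv, div_eq_mul_inv]
  · push Not at h
    obtain ⟨i, p, hp, hpz, hd⟩ := h
    apply prod_eq_zero (mem_univ i)
    unfold qI lamz
    rw [if_neg, zero_div]
    intro h2
    exact h2 p (mem_pz.2 ⟨hpz, hp⟩) hd

open Classical in
lemma PS_sub_MS {r : ℕ} (σ : Fin r → Bool) (F : Fin r → ℕ → ℕ) (z : ℕ) (w : ℕ → ℝ) (h : Fin r → ℕ) (q a y : ℕ) :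
    PS σ F w h q a y - MS σ F z w h q a y = ps (fun m => (if m ≡ a [MOD q] then w m else 0) * dP σ F z h m) y := by
  unfold PS MS ps
  rw [sum_filter, sum_filter, ← sum_sub_distrib]
  apply sum_congr rfl
  intro m _
  unfold dP
  beta_reduce
  rw [prod_pI, prod_qI]
  by_cases h1 : m ≡ a [MOD q]
  · simp only [h1, true_and, if_true]
    split_ifs <;> ring
  · simp only [h1, false_and, if_false]
    ring

open Classical in
theorem core (r : ℕ) (f : Fin r → ℤ[X]) (hd : ∀ i, 1 ≤ (f i).natDegree) (hl : ∀ i, 0 < (f i).leadingCoeff)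
    (F : Fin r → ℕ → ℕ) (hF : ∀ i, ∀ m : ℕ, (f i).eval (m : ℤ) = F i m) (hmono : ∀ i, Monotone (F i)) (σ : Fin r → Bool)
    (B A D K : ℕ) :
    ∃ B0 : ℕ, ∀ E : ℕ, ∃ x0 : ℕ, ∀ x : ℕ, x0 ≤ x → ∀ z : ℕ, Real.log x ^ B0 ≤ z → (z : ℝ) ≤ Real.log x ^ E →
    ∀ w : ℕ → ℝ, (∀ m, |w m| ≤ 1) →
    (((Fintype.piFinset (fun i => Icc 1 (B * x ^ (f i).natDegree))).filter (fun h =>
      ∃ y ≤ x, ∃ q a : ℕ, 1 ≤ q ∧ (q : ℝ) ≤ Real.log x ^ K ∧
        (x : ℝ) / Real.log x ^ D < |PS σ F w h q a y - MS σ F z w h q a y|)).card : ℝ) ≤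
      (∏ i, (x : ℝ) ^ (f i).natDegree) / Real.log x ^ A := by
  obtain ⟨B0, h0⟩ := exc r f hd hl F hF hmono (B + 1) (by omega) (A + 2 * K) D
  refine ⟨B0, fun E => ?_⟩
  obtain ⟨x1, hx1⟩ := h0 E
  obtain ⟨x3, hx3⟩ := ev_L' 1
  refine ⟨max x1 x3, fun x hx z hz1 hz2 w hw => ?_⟩
  have b1 : x1 ≤ x := (le_max_left _ _).trans hx
  have b3 : x3 ≤ x := (le_max_right _ _).trans hx
  have hL1 := hx3 x b3
  have hgen := hx1 x b1 z hz1 hz2 σ
  obtain ⟨L, hLd⟩ : ∃ L, L = Real.log x := ⟨_, rfl⟩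
  rw [← hLd] at hL1 hgen ⊢
  have hL0 : 0 < L := by linarith
  obtain ⟨P, hP⟩ : ∃ P : ℝ, P = ∏ i, (x : ℝ) ^ (f i).natDegree := ⟨_, rfl⟩
  rw [← hP] at hgen ⊢
  obtain ⟨Q, hQ⟩ : ∃ Q, Q = ⌊L ^ K⌋₊ := ⟨_, rfl⟩
  have hQ1 : (Q : ℝ) ≤ L ^ K := by rw [hQ]; exact Nat.floor_le (by positivity)
  set Bd : ℕ × ℕ → Finset (Fin r → ℕ) := fun p =>
    (Fintype.piFinset (fun i => Icc 1 ((B + 1) * x ^ (f i).natDegree))).filter (fun h =>
      ∃ y ≤ x, (x : ℝ) / L ^ D < |ps (fun m => (if m ≡ p.2 [MOD p.1] then w m else 0) * dP σ F z h m) y|) with hBd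
  have hsub : ((Fintype.piFinset (fun i => Icc 1 (B * x ^ (f i).natDegree))).filter (fun h =>
      ∃ y ≤ x, ∃ q a : ℕ, 1 ≤ q ∧ (q : ℝ) ≤ L ^ K ∧
        (x : ℝ) / L ^ D < |PS σ F w h q a y - MS σ F z w h q a y|)) ⊆ ((Icc 1 Q) ×ˢ (range Q)).biUnion Bd := by
    intro h hh
    rw [mem_filter, Fintype.mem_piFinset] at hh
    obtain ⟨hh1, y, hy, q, a, hq1, hq2, hlt⟩ := hh
    rw [PS_sub_MS] at hlt
    have hqQ : q ≤ Q := by rw [hQ]; exact Nat.le_floor hq2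
    rw [mem_biUnion]
    refine ⟨(q, a % q), ?_, ?_⟩
    · rw [mem_product, mem_Icc, mem_range]
      exact ⟨⟨hq1, hqQ⟩, (Nat.mod_lt a hq1).trans_le hqQ⟩
    · rw [hBd]
      simp only
      rw [mem_filter, Fintype.mem_piFinset]
      refine ⟨fun i => ?_, y, hy, ?_⟩
      · have := hh1 i
        rw [mem_Icc] at this ⊢
        refine ⟨this.1, this.2.trans (Nat.mul_le_mul_right _ (by omega))⟩
      · have e : (fun m => (if m ≡ a % q [MOD q] then w m else 0) * dP σ F z h m) =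
            (fun m => (if m ≡ a [MOD q] then w m else 0) * dP σ F z h m) := by
          funext m
          have : m ≡ a % q [MOD q] ↔ m ≡ a [MOD q] :=
            ⟨fun h => h.trans (Nat.mod_modEq a q), fun h => h.trans (Nat.mod_modEq a q).symm⟩
          by_cases h1 : m ≡ a [MOD q]
          · rw [if_pos h1, if_pos (this.2 h1)]
          · rw [if_neg h1, if_neg (fun h2 => h1 (this.1 h2))]
        rw [e]
        exact hlt
  have hc1 : (((Fintype.piFinset (fun i => Icc 1 (B * x ^ (f i).natDegree))).filter (fun h =>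
      ∃ y ≤ x, ∃ q a : ℕ, 1 ≤ q ∧ (q : ℝ) ≤ L ^ K ∧
        (x : ℝ) / L ^ D < |PS σ F w h q a y - MS σ F z w h q a y|)).card : ℝ) ≤
      ∑ p ∈ (Icc 1 Q) ×ˢ (range Q), ((Bd p).card : ℝ) := by
    have h1 := (card_le_card hsub).trans card_biUnion_le
    exact_mod_cast h1
  refine hc1.trans ?_
  calc ∑ p ∈ (Icc 1 Q) ×ˢ (range Q), ((Bd p).card : ℝ) ≤ ∑ _p ∈ (Icc 1 Q) ×ˢ (range Q), P / L ^ (A + 2 * K) := by
        apply sum_le_sum
        intro p _
        apply hgen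
        intro m
        split_ifs
        · exact hw m
        · simp
    _ = (Q * Q : ℝ) * (P / L ^ (A + 2 * K)) := by
        rw [sum_const, card_product, Nat.card_Icc, card_range, Nat.add_sub_cancel, nsmul_eq_mul]
        push_cast
        ring
    _ ≤ (L ^ K * L ^ K) * (P / L ^ (A + 2 * K)) := by
        apply mul_le_mul_of_nonneg_right _ (by rw [hP]; positivity)
        exact mul_le_mul hQ1 hQ1 (by positivity) (by positivity)
    _ = P / L ^ A := by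
        rw [pow_add, two_mul, pow_add]
        field_simp

end Pool.Agent.U918.LP
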