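import Pool.Agent.U918.LP.Two

/-! Systems of quadratic values whose shifts run through two-parameter families. -/

set_option autoImplicit false

namespace Pool.Agent.U918.LP
open Finset

/-- number of pairs up to `X` with `φ t + k = h` -/
def rho (φ : ℕ × ℕ → ℕ) (k X h : ℕ) : ℕ := ((Icc 1 X ×ˢ Icc 1 X).filter (fun t => φ t + k = h)).card

/-- number of collisions of `φ` -/
def En (φ : ℕ × ℕ → ℕ) (X : ℕ) : ℕ :=
  (((Icc 1 X ×ˢ Icc 1 X) ×ˢ (Icc 1 X ×ˢ Icc 1 X)).filter (fun p => φ p.1 = φ p.2)).card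

lemma rho_sq (φ : ℕ × ℕ → ℕ) (k X : ℕ) (M : Finset ℕ) : ∑ h ∈ M, (rho φ k X h : ℝ) ^ 2 ≤ En φ X := by
  have h1 : ∀ h ∈ M, (rho φ k X h : ℝ) ^ 2 =
      ∑ p ∈ ((Icc 1 X ×ˢ Icc 1 X) ×ˢ (Icc 1 X ×ˢ Icc 1 X)).filter (fun p => φ p.1 = φ p.2),
        (if φ p.1 + k = h then (1 : ℝ) else 0) := by
    intro h _
    rw [← sum_filter, filter_filter, sum_const, nsmul_eq_mul, mul_one]
    have : (((Icc 1 X ×ˢ Icc 1 X) ×ˢ (Icc 1 X ×ˢ Icc 1 X)).filter (fun p => φ p.1 = φ p.2 ∧ φ p.1 + k = h)) =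
        ((Icc 1 X ×ˢ Icc 1 X).filter (fun t => φ t + k = h)) ×ˢ
          ((Icc 1 X ×ˢ Icc 1 X).filter (fun t => φ t + k = h)) := by
      ext p
      constructor
      · intro hp
        have h3 := mem_filter.1 hp
        have h4 := mem_product.1 h3.1
        have h7 := h3.2.1
        have h8 := h3.2.2
        exact mem_product.2 ⟨mem_filter.2 ⟨h4.1, h3.2.2⟩, mem_filter.2 ⟨h4.2, by omega⟩⟩
      · intro hp
        have h4 := mem_product.1 hp
        have h5 := mem_filter.1 h4.1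
        have h6 := mem_filter.1 h4.2
        have h7 := h5.2
        have h8 := h6.2
        exact mem_filter.2 ⟨mem_product.2 ⟨h5.1, h6.1⟩, by omega, h5.2⟩
    rw [this, card_product]
    unfold rho
    push_cast
    ring
  rw [sum_congr rfl h1, sum_comm]
  unfold En
  have h2 : ∀ p ∈ ((Icc 1 X ×ˢ Icc 1 X) ×ˢ (Icc 1 X ×ˢ Icc 1 X)).filter (fun p => φ p.1 = φ p.2),
      ∑ h ∈ M, (if φ p.1 + k = h then (1 : ℝ) else 0) ≤ 1 := by
    intro p _
    rw [sum_ite_eq]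
    split_ifs <;> norm_num
  refine (sum_le_sum h2).trans (le_of_eq ?_)
  rw [sum_const, nsmul_eq_mul, mul_one]

open Classical in
lemma vec_bad {r : ℕ} (φ : ℕ × ℕ → ℕ) (k : Fin r → ℕ) (X H : ℕ) (Q : Finset (Fin r → ℕ × ℕ))
    (hQ : Q ⊆ Fintype.piFinset (fun _ : Fin r => Icc 1 X ×ˢ Icc 1 X)) (M : Finset (Fin r → ℕ))
    (hM : ∀ t ∈ Q, (fun i => φ (t i) + k i) ∈ M) (hMH : M ⊆ Fintype.piFinset (fun _ : Fin r => Icc 1 H)) :
    (Q.card : ℝ) ^ 2 ≤ M.card * (En φ X : ℝ) ^ r := by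
  have h1 : (Q.card : ℝ) ≤ ∑ h ∈ M, ∏ i, (rho φ (k i) X (h i) : ℝ) := by
    rw [card_eq_sum_card_fiberwise (f := fun (t : Fin r → ℕ × ℕ) (i : Fin r) => φ (t i) + k i) (t := M)
      (fun t ht => hM t ht)]
    push_cast
    apply sum_le_sum
    intro h _
    have : Q.filter (fun t => (fun i => φ (t i) + k i) = h) ⊆
        Fintype.piFinset (fun i : Fin r => (Icc 1 X ×ˢ Icc 1 X).filter (fun t => φ t + k i = h i)) := by
      intro t ht
      rw [mem_filter] at ht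
      rw [Fintype.mem_piFinset]
      intro i
      rw [mem_filter]
      exact ⟨Fintype.mem_piFinset.1 (hQ ht.1) i, congrFun ht.2 i⟩
    have h2 := card_le_card this
    rw [Fintype.card_piFinset] at h2
    unfold rho
    exact_mod_cast h2
  have h3 : (∑ h ∈ M, ∏ i, (rho φ (k i) X (h i) : ℝ)) ^ 2 ≤
      M.card * ∑ h ∈ M, (∏ i, (rho φ (k i) X (h i) : ℝ)) ^ 2 := sq_sum_le_card_mul_sum_sq
  have h4 : ∑ h ∈ M, (∏ i, (rho φ (k i) X (h i) : ℝ)) ^ 2 ≤ (En φ X : ℝ) ^ r := by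
    calc ∑ h ∈ M, (∏ i, (rho φ (k i) X (h i) : ℝ)) ^ 2
        ≤ ∑ h ∈ Fintype.piFinset (fun _ : Fin r => Icc 1 H), (∏ i, (rho φ (k i) X (h i) : ℝ)) ^ 2 :=
          sum_le_sum_of_subset_of_nonneg hMH (fun _ _ _ => by positivity)
      _ = ∑ h ∈ Fintype.piFinset (fun _ : Fin r => Icc 1 H), ∏ i, (rho φ (k i) X (h i) : ℝ) ^ 2 := by
          apply sum_congr rfl
          intro h _
          rw [prod_pow]
      _ = ∏ i, ∑ h ∈ Icc 1 H, (rho φ (k i) X h : ℝ) ^ 2 := by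
          rw [prod_univ_sum]
      _ ≤ ∏ _i : Fin r, (En φ X : ℝ) :=
          prod_le_prod (fun i _ => sum_nonneg fun _ _ => by positivity) (fun i _ => rho_sq φ (k i) X _)
      _ = (En φ X : ℝ) ^ r := by rw [prod_const, card_univ, Fintype.card_fin]
  calc (Q.card : ℝ) ^ 2 ≤ (∑ h ∈ M, ∏ i, (rho φ (k i) X (h i) : ℝ)) ^ 2 :=
        pow_le_pow_left₀ (Nat.cast_nonneg _) h1 2
    _ ≤ _ := h3
    _ ≤ _ := mul_le_mul_of_nonneg_left h4 (Nat.cast_nonneg _)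

open Classical in
/-- systems of quadratic values, arbitrary weights on the argument, shifts `φ t + k` -/
theorem fam (r : ℕ) (f : Polynomial ℤ) (hd : f.natDegree = 2) (hl : 0 < f.leadingCoeff) (F : ℕ → ℕ)
    (hF : ∀ m : ℕ, f.eval (m : ℤ) = F m) (hmono : Monotone F) (φ : ℕ × ℕ → ℕ)
    (hφ1 : ∀ t : ℕ × ℕ, 1 ≤ t.1 → 1 ≤ t.2 → 1 ≤ φ t)
    (hφ2 : ∀ (x : ℕ) (t : ℕ × ℕ), t.1 ≤ x → t.2 ≤ x → φ t ≤ 2 * x ^ 2)
    (hφE : ∀ x : ℕ, 1 ≤ x → (En φ x : ℝ) ≤ 5 * (x : ℝ) ^ 2 * (1 + Real.log (2 * x)) ^ 4) (B U D K : ℕ) :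
    ∃ B0 : ℕ, ∀ E : ℕ, ∃ x0 : ℕ, ∀ x : ℕ, x0 ≤ x → ∀ z : ℕ, Real.log x ^ B0 ≤ z → (z : ℝ) ≤ Real.log x ^ E →
    ∀ w : ℕ → ℝ, (∀ m, |w m| ≤ 1) → ∀ k : Fin r → ℕ, (∀ i, k i ≤ B * x ^ 2) →
    (((Fintype.piFinset (fun _ : Fin r => Icc 1 x ×ˢ Icc 1 x)).filter (fun t =>
      ∃ y ≤ x, ∃ q a : ℕ, 1 ≤ q ∧ (q : ℝ) ≤ Real.log x ^ K ∧
        (x : ℝ) / Real.log x ^ D < |PS (fun _ : Fin r => true) (fun _ => F) w (fun i => φ (t i) + k i) q a y -
          MS (fun _ : Fin r => true) (fun _ => F) z w (fun i => φ (t i) + k i) q a y|)).card : ℝ) ≤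
      (x : ℝ) ^ (2 * r) / Real.log x ^ U := by
  obtain ⟨B0, h0⟩ := core r (fun _ => f) (fun _ => by rw [hd]; norm_num) (fun _ => hl) (fun _ => F) (fun _ => hF)
    (fun _ => hmono) (fun _ => true) (B + 2) (2 * U + 5 * r) D K
  refine ⟨B0, fun E => ?_⟩
  obtain ⟨x1, hx1⟩ := h0 E
  obtain ⟨x2, hx2⟩ := Pool.Agent.H373R2.T7.ev_L' 80
  refine ⟨max (max x1 x2) 1, fun x hx z hz1 hz2 w hw k hk => ?_⟩
  have b1 : x1 ≤ x := ((le_max_left _ _).trans (le_max_left _ _)).trans hx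
  have b2 : x2 ≤ x := ((le_max_right _ _).trans (le_max_left _ _)).trans hx
  have b3 : 1 ≤ x := (le_max_right _ _).trans hx
  have hL := hx2 x b2
  have key := hx1 x b1 z hz1 hz2 w hw
  simp only [hd] at key
  rw [prod_const, card_univ, Fintype.card_fin] at key
  set bad : (Fin r → ℕ) → Prop := fun h => ∃ y ≤ x, ∃ q a : ℕ, 1 ≤ q ∧ (q : ℝ) ≤ Real.log x ^ K ∧
        (x : ℝ) / Real.log x ^ D < |PS (fun _ : Fin r => true) (fun _ => F) w h q a y -
          MS (fun _ : Fin r => true) (fun _ => F) z w h q a y| with hbad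
  set M := (Fintype.piFinset (fun _ : Fin r => Icc 1 ((B + 2) * x ^ 2))).filter bad with hM
  set Q := (Fintype.piFinset (fun _ : Fin r => Icc 1 x ×ˢ Icc 1 x)).filter
    (fun t : Fin r → ℕ × ℕ => bad (fun i => φ (t i) + k i)) with hQ
  have h1 := vec_bad φ k x ((B + 2) * x ^ 2) Q (filter_subset _ _) M (by
    intro t ht
    rw [hQ, mem_filter, Fintype.mem_piFinset] at ht
    rw [hM, mem_filter, Fintype.mem_piFinset]
    refine ⟨fun i => ?_, ht.2⟩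
    have h2 := ht.1 i
    rw [mem_product, mem_Icc, mem_Icc] at h2
    rw [mem_Icc]
    constructor
    · have := hφ1 (t i) h2.1.1 h2.2.1
      omega
    · have h3 := hφ2 x (t i) h2.1.2 h2.2.2
      have h4 := hk i
      calc φ (t i) + k i ≤ 2 * x ^ 2 + B * x ^ 2 := by omega
        _ = (B + 2) * x ^ 2 := by ring) (filter_subset _ _)
  have hL0 : 0 < Real.log x := by linarith
  have hx0 : (1 : ℝ) ≤ x := by exact_mod_cast b3
  have hl2 : 1 + Real.log (2 * x) ≤ 2 * Real.log x := by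
    rw [Real.log_mul (by norm_num) (by linarith)]
    have := Real.log_two_lt_d9
    linarith
  have hl20 : 0 ≤ 1 + Real.log (2 * x) := by
    have := Real.log_nonneg (by linarith : (1 : ℝ) ≤ 2 * x)
    linarith
  have h3 : (En φ x : ℝ) ≤ (x : ℝ) ^ 2 * Real.log x ^ 5 := by
    have h4 : (1 + Real.log (2 * x)) ^ 4 ≤ (2 * Real.log x) ^ 4 := pow_le_pow_left₀ hl20 hl2 4
    calc (En φ x : ℝ) ≤ 5 * (x : ℝ) ^ 2 * (1 + Real.log (2 * x)) ^ 4 := hφE x b3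
      _ ≤ 5 * (x : ℝ) ^ 2 * (2 * Real.log x) ^ 4 := mul_le_mul_of_nonneg_left h4 (by positivity)
      _ = (x : ℝ) ^ 2 * Real.log x ^ 4 * 80 := by ring
      _ ≤ (x : ℝ) ^ 2 * Real.log x ^ 4 * Real.log x := mul_le_mul_of_nonneg_left hL (by positivity)
      _ = _ := by ring
  have h6 : (En φ x : ℝ) ^ r ≤ ((x : ℝ) ^ 2 * Real.log x ^ 5) ^ r := pow_le_pow_left₀ (Nat.cast_nonneg _) h3 r
  have h5 : (Q.card : ℝ) ^ 2 ≤ ((x : ℝ) ^ (2 * r) / Real.log x ^ U) ^ 2 := by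
    refine h1.trans ?_
    calc (M.card : ℝ) * (En φ x : ℝ) ^ r
        ≤ ((x : ℝ) ^ 2) ^ r / Real.log x ^ (2 * U + 5 * r) * ((x : ℝ) ^ 2 * Real.log x ^ 5) ^ r :=
          mul_le_mul key h6 (by positivity) (by positivity)
      _ = _ := by
          rw [pow_add, div_pow, mul_pow, mul_comm 2 U, pow_mul, ← pow_mul (Real.log x) 5 r, ← pow_mul (x : ℝ) 2 r]
          field_simp
  exact (pow_le_pow_iff_left₀ (Nat.cast_nonneg _) (by positivity) two_ne_zero).1 h5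

/-- sums of two squares -/
def sqs (t : ℕ × ℕ) : ℕ := t.1 ^ 2 + t.2 ^ 2

/-- products -/
def mus (t : ℕ × ℕ) : ℕ := t.1 * t.2

lemma En_sqs (X : ℕ) (hX : 1 ≤ X) : (En sqs X : ℝ) ≤ 5 * (X : ℝ) ^ 2 * (1 + Real.log (2 * X)) ^ 4 := by
  refine le_trans (le_of_eq ?_) (energy X hX)
  unfold En sqs
  rw [card_filter]
  push_cast
  rw [sum_product, sum_product]
  calc ∑ b ∈ Icc 1 X, ∑ c ∈ Icc 1 X, ∑ s ∈ Icc 1 X ×ˢ Icc 1 X,
        (if b ^ 2 + c ^ 2 = s.1 ^ 2 + s.2 ^ 2 then (1 : ℝ) else 0)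
      = ∑ b ∈ Icc 1 X, ∑ c ∈ Icc 1 X, ∑ b' ∈ Icc 1 X, ∑ c' ∈ Icc 1 X,
            (if b ^ 2 + c ^ 2 = b' ^ 2 + c' ^ 2 then (1 : ℝ) else 0) := by
          apply sum_congr rfl
          intro b _
          apply sum_congr rfl
          intro c _
          rw [sum_product]
    _ = ∑ b ∈ Icc 1 X, ∑ b' ∈ Icc 1 X, (cnt X b b' : ℝ) := by
          apply sum_congr rfl
          intro b _
          rw [sum_comm]
          apply sum_congr rfl
          intro b' _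
          unfold cnt
          rw [card_filter]
          push_cast
          rw [sum_product]

lemma En_mus (X : ℕ) (hX : 1 ≤ X) : (En mus X : ℝ) ≤ 5 * (X : ℝ) ^ 2 * (1 + Real.log (2 * X)) ^ 4 := by
  have h1 : (En mus X : ℝ) ≤ ∑ b ∈ Icc 1 X, ∑ c ∈ Icc 1 X, ((b * c).divisors.card : ℝ) := by
    unfold En
    rw [card_filter]
    push_cast
    rw [sum_product, sum_product]
    apply sum_le_sum
    intro b hb
    apply sum_le_sum
    intro c hc
    rw [mem_Icc] at hb hc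
    rw [← sum_filter, sum_const, nsmul_eq_mul, mul_one]
    have : ((Icc 1 X ×ˢ Icc 1 X).filter (fun s => mus (b, c) = mus s)).card ≤ (b * c).divisors.card := by
      apply card_le_card_of_injOn (fun s => s.1)
      · intro s hs
        rw [mem_coe, mem_filter] at hs
        rw [mem_coe, Nat.mem_divisors]
        refine ⟨⟨s.2, hs.2⟩, ?_⟩
        have : 0 < b * c := Nat.mul_pos hb.1 hc.1
        omega
      · intro s hs t ht hst
        rw [mem_coe, mem_filter, mem_product, mem_Icc, mem_Icc] at hs ht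
        have h2 : s.1 * s.2 = t.1 * t.2 := by
          have h3 := hs.2
          have h4 := ht.2
          unfold mus at h3 h4
          exact h3.symm.trans h4
        have hst' : s.1 = t.1 := hst
        rw [← hst'] at h2
        exact Prod.ext hst' (Nat.eq_of_mul_eq_mul_left hs.1.1.1 h2)
    exact_mod_cast this
  have h2 : ∑ b ∈ Icc 1 X, ∑ c ∈ Icc 1 X, ((b * c).divisors.card : ℝ) ≤
      (∑ b ∈ Icc 1 X, (b.divisors.card : ℝ)) * ∑ c ∈ Icc 1 X, (c.divisors.card : ℝ) := by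
    rw [sum_mul_sum]
    apply sum_le_sum
    intro b _
    apply sum_le_sum
    intro c _
    exact_mod_cast Pool.Agent.H316R2.tau_mul_le b c
  have h3 := tau_sum X
  have hX1 : (1 : ℝ) ≤ X := by exact_mod_cast hX
  have hl : Real.log X ≤ Real.log (2 * X) := Real.log_le_log (by linarith) (by linarith)
  have hl0 : 0 ≤ Real.log X := Real.log_natCast_nonneg X
  have h4 : (1 + Real.log X) ^ 4 ≤ (1 + Real.log (2 * X)) ^ 4 := pow_le_pow_left₀ (by linarith) (by linarith) 4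
  calc (En mus X : ℝ) ≤ (∑ b ∈ Icc 1 X, (b.divisors.card : ℝ)) * ∑ c ∈ Icc 1 X, (c.divisors.card : ℝ) := h1.trans h2
    _ ≤ (X * (1 + Real.log X) ^ 2) * (X * (1 + Real.log X) ^ 2) :=
        mul_le_mul h3 h3 (sum_nonneg fun _ _ => Nat.cast_nonneg _) (by positivity)
    _ = (X : ℝ) ^ 2 * (1 + Real.log X) ^ 4 := by ring
    _ ≤ (X : ℝ) ^ 2 * (1 + Real.log (2 * X)) ^ 4 := mul_le_mul_of_nonneg_left h4 (by positivity)
    _ ≤ 5 * (X : ℝ) ^ 2 * (1 + Real.log (2 * X)) ^ 4 := by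
        have : 0 ≤ (X : ℝ) ^ 2 * (1 + Real.log (2 * X)) ^ 4 := by positivity
        linarith

end Pool.Agent.U918.LP
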