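import Pool.Agent.U918.LP.Seqs

/-! Arbitrary finite families of integers with few coincidences, arbitrary weights. -/

set_option autoImplicit false

namespace Pool.Agent.U918.LP
open Finset

open Classical in
/-- indicator of the class and of primality of all `v + 2 h i` -/
noncomputable def ph1 {r : ℕ} (h : Fin r → ℕ) (q a v : ℕ) : ℝ :=
  if v ≡ a [MOD q] ∧ ∀ i, (v + 2 * h i).Prime then 1 else 0

open Classical in
/-- the model of `ph1` -/
noncomputable def ph2 {r : ℕ} (z : ℕ) (h : Fin r → ℕ) (q a v : ℕ) : ℝ :=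
  if v ≡ a [MOD q] ∧ ∀ i, ∀ l : ℕ, l.Prime → l ≤ z → ¬ l ∣ v + 2 * h i then
    ∏ i, (Pool.Agent.H373R2.T7.Vz z * Real.log ((v + 2 * h i : ℕ) : ℝ))⁻¹ else 0

lemma ph_le {r : ℕ} (z : ℕ) (h : Fin r → ℕ) (hh : ∀ i, 1 ≤ h i) (q a v : ℕ) (hv : 1 ≤ v) (L : ℝ) (hL : 1 ≤ L)
    (hV : (Pool.Agent.H373R2.T7.Vz z)⁻¹ ≤ L) : |ph1 h q a v - ph2 z h q a v| ≤ 2 * L ^ r := by
  have hV0 := Pool.Agent.H373R2.T7.Vz_pos z
  have hp : 1 ≤ L ^ r := one_le_pow₀ hL
  have h1 : |ph1 h q a v| ≤ L ^ r := by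
    unfold ph1
    split_ifs
    · rw [abs_one]
      exact hp
    · rw [abs_zero]
      linarith
  have h2 : |ph2 z h q a v| ≤ L ^ r := by
    unfold ph2
    split_ifs
    · rw [abs_prod]
      calc ∏ i, |(Pool.Agent.H373R2.T7.Vz z * Real.log ((v + 2 * h i : ℕ) : ℝ))⁻¹| ≤ ∏ _i : Fin r, L := by
            apply prod_le_prod (fun i _ => abs_nonneg _)
            intro i _
            have b5 : 1 ≤ Real.log ((v + 2 * h i : ℕ) : ℝ) := by
              have b6 : 3 ≤ v + 2 * h i := by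
                have := hh i
                omega
              have b7 : (3 : ℝ) ≤ ((v + 2 * h i : ℕ) : ℝ) := by exact_mod_cast b6
              rw [Real.le_log_iff_exp_le (by linarith)]
              have := Real.exp_one_lt_d9
              linarith
            rw [mul_inv, abs_mul, abs_of_pos (inv_pos.2 hV0), abs_of_pos (inv_pos.2 (by linarith))]
            calc (Pool.Agent.H373R2.T7.Vz z)⁻¹ * (Real.log ((v + 2 * h i : ℕ) : ℝ))⁻¹
                ≤ (Pool.Agent.H373R2.T7.Vz z)⁻¹ * 1 :=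
                  mul_le_mul_of_nonneg_left (inv_le_one_of_one_le₀ b5) (inv_pos.2 hV0).le
              _ = (Pool.Agent.H373R2.T7.Vz z)⁻¹ := mul_one _
              _ ≤ L := hV
        _ = L ^ r := by rw [prod_const, card_univ, Fintype.card_fin]
    · rw [abs_zero]
      linarith
  calc |ph1 h q a v - ph2 z h q a v| ≤ |ph1 h q a v| + |ph2 z h q a v| := abs_sub _ _
    _ ≤ 2 * L ^ r := by linarith

open Classical in
theorem multi {ι : Type} (r B U D K C : ℕ) :
    ∃ B₀ : ℕ, ∀ E : ℕ, ∃ X₀ : ℕ, ∀ X : ℕ, X₀ ≤ X → ∀ z : ℕ, Real.log X ^ B₀ ≤ z → (z : ℝ) ≤ Real.log X ^ E →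
    ∀ (R : Finset ι) (v : ι → ℕ), (∀ i ∈ R, 1 ≤ v i ∧ v i ≤ X) →
    ((((R ×ˢ R).filter (fun p => v p.1 = v p.2)).card : ℝ) ≤ X * Real.log X ^ C) →
    ∀ W : ι → ℝ, (∀ i, |W i| ≤ 1) →
    (((Fintype.piFinset (fun _ : Fin r => Icc 1 (B * X))).filter (fun h =>
      ∃ q a : ℕ, 1 ≤ q ∧ (q : ℝ) ≤ Real.log X ^ K ∧
        (X : ℝ) / Real.log X ^ D < |∑ i ∈ R, W i * (ph1 h q a (v i) - ph2 z h q a (v i))|)).card : ℝ) ≤
      (X : ℝ) ^ r / Real.log X ^ U := by
  set C1 : ℕ := C + D + r + 2 with hC1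
  obtain ⟨B₀, h0⟩ := lin r (fun _ => True) (fun _ => 1) (fun _ => 2) (fun _ => 0)
    (fun _ => by norm_num) (fun _ => by norm_num) (fun _ => by norm_num) B U (D + C1 + 1) K
  refine ⟨B₀, fun E => ?_⟩
  obtain ⟨x0, hx0⟩ := h0 E
  obtain ⟨x1, hx1⟩ := Pool.Agent.H373R2.T7.Vz_inv_small E
  obtain ⟨x2, hx2⟩ := Pool.Agent.H373R2.T7.ev_L' 3
  refine ⟨max x0 (max x1 x2), fun X hX z hz1 hz2 R v hv hEn W hW => ?_⟩
  have a0 : x0 ≤ X := (le_max_left _ _).trans hX
  have a1 : x1 ≤ X := ((le_max_left _ _).trans (le_max_right _ _)).trans hX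
  have a2 : x2 ≤ X := ((le_max_right _ _).trans (le_max_right _ _)).trans hX
  have hL3 := hx2 X a2
  have hgen := hx0 X a0 z hz1 hz2
  have hVi := hx1 X a1 z
  obtain ⟨L, hLd⟩ : ∃ L, L = Real.log X := ⟨_, rfl⟩
  rw [← hLd] at hL3 hgen hVi hz1 hz2 hEn ⊢
  have hL0 : 0 < L := by linarith
  have hz0 : 0 < z := by
    have : (0 : ℝ) < z := lt_of_lt_of_le (by positivity) hz1
    exact_mod_cast this
  have hV := hVi hz0 hz2
  have hX0 : (0 : ℝ) ≤ X := Nat.cast_nonneg _
  -- multiplicities and the sums over the fibres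
  set m : ℕ → ℝ := fun n => ((R.filter (fun i => v i = n)).card : ℝ) with hm
  set A : ℕ → ℝ := fun n => ∑ i ∈ R.filter (fun i => v i = n), W i with hA
  have hAm : ∀ n, |A n| ≤ m n := by
    intro n
    refine le_trans (abs_sum_le_sum_abs _ _) ?_
    refine le_trans (sum_le_sum fun i _ => hW i) ?_
    rw [sum_const, nsmul_eq_mul, mul_one]
  have hm0 : ∀ n, 0 ≤ m n := fun n => Nat.cast_nonneg _
  have hsq : ∑ n ∈ Icc 1 X, m n ^ 2 ≤ X * L ^ C := by
    refine le_trans (le_of_eq ?_) hEn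
    rw [card_filter]
    push_cast
    rw [sum_product]
    have e1 : ∀ n ∈ Icc 1 X, m n ^ 2 = ∑ i ∈ R, if v i = n then m (v i) else 0 := by
      intro n _
      rw [← sum_filter]
      have : ∀ i ∈ R.filter (fun i => v i = n), m (v i) = m n := by
        intro i hi
        rw [(mem_filter.1 hi).2]
      rw [sum_congr rfl this, sum_const, nsmul_eq_mul, sq]
    rw [sum_congr rfl e1, sum_comm]
    apply sum_congr rfl
    intro i hi
    rw [sum_ite_eq, if_pos (mem_Icc.2 (hv i hi)), hm]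
    beta_reduce
    rw [card_filter]
    push_cast
    apply sum_congr rfl
    intro j _
    by_cases h : v i = v j
    · rw [if_pos h, if_pos h.symm]
    · rw [if_neg h, if_neg (fun h' => h h'.symm)]
  set W' : ℕ → ℝ := fun n => if m n ≤ L ^ C1 then A n / L ^ C1 else 0 with hW'
  have hW'1 : ∀ n, |W' n| ≤ 1 := by
    intro n
    rw [hW']
    beta_reduce
    split_ifs with h
    · rw [abs_div, abs_of_pos (show (0 : ℝ) < L ^ C1 by positivity), div_le_one (by positivity)]
      exact (hAm n).trans h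
    · rw [abs_zero]
      exact zero_le_one
  have key := hgen W' hW'1
  refine le_trans ?_ key
  rw [Nat.cast_le]
  apply card_le_card
  intro h hh
  rw [mem_filter] at hh ⊢
  obtain ⟨hh1, q, a, hq1, hq2, hlt⟩ := hh
  refine ⟨hh1, X, le_refl X, q, a, hq1, hq2, ?_⟩
  have hhi : ∀ i, 1 ≤ h i := fun i => (mem_Icc.1 (Fintype.mem_piFinset.1 hh1 i)).1
  have ev : ∀ n g : ℕ, lv 1 2 0 n g = n + 2 * g := by
    intro n g
    unfold lv
    push_cast
    omega
  have eP : PL (fun _ => True) (fun _ => 1) (fun _ => 2) (fun _ => 0) W' h q a X =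
      ∑ n ∈ Icc 1 X, W' n * ph1 h q a n := by
    unfold PL ph1
    simp only [ev, true_and]
    rw [sum_filter]
    apply sum_congr rfl
    intro n _
    split_ifs <;> simp
  have eM : ML (fun _ => True) (fun _ => 1) (fun _ => 2) (fun _ => 0) z W' h q a X =
      ∑ n ∈ Icc 1 X, W' n * ph2 z h q a n := by
    unfold ML ph2
    simp only [ev, true_and]
    rw [sum_filter]
    apply sum_congr rfl
    intro n _
    split_ifs <;> simp
  rw [eP, eM, ← sum_sub_distrib]
  set G : ℕ → ℝ := fun n => ph1 h q a n - ph2 z h q a n with hG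
  have hGle : ∀ n, 1 ≤ n → |G n| ≤ 2 * L ^ r := fun n hn => ph_le z h hhi q a n hn L (by linarith) hV
  have eR : ∑ i ∈ R, W i * (ph1 h q a (v i) - ph2 z h q a (v i)) = ∑ n ∈ Icc 1 X, A n * G n := by
    have e1 : ∀ n ∈ Icc 1 X, A n * G n = ∑ i ∈ R, if v i = n then W i * G (v i) else 0 := by
      intro n _
      rw [← sum_filter, hA]
      beta_reduce
      rw [sum_mul]
      apply sum_congr rfl
      intro i hi
      rw [(mem_filter.1 hi).2]
    rw [sum_congr rfl e1, sum_comm]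
    apply sum_congr rfl
    intro i hi
    rw [sum_ite_eq, if_pos (mem_Icc.2 (hv i hi))]
  rw [eR] at hlt
  have eS : ∑ n ∈ Icc 1 X, (W' n * ph1 h q a n - W' n * ph2 z h q a n) = ∑ n ∈ Icc 1 X, W' n * G n := by
    apply sum_congr rfl
    intro n _
    rw [hG]
    ring
  rw [eS]
  have hdec : ∑ n ∈ Icc 1 X, A n * G n = L ^ C1 * ∑ n ∈ Icc 1 X, W' n * G n +
      ∑ n ∈ (Icc 1 X).filter (fun n => ¬ m n ≤ L ^ C1), A n * G n := by
    rw [mul_sum, sum_filter, ← sum_add_distrib]
    apply sum_congr rfl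
    intro n _
    rw [hW']
    beta_reduce
    have hLC : L ^ C1 ≠ 0 := by positivity
    by_cases hc : m n ≤ L ^ C1
    · rw [if_pos hc, if_neg (not_not.2 hc)]
      field_simp
      ring
    · rw [if_neg hc, if_pos hc]
      ring
  have hbig : |∑ n ∈ (Icc 1 X).filter (fun n => ¬ m n ≤ L ^ C1), A n * G n| ≤ 2 * X / L ^ (D + 2) := by
    calc |∑ n ∈ (Icc 1 X).filter (fun n => ¬ m n ≤ L ^ C1), A n * G n|
        ≤ ∑ n ∈ (Icc 1 X).filter (fun n => ¬ m n ≤ L ^ C1), |A n * G n| := abs_sum_le_sum_abs _ _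
      _ ≤ ∑ n ∈ (Icc 1 X).filter (fun n => ¬ m n ≤ L ^ C1), m n ^ 2 / L ^ C1 * (2 * L ^ r) := by
          apply sum_le_sum
          intro n hn
          rw [mem_filter, mem_Icc] at hn
          rw [abs_mul]
          apply mul_le_mul _ (hGle n hn.1.1) (abs_nonneg _) (by positivity)
          refine (hAm n).trans ?_
          rw [le_div_iff₀ (by positivity), sq]
          exact mul_le_mul_of_nonneg_left (not_le.1 hn.2).le (hm0 n)
      _ ≤ ∑ n ∈ Icc 1 X, m n ^ 2 / L ^ C1 * (2 * L ^ r) :=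
          sum_le_sum_of_subset_of_nonneg (filter_subset _ _) (fun n _ _ => by positivity)
      _ = (∑ n ∈ Icc 1 X, m n ^ 2) * (2 * L ^ r / L ^ C1) := by
          rw [sum_mul]
          apply sum_congr rfl
          intro n _
          ring
      _ ≤ (X * L ^ C) * (2 * L ^ r / L ^ C1) := mul_le_mul_of_nonneg_right hsq (by positivity)
      _ = 2 * X / L ^ (D + 2) := by
          have : L ^ C1 = L ^ C * L ^ r * L ^ (D + 2) := by
            rw [hC1, ← pow_add, ← pow_add]
            congr 1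
            omega
          rw [this]
          have h1 : L ^ C ≠ 0 := by positivity
          have h2 : L ^ r ≠ 0 := by positivity
          have h3 : L ^ (D + 2) ≠ 0 := by positivity
          field_simp
  by_contra hcon
  push Not at hcon
  have h4 : |∑ n ∈ Icc 1 X, A n * G n| ≤ L ^ C1 * (X / L ^ (D + C1 + 1)) + 2 * X / L ^ (D + 2) := by
    rw [hdec]
    refine (abs_add_le _ _).trans (add_le_add ?_ hbig)
    rw [abs_mul, abs_of_pos (show (0 : ℝ) < L ^ C1 by positivity)]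
    exact mul_le_mul_of_nonneg_left hcon (by positivity)
  have h5 : L ^ C1 * (X / L ^ (D + C1 + 1)) = X / L ^ (D + 1) := by
    have : L ^ (D + C1 + 1) = L ^ C1 * L ^ (D + 1) := by
      rw [← pow_add]
      congr 1
      omega
    rw [this]
    have h1 : L ^ C1 ≠ 0 := by positivity
    have h2 : L ^ (D + 1) ≠ 0 := by positivity
    field_simp
  have h6 : X / L ^ (D + 1) + 2 * X / L ^ (D + 2) ≤ (X : ℝ) / L ^ D := by
    have e1 : X / L ^ (D + 1) = (X : ℝ) / L ^ D * (1 / L) := by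
      rw [pow_succ]
      field_simp
    have e2 : 2 * X / L ^ (D + 2) = (X : ℝ) / L ^ D * (2 / (L * L)) := by
      rw [pow_add]
      field_simp
    rw [e1, e2, ← mul_add]
    have h7 : 1 / L ≤ 1 / 3 := one_div_le_one_div_of_le (by norm_num) hL3
    have h8 : 2 / (L * L) ≤ 2 / 9 := by
      apply div_le_div_of_nonneg_left (by norm_num) (by norm_num)
      nlinarith
    calc (X : ℝ) / L ^ D * (1 / L + 2 / (L * L)) ≤ X / L ^ D * 1 :=
          mul_le_mul_of_nonneg_left (by linarith) (by positivity)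
      _ = X / L ^ D := mul_one _
  linarith [h4, h5 ▸ h4]

end Pool.Agent.U918.LP
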