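import Pool.Agent.U918.LP.FourSq
import Pool.Agent.U918.LP.Mult

/-! Representations as sums of four squares: arbitrary weights on the representations of almost all `n`. -/

set_option autoImplicit false

namespace Pool.Agent.U918.LP
open Finset

/-- the representations of `n` by four positive squares -/
def reps (n : ℕ) : Finset (ℕ × ℕ × ℕ × ℕ) :=
  (Icc 1 n ×ˢ Icc 1 n ×ˢ Icc 1 n ×ˢ Icc 1 n).filter (fun Q => Q.1 ^ 2 + Q.2.1 ^ 2 + Q.2.2.1 ^ 2 + Q.2.2.2 ^ 2 = n)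

/-- the pairs of representations of `n` with the same value of `p4` -/
def En4 (n : ℕ) : Finset ((ℕ × ℕ × ℕ × ℕ) × (ℕ × ℕ × ℕ × ℕ)) :=
  (reps n ×ˢ reps n).filter (fun p => p4 p.1 = p4 p.2)

lemma reps_box (n X : ℕ) (hn : n ≤ X) (Q : ℕ × ℕ × ℕ × ℕ) (hQ : Q ∈ reps n) : Q ∈ box (Nat.sqrt X) ∧ s4 Q = n := by
  obtain ⟨x, y, z, w⟩ := Q
  rw [reps, mem_filter] at hQ
  simp only [mem_product, mem_Icc] at hQ
  obtain ⟨⟨a1, a2, a3, a4⟩, h⟩ := hQ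
  refine ⟨?_, h⟩
  simp only [box, mem_product, mem_Icc]
  refine ⟨⟨a1.1, ?_⟩, ⟨a2.1, ?_⟩, ⟨a3.1, ?_⟩, ⟨a4.1, ?_⟩⟩ <;>
  · rw [Nat.le_sqrt']
    omega

lemma sum_En4 (X : ℕ) : ∑ n ∈ Icc 1 X, ((En4 n).card : ℝ) ≤ ((T8 (Nat.sqrt X)).card : ℝ) := by
  have h1 : ∀ n ∈ Icc 1 X, ((En4 n).card : ℝ) ≤ ∑ p ∈ T8 (Nat.sqrt X), if s4 p.1 = n then (1 : ℝ) else 0 := by
    intro n hn
    rw [mem_Icc] at hn
    have hsub : En4 n ⊆ (T8 (Nat.sqrt X)).filter (fun p => s4 p.1 = n) := by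
      intro p hp
      rw [En4, mem_filter, mem_product] at hp
      have b1 := reps_box n X hn.2 p.1 hp.1.1
      have b2 := reps_box n X hn.2 p.2 hp.1.2
      rw [mem_filter, T8, mem_filter, mem_product]
      exact ⟨⟨⟨b1.1, b2.1⟩, by rw [b1.2, b2.2], hp.2⟩, b1.2⟩
    have h2 := card_le_card hsub
    rw [← sum_filter, sum_const, nsmul_eq_mul, mul_one]
    exact_mod_cast h2
  refine (sum_le_sum h1).trans ?_
  rw [sum_comm]
  have h3 : ∀ p ∈ T8 (Nat.sqrt X), ∑ n ∈ Icc 1 X, (if s4 p.1 = n then (1 : ℝ) else 0) ≤ 1 := by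
    intro p _
    rw [sum_ite_eq]
    split_ifs <;> norm_num
  refine (sum_le_sum h3).trans (le_of_eq ?_)
  rw [sum_const, nsmul_eq_mul, mul_one]

lemma T8_bound (X : ℕ) (hX : 1 ≤ X) (hL : 6400 ≤ Real.log X) :
    ((T8 (Nat.sqrt X)).card : ℝ) ≤ (X : ℝ) ^ 2 * Real.log X ^ 9 := by
  set s := Nat.sqrt X with hs
  have hs1 : 1 ≤ s := by
    rw [hs, Nat.le_sqrt']
    omega
  have hs2 : (s : ℝ) ^ 2 ≤ X := by
    have : s ^ 2 ≤ X := by
      rw [hs]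
      exact Nat.sqrt_le' X
    exact_mod_cast this
  have hsX : (s : ℝ) ≤ X := by
    have : s ≤ X := Nat.sqrt_le_self X
    exact_mod_cast this
  have hs1r : (1 : ℝ) ≤ s := by exact_mod_cast hs1
  have hX1 : (1 : ℝ) ≤ X := by exact_mod_cast hX
  have h1 := T8_le s
  have h2 := Ed_le s hs1
  have hl0 : 0 ≤ Real.log (2 * (s : ℝ)) := Real.log_nonneg (by linarith)
  have hl1 : 1 + Real.log (2 * (s : ℝ)) ≤ 2 * Real.log X := by
    have h3 : Real.log (2 * (s : ℝ)) ≤ Real.log (2 * (X : ℝ)) := Real.log_le_log (by linarith) (by linarith)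
    have h4 : Real.log (2 * (X : ℝ)) = Real.log 2 + Real.log X := Real.log_mul (by norm_num) (by linarith)
    have := Real.log_two_lt_d9
    linarith
  have hb : 5 * (s : ℝ) ^ 2 * (1 + Real.log (2 * s)) ^ 4 ≤ 5 * (X : ℝ) * (2 * Real.log X) ^ 4 := by
    apply mul_le_mul (by linarith) (pow_le_pow_left₀ (by linarith) hl1 4) (by positivity) (by positivity)
  calc ((T8 s).card : ℝ) ≤ ((Ed s).card : ℝ) ^ 2 := h1
    _ ≤ (5 * (X : ℝ) * (2 * Real.log X) ^ 4) ^ 2 := pow_le_pow_left₀ (Nat.cast_nonneg _) (h2.trans hb) 2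
    _ = (X : ℝ) ^ 2 * Real.log X ^ 8 * 6400 := by ring
    _ ≤ (X : ℝ) ^ 2 * Real.log X ^ 8 * Real.log X := mul_le_mul_of_nonneg_left hL (by positivity)
    _ = (X : ℝ) ^ 2 * Real.log X ^ 9 := by ring

lemma p4_le (n : ℕ) (Q : ℕ × ℕ × ℕ × ℕ) (hQ : Q ∈ reps n) : 1 ≤ p4 Q ∧ p4 Q ≤ 7 * n := by
  obtain ⟨x, y, z, w⟩ := Q
  rw [reps, mem_filter] at hQ
  simp only [mem_product, mem_Icc] at hQ
  obtain ⟨⟨a1, a2, a3, a4⟩, h⟩ := hQ
  have h1 : 1 ≤ x ^ 2 := Nat.one_le_pow _ _ (by omega)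
  simp only [p4]
  omega

open Classical in
theorem four (r B U D K : ℕ) :
    ∃ B₀ : ℕ, ∀ E : ℕ, ∃ X₀ : ℕ, ∀ X : ℕ, X₀ ≤ X → ∃ S : Finset ℕ, (S.card : ℝ) ≤ X / Real.log X ^ U ∧
    ∀ z : ℕ, Real.log X ^ B₀ ≤ z → (z : ℝ) ≤ Real.log X ^ E →
    ∀ n : ℕ, 7 * n ≤ X → n ∉ S → ∀ W : ℕ × ℕ × ℕ × ℕ → ℝ, (∀ Q, |W Q| ≤ 1) →
    (((Fintype.piFinset (fun _ : Fin r => Icc 1 (B * X))).filter (fun h =>
      ∃ q a : ℕ, 1 ≤ q ∧ (q : ℝ) ≤ Real.log X ^ K ∧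
        (X : ℝ) / Real.log X ^ D < |∑ Q ∈ reps n, W Q * (ph1 h q a (p4 Q) - ph2 z h q a (p4 Q))|)).card : ℝ) ≤
      (X : ℝ) ^ r / Real.log X ^ U := by
  obtain ⟨B₀, h0⟩ := multi (ι := ℕ × ℕ × ℕ × ℕ) r B U D K (U + 9)
  refine ⟨B₀, fun E => ?_⟩
  obtain ⟨x0, hx0⟩ := h0 E
  obtain ⟨x1, hx1⟩ := Pool.Agent.H373R2.T7.ev_L' 6400
  refine ⟨max x0 (max x1 1), fun X hX => ?_⟩
  have a0 : x0 ≤ X := (le_max_left _ _).trans hX
  have a1 : x1 ≤ X := ((le_max_left _ _).trans (le_max_right _ _)).trans hX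
  have a2 : 1 ≤ X := ((le_max_right _ _).trans (le_max_right _ _)).trans hX
  have hL := hx1 X a1
  have hL0 : 0 < Real.log X := by linarith
  have hX0 : (0 : ℝ) < X := by exact_mod_cast a2
  set S := (Icc 1 X).filter (fun n => (X : ℝ) * Real.log X ^ (U + 9) < ((En4 n).card : ℝ)) with hS
  refine ⟨S, ?_, fun z hz1 hz2 n hn hnS W hW => ?_⟩
  · have h1 : (S.card : ℝ) * ((X : ℝ) * Real.log X ^ (U + 9)) ≤ (X : ℝ) ^ 2 * Real.log X ^ 9 := by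
      calc (S.card : ℝ) * ((X : ℝ) * Real.log X ^ (U + 9)) = ∑ n ∈ S, (X : ℝ) * Real.log X ^ (U + 9) := by
            rw [sum_const, nsmul_eq_mul]
        _ ≤ ∑ n ∈ S, ((En4 n).card : ℝ) := sum_le_sum fun n hn => (mem_filter.1 hn).2.le
        _ ≤ ∑ n ∈ Icc 1 X, ((En4 n).card : ℝ) :=
            sum_le_sum_of_subset_of_nonneg (filter_subset _ _) (fun _ _ _ => Nat.cast_nonneg _)
        _ ≤ _ := (sum_En4 X).trans (T8_bound X a2 hL)
    rw [le_div_iff₀ (by positivity)]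
    have h2 : (X : ℝ) * Real.log X ^ 9 ≠ 0 := by positivity
    have h3 : ((S.card : ℝ) * Real.log X ^ U) * ((X : ℝ) * Real.log X ^ 9) ≤ (X : ℝ) * ((X : ℝ) * Real.log X ^ 9) := by
      calc ((S.card : ℝ) * Real.log X ^ U) * ((X : ℝ) * Real.log X ^ 9)
          = (S.card : ℝ) * ((X : ℝ) * Real.log X ^ (U + 9)) := by ring
        _ ≤ (X : ℝ) ^ 2 * Real.log X ^ 9 := h1
        _ = _ := by ring
    exact le_of_mul_le_mul_right h3 (by positivity)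
  · have hE : (((reps n ×ˢ reps n).filter (fun p => p4 p.1 = p4 p.2)).card : ℝ) ≤ X * Real.log X ^ (U + 9) := by
      rcases Nat.eq_zero_or_pos n with h | h
      · subst h
        have : reps 0 = ∅ := by
          rw [reps, filter_eq_empty_iff]
          intro Q hQ
          simp at hQ
        rw [this]
        simp only [empty_product, filter_empty, card_empty, Nat.cast_zero]
        positivity
      · have h1 : n ∈ Icc 1 X := mem_Icc.2 ⟨h, by omega⟩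
        by_contra hcon
        push Not at hcon
        exact hnS (mem_filter.2 ⟨h1, hcon⟩)
    have hv : ∀ Q ∈ reps n, 1 ≤ p4 Q ∧ p4 Q ≤ X := fun Q hQ =>
      ⟨(p4_le n Q hQ).1, (p4_le n Q hQ).2.trans hn⟩
    convert hx0 X a0 z hz1 hz2 (reps n) p4 hv (by convert hE) W hW

end Pool.Agent.U918.LP
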