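import Pool.Agent.U918.LP.Two

/-! Coincidences of two diagonal quadratic forms in four variables. -/

set_option autoImplicit false

namespace Pool.Agent.U918.LP
open Finset

/-- Cauchy-Schwarz for coincidences -/
lemma coin {α β γ : Type} [DecidableEq γ] (S : Finset α) (T : Finset β) (f : α → γ) (g : β → γ) :
    ((((S ×ˢ T).filter (fun p => f p.1 = g p.2)).card : ℝ)) ^ 2 ≤
      (((S ×ˢ S).filter (fun p => f p.1 = f p.2)).card : ℝ) * (((T ×ˢ T).filter (fun p => g p.1 = g p.2)).card : ℝ) := by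
  set F : γ → ℝ := fun v => ((S.filter (fun s => f s = v)).card : ℝ) with hF
  set G : γ → ℝ := fun v => ((T.filter (fun t => g t = v)).card : ℝ) with hG
  have e1 : (((S ×ˢ T).filter (fun p => f p.1 = g p.2)).card : ℝ) = ∑ v ∈ S.image f, F v * G v := by
    rw [card_filter]
    push_cast
    rw [sum_product]
    have : ∀ s ∈ S, ∑ t ∈ T, (if f s = g t then (1 : ℝ) else 0) = G (f s) := by
      intro s _
      rw [hG]
      beta_reduce
      rw [card_filter]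
      push_cast
      apply sum_congr rfl
      intro t _
      by_cases h : f s = g t
      · rw [if_pos h, if_pos h.symm]
      · rw [if_neg h, if_neg (fun h' => h h'.symm)]
    rw [sum_congr rfl this, sum_comp G f]
    apply sum_congr rfl
    intro v _
    rw [nsmul_eq_mul]
  have e2 : (((S ×ˢ S).filter (fun p => f p.1 = f p.2)).card : ℝ) = ∑ v ∈ S.image f, F v ^ 2 := by
    rw [card_filter]
    push_cast
    rw [sum_product]
    have : ∀ s ∈ S, ∑ t ∈ S, (if f s = f t then (1 : ℝ) else 0) = F (f s) := by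
      intro s _
      rw [hF]
      beta_reduce
      rw [card_filter]
      push_cast
      apply sum_congr rfl
      intro t _
      by_cases h : f s = f t
      · rw [if_pos h, if_pos h.symm]
      · rw [if_neg h, if_neg (fun h' => h h'.symm)]
    rw [sum_congr rfl this, sum_comp F f]
    apply sum_congr rfl
    intro v _
    rw [nsmul_eq_mul, sq]
  have e3 : ∑ v ∈ S.image f, G v ^ 2 ≤ (((T ×ˢ T).filter (fun p => g p.1 = g p.2)).card : ℝ) := by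
    rw [card_filter]
    push_cast
    rw [sum_product]
    have h1 : ∀ v ∈ S.image f, G v ^ 2 = ∑ t ∈ T, if g t = v then G (g t) else 0 := by
      intro v _
      rw [← sum_filter]
      have : ∀ t ∈ T.filter (fun t => g t = v), G (g t) = G v := by
        intro t ht
        rw [(mem_filter.1 ht).2]
      rw [sum_congr rfl this, sum_const, nsmul_eq_mul, sq]
    rw [sum_congr rfl h1, sum_comm]
    apply sum_le_sum
    intro t _
    have h2 : ∑ t' ∈ T, (if g t = g t' then (1 : ℝ) else 0) = G (g t) := by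
      rw [hG]
      beta_reduce
      rw [card_filter]
      push_cast
      apply sum_congr rfl
      intro t' _
      by_cases h : g t = g t'
      · rw [if_pos h, if_pos h.symm]
      · rw [if_neg h, if_neg (fun h' => h h'.symm)]
    rw [h2, sum_ite_eq]
    split_ifs
    · exact le_refl _
    · exact Nat.cast_nonneg _
  rw [e1, e2]
  refine le_trans (sum_mul_sq_le_sq_mul_sq _ _ _) ?_
  exact mul_le_mul_of_nonneg_left e3 (sum_nonneg fun _ _ => by positivity)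

/-- difference of two squares -/
def dl (t : ℕ × ℕ) : ℤ := (t.1 : ℤ) ^ 2 - (t.2 : ℤ) ^ 2

/-- pairs of pairs with the same difference of squares -/
def Ed (X : ℕ) : Finset ((ℕ × ℕ) × (ℕ × ℕ)) :=
  ((Icc 1 X ×ˢ Icc 1 X) ×ˢ (Icc 1 X ×ˢ Icc 1 X)).filter (fun p => dl p.1 = dl p.2)

lemma Ed_le (X : ℕ) (hX : 1 ≤ X) : ((Ed X).card : ℝ) ≤ 5 * (X : ℝ) ^ 2 * (1 + Real.log (2 * X)) ^ 4 := by
  refine le_trans (le_of_eq ?_) (energy X hX)
  unfold Ed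
  rw [card_filter]
  push_cast
  rw [sum_product, sum_product]
  have h0 : ∀ z z' u u' : ℕ, (dl (z, z') = dl (u, u')) ↔ (z ^ 2 + u' ^ 2 = u ^ 2 + z' ^ 2) := by
    intro z z' u u'
    unfold dl
    constructor
    · intro h
      have h1 : (z : ℤ) ^ 2 + (u' : ℤ) ^ 2 = (u : ℤ) ^ 2 + (z' : ℤ) ^ 2 := by
        simp only at h
        linarith
      exact_mod_cast h1
    · intro h
      have h1 : (z : ℤ) ^ 2 + (u' : ℤ) ^ 2 = (u : ℤ) ^ 2 + (z' : ℤ) ^ 2 := by exact_mod_cast h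
      simp only
      linarith
  calc ∑ z ∈ Icc 1 X, ∑ z' ∈ Icc 1 X, ∑ s ∈ Icc 1 X ×ˢ Icc 1 X, (if dl (z, z') = dl s then (1 : ℝ) else 0)
      = ∑ z ∈ Icc 1 X, ∑ z' ∈ Icc 1 X, ∑ u ∈ Icc 1 X, ∑ u' ∈ Icc 1 X,
          (if z ^ 2 + u' ^ 2 = u ^ 2 + z' ^ 2 then (1 : ℝ) else 0) := by
        apply sum_congr rfl
        intro z _
        apply sum_congr rfl
        intro z' _
        rw [sum_product]
        apply sum_congr rfl
        intro u _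
        apply sum_congr rfl
        intro u' _
        simp only [h0]
    _ = ∑ z ∈ Icc 1 X, ∑ u ∈ Icc 1 X, ∑ u' ∈ Icc 1 X, ∑ z' ∈ Icc 1 X,
          (if z ^ 2 + u' ^ 2 = u ^ 2 + z' ^ 2 then (1 : ℝ) else 0) := by
        apply sum_congr rfl
        intro z _
        rw [sum_comm]
        apply sum_congr rfl
        intro u _
        rw [sum_comm]
    _ = ∑ b ∈ Icc 1 X, ∑ b' ∈ Icc 1 X, (cnt X b b' : ℝ) := by
        apply sum_congr rfl
        intro b _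
        apply sum_congr rfl
        intro b' _
        unfold cnt
        rw [card_filter]
        push_cast
        rw [sum_product]

/-- the quadruples up to `X` -/
def box (X : ℕ) : Finset (ℕ × ℕ × ℕ × ℕ) := Icc 1 X ×ˢ Icc 1 X ×ˢ Icc 1 X ×ˢ Icc 1 X

/-- `x² + y² + z² + w²` -/
def s4 (Q : ℕ × ℕ × ℕ × ℕ) : ℕ := Q.1 ^ 2 + Q.2.1 ^ 2 + Q.2.2.1 ^ 2 + Q.2.2.2 ^ 2

/-- `x² + 3 y² + 5 z² + 7 w²` -/
def p4 (Q : ℕ × ℕ × ℕ × ℕ) : ℕ := Q.1 ^ 2 + 3 * Q.2.1 ^ 2 + 5 * Q.2.2.1 ^ 2 + 7 * Q.2.2.2 ^ 2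

/-- the pairs of quadruples with the same values of both forms -/
def T8 (X : ℕ) : Finset ((ℕ × ℕ × ℕ × ℕ) × (ℕ × ℕ × ℕ × ℕ)) :=
  (box X ×ˢ box X).filter (fun p => s4 p.1 = s4 p.2 ∧ p4 p.1 = p4 p.2)

lemma T8_le (X : ℕ) : ((T8 X).card : ℝ) ≤ ((Ed X).card : ℝ) ^ 2 := by
  set P : Finset (ℕ × ℕ) := Icc 1 X ×ˢ Icc 1 X with hP
  set f : (ℕ × ℕ) × (ℕ × ℕ) → ℤ × ℤ := fun u => (-3 * dl u.1 - 2 * dl u.2, 2 * dl u.1 + dl u.2) with hf
  set g : (ℕ × ℕ) × (ℕ × ℕ) → ℤ × ℤ := fun u => (dl u.1, dl u.2) with hg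
  have h1 : (T8 X).card ≤ (((P ×ˢ P) ×ˢ (P ×ˢ P)).filter (fun p => f p.1 = g p.2)).card := by
    apply card_le_card_of_injOn (fun p : (ℕ × ℕ × ℕ × ℕ) × (ℕ × ℕ × ℕ × ℕ) =>
      (((p.1.1, p.2.1), (p.1.2.1, p.2.2.1)), ((p.1.2.2.1, p.2.2.2.1), (p.1.2.2.2, p.2.2.2.2))))
    · rintro ⟨⟨x, y, z, w⟩, ⟨x', y', z', w'⟩⟩ hp
      rw [mem_coe, T8, mem_filter, mem_product] at hp
      simp only [box, mem_product, s4, p4] at hp
      obtain ⟨⟨⟨a1, a2, a3, a4⟩, ⟨b1, b2, b3, b4⟩⟩, c1, c2⟩ := hp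
      simp only [coe_filter, mem_product, Set.mem_ofPred_eq, hP, hf, hg, dl]
      refine ⟨⟨⟨⟨a1, b1⟩, ⟨a2, b2⟩⟩, ⟨⟨a3, b3⟩, ⟨a4, b4⟩⟩⟩, ?_⟩
      have c1' : (x : ℤ) ^ 2 + (y : ℤ) ^ 2 + (z : ℤ) ^ 2 + (w : ℤ) ^ 2 =
        (x' : ℤ) ^ 2 + (y' : ℤ) ^ 2 + (z' : ℤ) ^ 2 + (w' : ℤ) ^ 2 := by exact_mod_cast c1
      have c2' : (x : ℤ) ^ 2 + 3 * (y : ℤ) ^ 2 + 5 * (z : ℤ) ^ 2 + 7 * (w : ℤ) ^ 2 =
        (x' : ℤ) ^ 2 + 3 * (y' : ℤ) ^ 2 + 5 * (z' : ℤ) ^ 2 + 7 * (w' : ℤ) ^ 2 := by exact_mod_cast c2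
      rw [Prod.mk.injEq]
      constructor <;> linarith
    · rintro ⟨⟨x, y, z, w⟩, ⟨x', y', z', w'⟩⟩ _ ⟨⟨x1, y1, z1, w1⟩, ⟨x1', y1', z1', w1'⟩⟩ _ h
      simp only [Prod.mk.injEq] at h ⊢
      tauto
  have h2 : (((P ×ˢ P) ×ˢ (P ×ˢ P)).filter (fun p => g p.1 = g p.2)).card ≤ (Ed X).card * (Ed X).card := by
    rw [← card_product]
    apply card_le_card_of_injOn (fun p : ((ℕ × ℕ) × (ℕ × ℕ)) × ((ℕ × ℕ) × (ℕ × ℕ)) =>
      ((p.1.1, p.2.1), (p.1.2, p.2.2)))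
    · rintro ⟨⟨a, b⟩, ⟨c, d⟩⟩ hp
      simp only [coe_filter, mem_product, Set.mem_ofPred_eq, hP, hg, Prod.mk.injEq] at hp
      simp only [coe_product, Set.mem_prod, mem_coe, Ed, mem_filter, mem_product]
      exact ⟨⟨⟨hp.1.1.1, hp.1.2.1⟩, hp.2.1⟩, ⟨⟨hp.1.1.2, hp.1.2.2⟩, hp.2.2⟩⟩
    · rintro ⟨⟨a, b⟩, ⟨c, d⟩⟩ _ ⟨⟨a', b'⟩, ⟨c', d'⟩⟩ _ h
      simp only [Prod.mk.injEq] at h ⊢
      tauto
  have h3 : (((P ×ˢ P) ×ˢ (P ×ˢ P)).filter (fun p => f p.1 = f p.2)).card ≤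
      (((P ×ˢ P) ×ˢ (P ×ˢ P)).filter (fun p => g p.1 = g p.2)).card := by
    apply card_le_card
    intro p hp
    rw [mem_filter] at hp ⊢
    refine ⟨hp.1, ?_⟩
    have h4 := hp.2
    simp only [hf, hg, Prod.mk.injEq] at h4 ⊢
    constructor <;> linarith [h4.1, h4.2]
  have hc := coin (P ×ˢ P) (P ×ˢ P) f g
  have h1r : ((T8 X).card : ℝ) ≤ ((((P ×ˢ P) ×ˢ (P ×ˢ P)).filter (fun p => f p.1 = g p.2)).card : ℝ) := by
    exact_mod_cast h1
  have h2r : ((((P ×ˢ P) ×ˢ (P ×ˢ P)).filter (fun p => g p.1 = g p.2)).card : ℝ) ≤ ((Ed X).card : ℝ) ^ 2 := by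
    rw [sq]
    exact_mod_cast h2
  have h3r : ((((P ×ˢ P) ×ˢ (P ×ˢ P)).filter (fun p => f p.1 = f p.2)).card : ℝ) ≤ ((Ed X).card : ℝ) ^ 2 := by
    rw [sq]
    exact_mod_cast h3.trans h2
  have h5 : ((T8 X).card : ℝ) ^ 2 ≤ (((Ed X).card : ℝ) ^ 2) ^ 2 := by
    calc ((T8 X).card : ℝ) ^ 2 ≤ ((((P ×ˢ P) ×ˢ (P ×ˢ P)).filter (fun p => f p.1 = g p.2)).card : ℝ) ^ 2 :=
          pow_le_pow_left₀ (Nat.cast_nonneg _) h1r 2
      _ ≤ _ := hc
      _ ≤ ((Ed X).card : ℝ) ^ 2 * ((Ed X).card : ℝ) ^ 2 := mul_le_mul h3r h2r (Nat.cast_nonneg _) (by positivity)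
      _ = _ := by ring
  exact (pow_le_pow_iff_left₀ (Nat.cast_nonneg _) (by positivity) two_ne_zero).1 h5

end Pool.Agent.U918.LP
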