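import Mathlib
import Pool.Agent.U918.LP.Core

/-! Even numbers: weights on a set of arguments given by a condition. -/

set_option autoImplicit false

namespace Pool.Agent.U918.LP
open Finset Pool.Agent.H373R2.T7 Polynomial

open Classical in
/-- arguments with the condition `P` for which all `2 n i - m` are prime -/
noncomputable def PG2 {r : ℕ} (P : ℕ → Prop) (w : ℕ → ℝ) (n : Fin r → ℕ) (q a y : ℕ) : ℝ :=
  ∑ m ∈ (Icc 1 y).filter (fun m => P m ∧ m ≡ a [MOD q] ∧ ∀ i, (2 * n i - m).Prime), w m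

open Classical in
/-- the model -/
noncomputable def MG2 {r : ℕ} (P : ℕ → Prop) (z : ℕ) (w : ℕ → ℝ) (n : Fin r → ℕ) (q a y : ℕ) : ℝ :=
  ∑ m ∈ (Icc 1 y).filter (fun m => P m ∧ m ≡ a [MOD q] ∧ ∀ i, ∀ p : ℕ, p.Prime → p ≤ z → ¬ p ∣ 2 * n i - m),
    w m * ∏ i, (Vz z * Real.log ((2 * n i - m : ℕ) : ℝ))⁻¹

open Classical in
theorem gold (r : ℕ) (P : ℕ → Prop) (U D K : ℕ) :
    ∃ B₀ : ℕ, ∀ E : ℕ, ∃ X₀ : ℕ, ∀ X : ℕ, X₀ ≤ X → ∀ z : ℕ, Real.log X ^ B₀ ≤ z → (z : ℝ) ≤ Real.log X ^ E →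
    ∀ w : ℕ → ℝ, (∀ m, |w m| ≤ 1) →
    (((Fintype.piFinset (fun _ : Fin r => Icc 1 (X / 2))).filter (fun n =>
      ∃ y ≤ X, ∃ q a : ℕ, 1 ≤ q ∧ (q : ℝ) ≤ Real.log X ^ K ∧
        (X : ℝ) / Real.log X ^ D < |PG2 P w n q a y - MG2 P z w n q a y|)).card : ℝ) ≤
      (X : ℝ) ^ r / Real.log X ^ U := by
  obtain ⟨B₀, h0⟩ := core r (fun _ => (Polynomial.X : ℤ[X])) (fun _ => by rw [natDegree_X])
    (fun _ => by rw [leadingCoeff_X]; norm_num) (fun _ m => m) (fun _ m => by simp)
    (fun _ u v huv => huv) (fun _ => false) 1 U D K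
  refine ⟨B₀, fun E => ?_⟩
  obtain ⟨x0, hx0⟩ := h0 E
  refine ⟨x0, fun X hX z hz1 hz2 w hw => ?_⟩
  have key := hx0 X hX z hz1 hz2 (fun m => if P m then w m else 0) (fun m => by
    split_ifs
    · exact hw m
    · simp)
  simp only [natDegree_X, pow_one, one_mul] at key
  rw [prod_const, card_univ, Fintype.card_fin] at key
  refine le_trans ?_ key
  have e1 : ∀ (n : Fin r → ℕ) (q a y : ℕ), PG2 P w n q a y = PS (fun _ => false)
      (fun _ m => m) (fun m => if P m then w m else 0) (fun i => 2 * n i) q a y := by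
    intro n q a y
    unfold PG2 PS va
    simp only [Bool.false_eq_true, if_false]
    rw [← sum_filter, filter_filter]
    apply sum_congr _ (fun _ _ => rfl)
    apply filter_congr
    intro m _
    tauto
  have e2 : ∀ (n : Fin r → ℕ) (q a y : ℕ), MG2 P z w n q a y = MS (fun _ => false)
      (fun _ m => m) z (fun m => if P m then w m else 0) (fun i => 2 * n i) q a y := by
    intro n q a y
    unfold MG2 MS va
    simp only [Bool.false_eq_true, if_false, ite_mul, zero_mul]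
    rw [← sum_filter, filter_filter]
    apply sum_congr _ (fun _ _ => rfl)
    apply filter_congr
    intro m _
    tauto
  have hc : ((Fintype.piFinset (fun _ : Fin r => Icc 1 (X / 2))).filter (fun n =>
      ∃ y ≤ X, ∃ q a : ℕ, 1 ≤ q ∧ (q : ℝ) ≤ Real.log X ^ K ∧
        (X : ℝ) / Real.log X ^ D < |PG2 P w n q a y - MG2 P z w n q a y|)).card ≤
      ((Fintype.piFinset (fun _ : Fin r => Icc 1 X)).filter (fun h =>
      ∃ y ≤ X, ∃ q a : ℕ, 1 ≤ q ∧ (q : ℝ) ≤ Real.log X ^ K ∧
        (X : ℝ) / Real.log X ^ D < |PS (fun _ => false) (fun _ m => m) (fun m => if P m then w m else 0) h q a y -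
          MS (fun _ => false) (fun _ m => m) z (fun m => if P m then w m else 0) h q a y|)).card := by
    apply card_le_card_of_injOn (fun n i => 2 * n i)
    · intro n hn
      rw [mem_coe, mem_filter, Fintype.mem_piFinset] at hn ⊢
      obtain ⟨h1, h2⟩ := hn
      refine ⟨fun i => ?_, ?_⟩
      · have := h1 i
        rw [mem_Icc] at this ⊢
        show 1 ≤ 2 * n i ∧ 2 * n i ≤ X
        omega
      · simp only [e1, e2] at h2
        exact h2
    · intro n _ n' _ h
      funext i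
      have := congrFun h i
      simp only at this
      omega
  exact_mod_cast hc

end Pool.Agent.U918.LP
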