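import Pool.Agent.U918.LP.Seqs
import Pool.Agent.U918.LP.Gold

/-! Goldbach form: `2 n - s m` for arbitrary strictly increasing sequences `s`, and families of them at once. -/

set_option autoImplicit false

namespace Pool.Agent.U918.LP
open Finset

open Classical in
/-- prime sum along the values of `s` -/
noncomputable def PB {r : ℕ} (s : ℕ → ℕ) (w : ℕ → ℝ) (n : Fin r → ℕ) (q a y : ℕ) : ℝ :=
  ∑ m ∈ (Icc 1 y).filter (fun m => s m ≤ y ∧ s m ≡ a [MOD q] ∧ ∀ i, (2 * n i - s m).Prime), w m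

open Classical in
/-- model sum along the values of `s` -/
noncomputable def MB {r : ℕ} (s : ℕ → ℕ) (z : ℕ) (w : ℕ → ℝ) (n : Fin r → ℕ) (q a y : ℕ) : ℝ :=
  ∑ m ∈ (Icc 1 y).filter (fun m => s m ≤ y ∧ s m ≡ a [MOD q] ∧
    ∀ i, ∀ l : ℕ, l.Prime → l ≤ z → ¬ l ∣ 2 * n i - s m),
    w m * ∏ i, (Pool.Agent.H373R2.T7.Vz z * Real.log ((2 * n i - s m : ℕ) : ℝ))⁻¹

open Classical in
theorem any_gold (r U D K : ℕ) :
    ∃ B₀ : ℕ, ∀ E : ℕ, ∃ X₀ : ℕ, ∀ X : ℕ, X₀ ≤ X → ∀ z : ℕ, Real.log X ^ B₀ ≤ z → (z : ℝ) ≤ Real.log X ^ E →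
    ∀ s : ℕ → ℕ, (∀ a b, 1 ≤ a → a < b → s a < s b) → (∀ m, 1 ≤ m → m ≤ s m) → ∀ w : ℕ → ℝ, (∀ m, |w m| ≤ 1) →
    (((Fintype.piFinset (fun _ : Fin r => Icc 1 (X / 2))).filter (fun n =>
      ∃ y ≤ X, ∃ q a : ℕ, 1 ≤ q ∧ (q : ℝ) ≤ Real.log X ^ K ∧
        (X : ℝ) / Real.log X ^ D < |PB s w n q a y - MB s z w n q a y|)).card : ℝ) ≤
      (X : ℝ) ^ r / Real.log X ^ U := by
  obtain ⟨B₀, h0⟩ := gold r (fun _ => True) U D K
  refine ⟨B₀, fun E => ?_⟩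
  obtain ⟨x0, hx0⟩ := h0 E
  refine ⟨x0, fun X hX z hz1 hz2 s hs1 hs2 w hw => ?_⟩
  refine le_trans (le_of_eq ?_) (hx0 X hX z hz1 hz2 (tw s w) (tw_le s hs1 w hw))
  have e1 : ∀ (n : Fin r → ℕ) (q a y : ℕ), PB s w n q a y = PG2 (fun _ => True) (tw s w) n q a y := by
    intro n q a y
    unfold PB PG2
    simp only [true_and]
    have := transport s hs2 w (fun v => v ≡ a [MOD q] ∧ ∀ i, (2 * n i - v).Prime) (fun _ => 1) y
    simp only [mul_one] at this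
    convert this
  have e2 : ∀ (n : Fin r → ℕ) (q a y : ℕ), MB s z w n q a y = MG2 (fun _ => True) z (tw s w) n q a y := by
    intro n q a y
    unfold MB MG2
    simp only [true_and]
    have := transport s hs2 w
      (fun v => v ≡ a [MOD q] ∧ ∀ i, ∀ l : ℕ, l.Prime → l ≤ z → ¬ l ∣ 2 * n i - v)
      (fun v => ∏ i, (Pool.Agent.H373R2.T7.Vz z * Real.log ((2 * n i - v : ℕ) : ℝ))⁻¹) y
    convert this
  simp only [e1, e2]

/-- the reciprocal logarithm of a natural number is at most `2` -/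
lemma inv_log_le (k : ℕ) : |(Real.log (k : ℝ))⁻¹| ≤ 2 := by
  rcases Nat.lt_or_ge k 2 with h | h
  · interval_cases k <;> simp
  · have h2 : Real.log 2 ≤ Real.log (k : ℝ) := Real.log_le_log (by norm_num) (by exact_mod_cast h)
    have h3 := Real.log_two_gt_d9
    have h4 : (1 / 2 : ℝ) ≤ Real.log (k : ℝ) := by linarith
    rw [abs_of_pos (inv_pos.2 (by linarith))]
    rw [inv_le_comm₀ (by linarith) (by norm_num)]
    linarith

/-- number of terms for a large slope -/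
theorem few_terms_gold (s : ℕ → ℕ) (c y : ℕ) (hc : 1 ≤ c) (hs : ∀ m, 1 ≤ m → c * m ≤ s m) (Q : ℕ → Prop) [DecidablePred Q] :
    (((Icc 1 y).filter (fun m => s m ≤ y ∧ Q m)).card : ℝ) ≤ (y : ℝ) / c := by
  have h1 : ((Icc 1 y).filter (fun m => s m ≤ y ∧ Q m)) ⊆ Icc 1 (y / c) := by
    intro m hm
    rw [mem_filter, mem_Icc] at hm
    rw [mem_Icc]
    refine ⟨hm.1.1, ?_⟩
    rw [Nat.le_div_iff_mul_le (by omega)]
    have := hs m hm.1.1
    calc m * c = c * m := Nat.mul_comm _ _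
      _ ≤ y := this.trans hm.2.1
  have h2 := card_le_card h1
  rw [Nat.card_Icc, Nat.add_sub_cancel] at h2
  calc (((Icc 1 y).filter (fun m => s m ≤ y ∧ Q m)).card : ℝ) ≤ ((y / c : ℕ) : ℝ) := by exact_mod_cast h2
    _ ≤ (y : ℝ) / c := Nat.cast_div_le

open Classical in
theorem large_gold {r : ℕ} (s : ℕ → ℕ) (c z y X : ℕ) (hc : 1 ≤ c)
    (hs : ∀ m, 1 ≤ m → c * m ≤ s m) (hy : y ≤ X) (w : ℕ → ℝ) (hw : ∀ m, |w m| ≤ 1)
    (hV : (Pool.Agent.H373R2.T7.Vz z)⁻¹ ≤ Real.log X) (hV0 : 0 < Pool.Agent.H373R2.T7.Vz z) (hX : 2 ≤ Real.log X)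
    (n : Fin r → ℕ) (q a : ℕ) :
    |PB s w n q a y - MB s z w n q a y| ≤ 2 * (X : ℝ) * (Real.log X) ^ (2 * r) / c := by
  have hc0 : (0 : ℝ) < c := by exact_mod_cast hc
  have hyX : (y : ℝ) ≤ X := by exact_mod_cast hy
  have hp1 : 1 ≤ Real.log X ^ (2 * r) := one_le_pow₀ (by linarith)
  have b1 : |PB s w n q a y| ≤ (y : ℝ) / c := by
    unfold PB
    refine le_trans (abs_sum_le_sum_abs _ _) ?_
    refine le_trans (sum_le_sum fun m _ => hw m) ?_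
    rw [sum_const, nsmul_eq_mul, mul_one]
    exact few_terms_gold s c y hc hs _
  have b2 : |MB s z w n q a y| ≤ (y : ℝ) / c * Real.log X ^ (2 * r) := by
    unfold MB
    refine le_trans (abs_sum_le_sum_abs _ _) ?_
    have b3 : ∀ m ∈ (Icc 1 y).filter (fun m => s m ≤ y ∧ s m ≡ a [MOD q] ∧
        ∀ i, ∀ l : ℕ, l.Prime → l ≤ z → ¬ l ∣ 2 * n i - s m),
        |w m * ∏ i, (Pool.Agent.H373R2.T7.Vz z * Real.log ((2 * n i - s m : ℕ) : ℝ))⁻¹| ≤ Real.log X ^ (2 * r) := by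
      intro m hm
      rw [abs_mul, abs_prod]
      have b4 : ∀ i : Fin r, |(Pool.Agent.H373R2.T7.Vz z * Real.log ((2 * n i - s m : ℕ) : ℝ))⁻¹| ≤ Real.log X ^ 2 := by
        intro i
        rw [mul_inv, abs_mul, abs_of_pos (inv_pos.2 hV0)]
        calc (Pool.Agent.H373R2.T7.Vz z)⁻¹ * |(Real.log ((2 * n i - s m : ℕ) : ℝ))⁻¹|
            ≤ Real.log X * 2 := mul_le_mul hV (inv_log_le _) (abs_nonneg _) (by linarith)
          _ ≤ Real.log X * Real.log X := mul_le_mul_of_nonneg_left hX (by linarith)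
          _ = Real.log X ^ 2 := by ring
      calc |w m| * ∏ i, |(Pool.Agent.H373R2.T7.Vz z * Real.log ((2 * n i - s m : ℕ) : ℝ))⁻¹|
          ≤ 1 * ∏ _i : Fin r, Real.log X ^ 2 :=
            mul_le_mul (hw m) (prod_le_prod (fun i _ => abs_nonneg _) (fun i _ => b4 i))
              (prod_nonneg fun i _ => abs_nonneg _) zero_le_one
        _ = Real.log X ^ (2 * r) := by rw [one_mul, prod_const, card_univ, Fintype.card_fin, ← pow_mul]
    refine le_trans (sum_le_sum b3) ?_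
    rw [sum_const, nsmul_eq_mul]
    exact mul_le_mul_of_nonneg_right (few_terms_gold s c y hc hs _) (by positivity)
  have b8 : (y : ℝ) / c ≤ (X : ℝ) / c := div_le_div_of_nonneg_right hyX hc0.le
  have hXc : (0 : ℝ) ≤ (X : ℝ) / c := by positivity
  calc |PB s w n q a y - MB s z w n q a y| ≤ |PB s w n q a y| + |MB s z w n q a y| := abs_sub _ _
    _ ≤ (y : ℝ) / c + (y : ℝ) / c * Real.log X ^ (2 * r) := add_le_add b1 b2
    _ ≤ (X : ℝ) / c * Real.log X ^ (2 * r) + (X : ℝ) / c * Real.log X ^ (2 * r) := by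
        refine add_le_add (b8.trans ?_) (mul_le_mul_of_nonneg_right b8 (by positivity))
        exact le_mul_of_one_le_right hXc hp1
    _ = 2 * (X : ℝ) * (Real.log X) ^ (2 * r) / c := by ring

open Classical in
theorem all_golds (r U D K : ℕ) :
    ∃ B₀ : ℕ, ∀ E : ℕ, ∃ X₀ : ℕ, ∀ X : ℕ, X₀ ≤ X → ∀ z : ℕ, Real.log X ^ B₀ ≤ z → (z : ℝ) ≤ Real.log X ^ E →
    ∀ s : ℕ → ℕ → ℕ, (∀ c, 1 ≤ c → ∀ a b, 1 ≤ a → a < b → s c a < s c b) →
    (∀ c m, 1 ≤ c → 1 ≤ m → m ≤ s c m ∧ c * m ≤ s c m) → ∀ w : ℕ → ℕ → ℝ, (∀ c m, |w c m| ≤ 1) →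
    (((Fintype.piFinset (fun _ : Fin r => Icc 1 (X / 2))).filter (fun n =>
      ∃ c : ℕ, 1 ≤ c ∧ ∃ y ≤ X, ∃ q a : ℕ, 1 ≤ q ∧ (q : ℝ) ≤ Real.log X ^ K ∧
        (X : ℝ) / Real.log X ^ D < |PB (s c) (w c) n q a y - MB (s c) z (w c) n q a y|)).card : ℝ) ≤
      (X : ℝ) ^ r / Real.log X ^ U := by
  obtain ⟨B₀, h0⟩ := any_gold r (U + (D + 2 * r + 2)) D K
  refine ⟨B₀, fun E => ?_⟩
  obtain ⟨x0, hx0⟩ := h0 E
  obtain ⟨x1, hx1⟩ := Pool.Agent.H373R2.T7.Vz_inv_small E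
  obtain ⟨x2, hx2⟩ := Pool.Agent.H373R2.T7.ev_L' 2
  refine ⟨max x0 (max x1 x2), fun X hX z hz1 hz2 s hs1 hs2 w hw => ?_⟩
  have a0 : x0 ≤ X := (le_max_left _ _).trans hX
  have a1 : x1 ≤ X := ((le_max_left _ _).trans (le_max_right _ _)).trans hX
  have a2 : x2 ≤ X := ((le_max_right _ _).trans (le_max_right _ _)).trans hX
  have hL2 := hx2 X a2
  have hgen := hx0 X a0 z hz1 hz2
  have hVi := hx1 X a1 z
  obtain ⟨L, hLd⟩ : ∃ L, L = Real.log X := ⟨_, rfl⟩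
  rw [← hLd] at hL2 hgen hVi hz1 hz2 ⊢
  have hL0 : 0 < L := by linarith
  have hz0 : 0 < z := by
    have : (0 : ℝ) < z := lt_of_lt_of_le (by positivity) hz1
    exact_mod_cast this
  have hV := hVi hz0 hz2
  set M : ℕ := ⌊L ^ (D + 2 * r + 1)⌋₊ with hM
  set Bd : ℕ → Finset (Fin r → ℕ) := fun c =>
    (Fintype.piFinset (fun _ : Fin r => Icc 1 (X / 2))).filter (fun n =>
      ∃ y ≤ X, ∃ q a : ℕ, 1 ≤ q ∧ (q : ℝ) ≤ L ^ K ∧
        (X : ℝ) / L ^ D < |PB (s c) (w c) n q a y - MB (s c) z (w c) n q a y|) with hBd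
  have hsub : ((Fintype.piFinset (fun _ : Fin r => Icc 1 (X / 2))).filter (fun n =>
      ∃ c : ℕ, 1 ≤ c ∧ ∃ y ≤ X, ∃ q a : ℕ, 1 ≤ q ∧ (q : ℝ) ≤ L ^ K ∧
        (X : ℝ) / L ^ D < |PB (s c) (w c) n q a y - MB (s c) z (w c) n q a y|)) ⊆ (Icc 1 M).biUnion Bd := by
    intro n hh
    rw [mem_filter] at hh
    obtain ⟨hh1, c, hc1, y, hy, q, a, hq1, hq2, hlt⟩ := hh
    rw [mem_biUnion]
    refine ⟨c, ?_, ?_⟩
    · rw [mem_Icc]
      refine ⟨hc1, ?_⟩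
      by_contra hc
      push Not at hc
      have hcM : L ^ (D + 2 * r + 1) < c := by
        refine lt_of_lt_of_le (Nat.lt_floor_add_one _) ?_
        exact_mod_cast hc
      have hc0 : (0 : ℝ) < c := by exact_mod_cast hc1
      have hls := large_gold (r := r) (s c) c z y X hc1
        (fun m hm => (hs2 c m hc1 hm).2) hy (w c) (hw c) (by rw [← hLd]; exact hV)
        (Pool.Agent.H373R2.T7.Vz_pos z) (by rw [← hLd]; linarith) n q a
      rw [← hLd] at hls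
      have hX0 : (0 : ℝ) ≤ X := Nat.cast_nonneg _
      have hb : 2 * (X : ℝ) * L ^ (2 * r) / c ≤ X / L ^ D := by
        rw [div_le_div_iff₀ hc0 (by positivity)]
        have h3 : 2 * L ^ (2 * r) * L ^ D ≤ c := by
          refine le_trans ?_ hcM.le
          calc 2 * L ^ (2 * r) * L ^ D = 2 * L ^ (D + 2 * r) := by ring
            _ ≤ L * L ^ (D + 2 * r) := by
                apply mul_le_mul_of_nonneg_right hL2 (by positivity)
            _ = L ^ (D + 2 * r + 1) := by ring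
        calc 2 * (X : ℝ) * L ^ (2 * r) * L ^ D = X * (2 * L ^ (2 * r) * L ^ D) := by ring
          _ ≤ X * c := mul_le_mul_of_nonneg_left h3 hX0
      linarith
    · rw [hBd]
      beta_reduce
      rw [mem_filter]
      exact ⟨hh1, y, hy, q, a, hq1, hq2, hlt⟩
  have hcard : ∀ c ∈ Icc 1 M, ((Bd c).card : ℝ) ≤ (X : ℝ) ^ r / L ^ (U + (D + 2 * r + 2)) := fun c hc =>
    hgen (s c) (hs1 c (mem_Icc.1 hc).1) (fun m hm => (hs2 c m (mem_Icc.1 hc).1 hm).1) (w c) (hw c)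
  calc (((Fintype.piFinset (fun _ : Fin r => Icc 1 (X / 2))).filter (fun n =>
      ∃ c : ℕ, 1 ≤ c ∧ ∃ y ≤ X, ∃ q a : ℕ, 1 ≤ q ∧ (q : ℝ) ≤ L ^ K ∧
        (X : ℝ) / L ^ D < |PB (s c) (w c) n q a y - MB (s c) z (w c) n q a y|)).card : ℝ)
      ≤ (((Icc 1 M).biUnion Bd).card : ℝ) := by exact_mod_cast card_le_card hsub
    _ ≤ ∑ c ∈ Icc 1 M, ((Bd c).card : ℝ) := by exact_mod_cast card_biUnion_le
    _ ≤ ∑ _c ∈ Icc 1 M, (X : ℝ) ^ r / L ^ (U + (D + 2 * r + 2)) := sum_le_sum hcard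
    _ = (M : ℝ) * ((X : ℝ) ^ r / L ^ (U + (D + 2 * r + 2))) := by
        rw [sum_const, Nat.card_Icc, Nat.add_sub_cancel, nsmul_eq_mul]
    _ ≤ L ^ (D + 2 * r + 2) * ((X : ℝ) ^ r / L ^ (U + (D + 2 * r + 2))) := by
        apply mul_le_mul_of_nonneg_right _ (by positivity)
        have h4 : (M : ℝ) ≤ L ^ (D + 2 * r + 1) := Nat.floor_le (by positivity)
        have h5 : (1 : ℝ) ≤ L ^ (D + 2 * r + 1) := one_le_pow₀ (by linarith)
        calc (M : ℝ) ≤ 2 * L ^ (D + 2 * r + 1) := by linarith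
          _ ≤ L * L ^ (D + 2 * r + 1) := mul_le_mul_of_nonneg_right hL2 (by positivity)
          _ = L ^ (D + 2 * r + 2) := by ring
    _ = (X : ℝ) ^ r / L ^ U := by
        rw [pow_add L U]
        have : L ^ (D + 2 * r + 2) ≠ 0 := by positivity
        have : L ^ U ≠ 0 := by positivity
        field_simp

end Pool.Agent.U918.LP
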