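import Pool.Agent.U918.LP.Core

/-! Linear forms `c i * n + (s i * h i + e i)` in `n`, averaged over `h`, arbitrary bounded weights on `n`. -/

set_option autoImplicit false

namespace Pool.Agent.U918.LP
open Finset

/-- the value `c n + s h + e` -/
def lv (c s : ℕ) (e : ℤ) (n h : ℕ) : ℕ := ((c : ℤ) * n + s * h + e).toNat

open Classical in
/-- the sum of `w n` over the `n ≤ y` of the class with `P n` and all values prime -/
noncomputable def PL {r : ℕ} (P : ℕ → Prop) (c s : Fin r → ℕ) (e : Fin r → ℤ) (w : ℕ → ℝ) (h : Fin r → ℕ)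
    (q a y : ℕ) : ℝ :=
  ∑ n ∈ (Icc 1 y).filter (fun n => P n ∧ n ≡ a [MOD q] ∧ ∀ i, (lv (c i) (s i) (e i) n (h i)).Prime), w n

open Classical in
/-- the model -/
noncomputable def ML {r : ℕ} (P : ℕ → Prop) (c s : Fin r → ℕ) (e : Fin r → ℤ) (z : ℕ) (w : ℕ → ℝ) (h : Fin r → ℕ)
    (q a y : ℕ) : ℝ :=
  ∑ n ∈ (Icc 1 y).filter (fun n => P n ∧ n ≡ a [MOD q] ∧
    ∀ i, ∀ p : ℕ, p.Prime → p ≤ z → ¬ p ∣ lv (c i) (s i) (e i) n (h i)),
    w n * ∏ i, (Pool.Agent.H373R2.T7.Vz z * Real.log (lv (c i) (s i) (e i) n (h i)))⁻¹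

open Classical in
theorem lin (r : ℕ) (P : ℕ → Prop) (c s : Fin r → ℕ) (e : Fin r → ℤ) (hc : ∀ i, 1 ≤ c i) (hs : ∀ i, 1 ≤ s i)
    (he : ∀ i, 1 ≤ s i + e i) (B A D K : ℕ) :
    ∃ B0 : ℕ, ∀ E : ℕ, ∃ x0 : ℕ, ∀ x : ℕ, x0 ≤ x → ∀ z : ℕ, Real.log x ^ B0 ≤ z → (z : ℝ) ≤ Real.log x ^ E →
    ∀ w : ℕ → ℝ, (∀ m, |w m| ≤ 1) →
    (((Fintype.piFinset (fun _ : Fin r => Icc 1 (B * x))).filter (fun h =>
      ∃ y ≤ x, ∃ q a : ℕ, 1 ≤ q ∧ (q : ℝ) ≤ Real.log x ^ K ∧
        (x : ℝ) / Real.log x ^ D < |PL P c s e w h q a y - ML P c s e z w h q a y|)).card : ℝ) ≤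
      (x : ℝ) ^ r / Real.log x ^ A := by
  have hne : ∀ i, (c i : ℤ) ≠ 0 := fun i => by
    have := hc i
    omega
  have hdeg : ∀ i, (Polynomial.C (c i : ℤ) * Polynomial.X : Polynomial ℤ).natDegree = 1 := fun i =>
    Polynomial.natDegree_C_mul_X _ (hne i)
  set T : ℕ := ∑ i, (s i + (e i).natAbs) with hT
  have hTi : ∀ i, s i + (e i).natAbs ≤ T := fun i =>
    single_le_sum (f := fun i => s i + (e i).natAbs) (fun _ _ => Nat.zero_le _) (mem_univ i)
  obtain ⟨B₀, h0⟩ := core r (fun i => (Polynomial.C (c i : ℤ) * Polynomial.X : Polynomial ℤ))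
    (fun i => by rw [hdeg]) (fun i => by
      rw [Polynomial.leadingCoeff_C_mul_X]
      exact_mod_cast hc i)
    (fun i m => c i * m) (fun i m => by
      rw [Polynomial.eval_mul, Polynomial.eval_C, Polynomial.eval_X]
      push_cast
      ring) (fun i u v huv => Nat.mul_le_mul_left _ huv) (fun _ => true) (T * (B + 1)) A D K
  refine ⟨B₀, fun E => ?_⟩
  obtain ⟨x0, hx0⟩ := h0 E
  refine ⟨max x0 1, fun X hX z hz1 hz2 w hw => ?_⟩
  have b0 : x0 ≤ X := (le_max_left _ _).trans hX
  have b1 : 1 ≤ X := (le_max_right _ _).trans hX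
  have key := hx0 X b0 z hz1 hz2 (fun n => if P n then w n else 0) (fun n => by
    split_ifs
    · exact hw n
    · simp)
  simp only [hdeg, pow_one] at key
  rw [prod_const, card_univ, Fintype.card_fin] at key
  refine le_trans ?_ key
  have ev : ∀ (i : Fin r) (n h : ℕ), 1 ≤ h →
      va true (fun m => c i * m) n ((s i * h + e i : ℤ)).toNat = lv (c i) (s i) (e i) n h := by
    intro i n h hh
    unfold va lv
    rw [if_pos rfl]
    have h1 := he i
    have h2 : (s i : ℤ) * 1 ≤ s i * h := mul_le_mul_of_nonneg_left (by exact_mod_cast hh) (by positivity)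
    have h3 : (0 : ℤ) ≤ (c i : ℤ) * n := by positivity
    have h4 : ((c i * n : ℕ) : ℤ) = (c i : ℤ) * n := by push_cast; ring
    dsimp only
    omega
  have e1 : ∀ (h : Fin r → ℕ) (q a y : ℕ), (∀ i, 1 ≤ h i) → PL P c s e w h q a y =
      PS (fun _ : Fin r => true) (fun i m => c i * m) (fun n => if P n then w n else 0)
        (fun i => ((s i * h i + e i : ℤ)).toNat) q a y := by
    intro h q a y hh
    have : ∀ n i, va true (fun m => c i * m) n ((s i * h i + e i : ℤ)).toNat = lv (c i) (s i) (e i) n (h i) :=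
      fun n i => ev i n (h i) (hh i)
    unfold PL PS
    rw [← sum_filter, filter_filter]
    apply sum_congr _ (fun _ _ => rfl)
    apply filter_congr
    intro n _
    simp only [this]
    tauto
  have e2 : ∀ (h : Fin r → ℕ) (q a y : ℕ), (∀ i, 1 ≤ h i) → ML P c s e z w h q a y =
      MS (fun _ : Fin r => true) (fun i m => c i * m) z (fun n => if P n then w n else 0)
        (fun i => ((s i * h i + e i : ℤ)).toNat) q a y := by
    intro h q a y hh
    have : ∀ n i, va true (fun m => c i * m) n ((s i * h i + e i : ℤ)).toNat = lv (c i) (s i) (e i) n (h i) :=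
      fun n i => ev i n (h i) (hh i)
    unfold ML MS
    simp only [ite_mul, zero_mul]
    rw [← sum_filter, filter_filter]
    apply sum_congr
    · apply filter_congr
      intro n _
      simp only [this]
      tauto
    · intro n _
      simp only [this]
  exact_mod_cast card_le_card_of_injOn
    (fun (h : Fin r → ℕ) (i : Fin r) => ((s i * h i + e i : ℤ)).toNat) (by
    intro h hh
    rw [mem_coe, mem_filter, Fintype.mem_piFinset] at hh
    obtain ⟨hh1, y, hy, q, a, hq1, hq2, hlt⟩ := hh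
    have hpos : ∀ i, 1 ≤ h i := fun i => (mem_Icc.1 (hh1 i)).1
    rw [mem_coe, mem_filter, Fintype.mem_piFinset]
    refine ⟨fun i => ?_, y, hy, q, a, hq1, hq2, ?_⟩
    · have h1 := mem_Icc.1 (hh1 i)
      have h2 := he i
      have h3 := hTi i
      have h4 : (s i : ℤ) * 1 ≤ s i * h i := mul_le_mul_of_nonneg_left (by exact_mod_cast h1.1) (by positivity)
      have h5 : s i * h i ≤ s i * (B * X) := Nat.mul_le_mul_left _ h1.2
      have h6 : T * (B + 1) * X = T * (B * X) + T * X := by ring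
      have h7 : (s i + (e i).natAbs) * (B * X) ≤ T * (B * X) := Nat.mul_le_mul_right _ h3
      have h8 : (s i + (e i).natAbs) * X ≤ T * X := Nat.mul_le_mul_right _ h3
      have h9 : (s i + (e i).natAbs) * (B * X) = s i * (B * X) + (e i).natAbs * (B * X) := by ring
      have h10 : (s i + (e i).natAbs) * X = s i * X + (e i).natAbs * X := by ring
      have h11 : (e i).natAbs ≤ (e i).natAbs * X := Nat.le_mul_of_pos_right _ b1
      have h12 : ((s i * h i : ℕ) : ℤ) = (s i : ℤ) * h i := by push_cast; ring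
      dsimp only
      rw [mem_Icc, h6]
      constructor
      · omega
      · have h13 : ((s i * h i + e i : ℤ)).toNat ≤ s i * h i + (e i).natAbs := by omega
        omega
    · rw [e1 h q a y hpos, e2 h q a y hpos] at hlt
      exact hlt) (by
    intro h hh h' hh' hhh
    rw [mem_coe, mem_filter, Fintype.mem_piFinset] at hh hh'
    funext i
    have h1 := congrFun hhh i
    have h2 := (mem_Icc.1 (hh.1 i)).1
    have h3 := (mem_Icc.1 (hh'.1 i)).1
    have h4 : (s i : ℤ) * 1 ≤ s i * h i := mul_le_mul_of_nonneg_left (by exact_mod_cast h2) (by positivity)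
    have h5 : (s i : ℤ) * 1 ≤ s i * h' i := mul_le_mul_of_nonneg_left (by exact_mod_cast h3) (by positivity)
    have h6 := he i
    dsimp only at h1
    have h7 : (s i : ℤ) * h i = s i * h' i := by omega
    have h8 : (s i : ℤ) ≠ 0 := by
      have := hs i
      omega
    exact_mod_cast mul_left_cancel₀ h8 h7)

end Pool.Agent.U918.LP
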