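import Mathlib
import Pool.Agent.U918.LP.Core

/-! Arguments with a prime factor: weights on the factorisations. -/

set_option autoImplicit false

namespace Pool.Agent.U918.LP
open Finset Pool.Agent.H373R2.T7 Polynomial

open Classical in
/-- the pairs in the family `P` with value at most `y` -/
noncomputable def fam (P : ℕ × ℕ → Prop) (g : ℕ × ℕ → ℕ) (y : ℕ) : Finset (ℕ × ℕ) :=
  ((Icc 1 y) ×ˢ (Icc 1 y)).filter (fun t => P t ∧ g t ≤ y)

open Classical in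
/-- the sum of the weights over the pairs with value `m` -/
noncomputable def fw (P : ℕ × ℕ → Prop) (g : ℕ × ℕ → ℕ) (w : ℕ × ℕ → ℝ) (m : ℕ) : ℝ :=
  ∑ t ∈ ((Icc 1 m) ×ˢ (Icc 1 m)).filter (fun t => P t ∧ g t = m), w t

open Classical in
lemma fam_sum (P : ℕ × ℕ → Prop) (g : ℕ × ℕ → ℕ) (hg : ∀ t, P t → 1 ≤ t.1 ∧ 1 ≤ t.2 ∧ t.1 ≤ g t ∧ t.2 ≤ g t)
    (w : ℕ × ℕ → ℝ) (Q : ℕ → Prop) (φ : ℕ → ℝ) (y : ℕ) :
    ∑ t ∈ (fam P g y).filter (fun t => Q (g t)), w t * φ (g t) = ∑ m ∈ (Icc 1 y).filter Q, fw P g w m * φ m := by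
  have hmap : ∀ t ∈ (fam P g y).filter (fun t => Q (g t)), g t ∈ (Icc 1 y).filter Q := by
    intro t ht
    unfold fam at ht
    rw [mem_filter, mem_filter] at ht
    obtain ⟨⟨_, hP, hy⟩, hQ⟩ := ht
    have h1 := hg t hP
    rw [mem_filter, mem_Icc]
    exact ⟨⟨by omega, hy⟩, hQ⟩
  rw [← sum_fiberwise_of_maps_to hmap]
  apply sum_congr rfl
  intro m hm
  rw [mem_filter, mem_Icc] at hm
  unfold fw
  rw [sum_mul]
  have e : ((fam P g y).filter (fun t => Q (g t))).filter (fun t => g t = m) =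
      ((Icc 1 m) ×ˢ (Icc 1 m)).filter (fun t => P t ∧ g t = m) := by
    ext t
    unfold fam
    simp only [mem_filter, mem_product, mem_Icc]
    constructor
    · rintro ⟨⟨⟨_, hP, hy⟩, hQ⟩, rfl⟩
      have h1 := hg t hP
      exact ⟨⟨⟨h1.1, h1.2.2.1⟩, ⟨h1.2.1, h1.2.2.2⟩⟩, hP, rfl⟩
    · rintro ⟨⟨⟨h1, h2⟩, ⟨h3, h4⟩⟩, hP, h5⟩
      refine ⟨⟨⟨⟨⟨h1, h2.trans hm.1.2⟩, ⟨h3, h4.trans hm.1.2⟩⟩, hP, by omega⟩, by rw [h5]; exact hm.2⟩, h5⟩
  rw [e]
  apply sum_congr rfl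
  intro t ht
  rw [mem_filter] at ht
  rw [ht.2.2]

open Classical in
lemma fw_le (P : ℕ × ℕ → Prop) (g : ℕ × ℕ → ℕ) (hp : ∀ t, P t → t.1.Prime ∧ t.1 ∣ g t ∧ 1 ≤ g t)
    (hinj : ∀ t t', P t → P t' → g t = g t' → t.1 = t'.1 → t = t')
    (w : ℕ × ℕ → ℝ) (hw : ∀ t, |w t| ≤ 1) (m : ℕ) (hm : 1 ≤ m) : |fw P g w m| ≤ Nat.log 2 m := by
  unfold fw
  refine (abs_sum_le_sum_abs _ _).trans ((sum_le_sum fun t _ => hw t).trans ?_)
  rw [sum_const, nsmul_eq_mul, mul_one]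
  have h1 : (((Icc 1 m) ×ˢ (Icc 1 m)).filter (fun t => P t ∧ g t = m)).card ≤ m.primeFactors.card := by
    apply card_le_card_of_injOn (fun t => t.1)
    · intro t ht
      rw [mem_coe, mem_filter] at ht
      obtain ⟨_, hP, rfl⟩ := ht
      have := hp t hP
      rw [mem_coe, Nat.mem_primeFactors]
      exact ⟨this.1, this.2.1, by omega⟩
    · intro t ht t' ht' htt
      rw [mem_coe, mem_filter] at ht ht'
      exact hinj t t' ht.2.1 ht'.2.1 (ht.2.2.trans ht'.2.2.symm) htt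
  have h2 : 2 ^ m.primeFactors.card ≤ m := by
    calc 2 ^ m.primeFactors.card = ∏ _p ∈ m.primeFactors, 2 := by rw [prod_const]
      _ ≤ ∏ p ∈ m.primeFactors, p := prod_le_prod' fun p hp => (Nat.prime_of_mem_primeFactors hp).two_le
      _ ≤ m := Nat.le_of_dvd hm (Nat.prod_primeFactors_dvd m)
  have h3 : m.primeFactors.card ≤ Nat.log 2 m := Nat.le_log_of_pow_le (by norm_num) h2
  exact_mod_cast h1.trans h3

open Classical in
/-- pairs: the count of primes and the model -/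
noncomputable def PSp {r : ℕ} (F : Fin r → ℕ → ℕ) (P : ℕ × ℕ → Prop) (g : ℕ × ℕ → ℕ) (w : ℕ × ℕ → ℝ) (h : Fin r → ℕ) (y : ℕ) : ℝ :=
  ∑ t ∈ (fam P g y).filter (fun t => ∀ i, (F i (g t) + h i).Prime), w t

open Classical in
noncomputable def MSp {r : ℕ} (F : Fin r → ℕ → ℕ) (P : ℕ × ℕ → Prop) (g : ℕ × ℕ → ℕ) (z : ℕ) (w : ℕ × ℕ → ℝ) (h : Fin r → ℕ)
    (y : ℕ) : ℝ :=
  ∑ t ∈ (fam P g y).filter (fun t => ∀ i, ∀ p : ℕ, p.Prime → p ≤ z → ¬ p ∣ F i (g t) + h i),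
    w t * ∏ i, (Vz z * Real.log ((F i (g t) + h i : ℕ) : ℝ))⁻¹

open Classical in
theorem pairs (r : ℕ) (f : Fin r → ℤ[X]) (hd : ∀ i, 1 ≤ (f i).natDegree) (hl : ∀ i, 0 < (f i).leadingCoeff)
    (F : Fin r → ℕ → ℕ) (hF : ∀ i, ∀ m : ℕ, (f i).eval (m : ℤ) = F i m) (hmono : ∀ i, Monotone (F i))
    (P : ℕ × ℕ → Prop) (g : ℕ × ℕ → ℕ) (hg : ∀ t, P t → 1 ≤ t.1 ∧ 1 ≤ t.2 ∧ t.1 ≤ g t ∧ t.2 ≤ g t)
    (hp : ∀ t, P t → t.1.Prime ∧ t.1 ∣ g t ∧ 1 ≤ g t)
    (hinj : ∀ t t', P t → P t' → g t = g t' → t.1 = t'.1 → t = t')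
    (B A D : ℕ) :
    ∃ B0 : ℕ, ∀ E : ℕ, ∃ x0 : ℕ, ∀ x : ℕ, x0 ≤ x → ∀ z : ℕ, Real.log x ^ B0 ≤ z → (z : ℝ) ≤ Real.log x ^ E →
    ∀ w : ℕ × ℕ → ℝ, (∀ t, |w t| ≤ 1) →
    (((Fintype.piFinset (fun i => Icc 1 (B * x ^ (f i).natDegree))).filter (fun h =>
      ∃ y ≤ x, (x : ℝ) / Real.log x ^ D < |PSp F P g w h y - MSp F P g z w h y|)).card : ℝ) ≤
      (∏ i, (x : ℝ) ^ (f i).natDegree) / Real.log x ^ A := by
  obtain ⟨B0, h0⟩ := core r f hd hl F hF hmono (fun _ => true) B A (D + 2) 0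
  refine ⟨B0, fun E => ?_⟩
  obtain ⟨x1, hx1⟩ := h0 E
  obtain ⟨x3, hx3⟩ := ev_L' 2
  refine ⟨max x1 (max x3 1), fun x hx z hz1 hz2 w hw => ?_⟩
  have b1 : x1 ≤ x := (le_max_left _ _).trans hx
  have b3 : x3 ≤ x := ((le_max_left _ _).trans (le_max_right _ _)).trans hx
  have b4 : 1 ≤ x := ((le_max_right _ _).trans (le_max_right _ _)).trans hx
  have hL2 := hx3 x b3
  have hgen := hx1 x b1 z hz1 hz2
  obtain ⟨L, hLd⟩ : ∃ L, L = Real.log x := ⟨_, rfl⟩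
  rw [← hLd] at hL2 hgen ⊢
  have hL0 : 0 < L := by linarith
  have hL1 : 1 ≤ L := by linarith
  have hx0 : (0 : ℝ) < x := by exact_mod_cast b4
  set c : ℕ → ℝ := fun m => if 1 ≤ m ∧ m ≤ x then fw P g w m / (2 * L) else 0 with hc
  have hc1 : ∀ m, |c m| ≤ 1 := by
    intro m
    rw [hc]
    beta_reduce
    split_ifs with hm
    · rw [abs_div, abs_of_pos (show (0 : ℝ) < 2 * L by positivity), div_le_one (by positivity)]
      refine (fw_le P g hp hinj w hw m hm.1).trans ?_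
      have h1 : (2 : ℝ) ^ Nat.log 2 m ≤ x := by
        have : 2 ^ Nat.log 2 m ≤ m := Nat.pow_log_le_self 2 (by omega)
        exact_mod_cast this.trans hm.2
      have h2 := Real.log_le_log (by positivity) h1
      rw [Real.log_pow, ← hLd] at h2
      have h3 := Real.log_two_gt_d9
      have h4 : (0 : ℝ) ≤ Nat.log 2 m := Nat.cast_nonneg _
      nlinarith
    · simp
  have key := hgen c hc1
  refine le_trans ?_ key
  have hcard : ((Fintype.piFinset (fun i => Icc 1 (B * x ^ (f i).natDegree))).filter (fun h =>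
      ∃ y ≤ x, (x : ℝ) / L ^ D < |PSp F P g w h y - MSp F P g z w h y|)).card ≤
      ((Fintype.piFinset (fun i => Icc 1 (B * x ^ (f i).natDegree))).filter (fun h =>
      ∃ y ≤ x, ∃ q a : ℕ, 1 ≤ q ∧ (q : ℝ) ≤ L ^ 0 ∧
        (x : ℝ) / L ^ (D + 2) < |PS (fun _ => true) F c h q a y - MS (fun _ => true) F z c h q a y|)).card := by
    apply card_le_card
    intro h hh
    rw [mem_filter] at hh ⊢
    obtain ⟨hh1, y, hy, hlt⟩ := hh
    refine ⟨hh1, y, hy, 1, 0, le_rfl, by simp, ?_⟩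
    have e1 : PS (fun _ => true) F c h 1 0 y = (2 * L)⁻¹ * PSp F P g w h y := by
      have h1 : PSp F P g w h y = ∑ m ∈ (Icc 1 y).filter (fun m => ∀ i, (F i m + h i).Prime), fw P g w m := by
        have h2 := fam_sum P g hg w (fun m => ∀ i, (F i m + h i).Prime) (fun _ => 1) y
        simp only [mul_one] at h2
        unfold PSp
        convert h2
      unfold PS
      rw [h1, mul_sum]
      have e : (Icc 1 y).filter (fun m => m ≡ 0 [MOD 1] ∧ ∀ i, (va true (F i) m (h i)).Prime) =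
          (Icc 1 y).filter (fun m => ∀ i, (F i m + h i).Prime) := by
        apply filter_congr
        intro m _
        unfold va
        simp only [if_true, Nat.modEq_one, true_and]
      rw [e]
      apply sum_congr rfl
      intro m hm
      rw [mem_filter, mem_Icc] at hm
      rw [hc]
      beta_reduce
      rw [if_pos ⟨hm.1.1, hm.1.2.trans hy⟩, div_eq_inv_mul]
    have e2 : MS (fun _ => true) F z c h 1 0 y = (2 * L)⁻¹ * MSp F P g z w h y := by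
      have h1 : MSp F P g z w h y = ∑ m ∈ (Icc 1 y).filter (fun m => ∀ i, ∀ p : ℕ, p.Prime → p ≤ z → ¬ p ∣ F i m + h i),
          fw P g w m * ∏ i, (Vz z * Real.log ((F i m + h i : ℕ) : ℝ))⁻¹ := by
        unfold MSp
        convert fam_sum P g hg w (fun m => ∀ i, ∀ p : ℕ, p.Prime → p ≤ z → ¬ p ∣ F i m + h i)
          (fun m => ∏ i, (Vz z * Real.log ((F i m + h i : ℕ) : ℝ))⁻¹) y
      unfold MS
      rw [h1, mul_sum]
      have e : (Icc 1 y).filter (fun m => m ≡ 0 [MOD 1] ∧ ∀ i, ∀ p : ℕ, p.Prime → p ≤ z → ¬ p ∣ va true (F i) m (h i)) =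
          (Icc 1 y).filter (fun m => ∀ i, ∀ p : ℕ, p.Prime → p ≤ z → ¬ p ∣ F i m + h i) := by
        apply filter_congr
        intro m _
        unfold va
        simp only [if_true, Nat.modEq_one, true_and]
      rw [e]
      apply sum_congr rfl
      intro m hm
      rw [mem_filter, mem_Icc] at hm
      rw [hc]
      beta_reduce
      rw [if_pos ⟨hm.1.1, hm.1.2.trans hy⟩, div_eq_inv_mul]
      unfold va
      simp only [if_true]
      ring
    rw [e1, e2, ← mul_sub, abs_mul, abs_of_pos (show (0 : ℝ) < (2 * L)⁻¹ by positivity)]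
    have h5 : (x : ℝ) / L ^ (D + 2) ≤ (2 * L)⁻¹ * (x / L ^ D) := by
      have h6 : (2 * L)⁻¹ * (x / L ^ D) = x / L ^ (D + 2) * (L / 2) := by
        rw [pow_add]
        field_simp
      rw [h6]
      exact le_mul_of_one_le_right (by positivity) (by linarith)
    exact h5.trans_lt (mul_lt_mul_of_pos_left hlt (by positivity))
  exact_mod_cast hcard

end Pool.Agent.U918.LP
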