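import Pool.Agent.U918.LP.Lin

/-! Transport of weights along a strictly increasing sequence; the iterated primes. -/

set_option autoImplicit false

namespace Pool.Agent.U918.LP
open Finset

/-- the weight transported to the values of `s` -/
noncomputable def tw (s : ℕ → ℕ) (w : ℕ → ℝ) (n : ℕ) : ℝ := ∑ m ∈ (Icc 1 n).filter (fun m => s m = n), w m

theorem tw_le (s : ℕ → ℕ) (hs : ∀ a b, 1 ≤ a → a < b → s a < s b) (w : ℕ → ℝ) (hw : ∀ m, |w m| ≤ 1) (n : ℕ) :
    |tw s w n| ≤ 1 := by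
  unfold tw
  have hc : ((Icc 1 n).filter (fun m => s m = n)).card ≤ 1 := by
    rw [card_le_one]
    intro a ha b hb
    rw [mem_filter, mem_Icc] at ha hb
    rcases lt_trichotomy a b with h | h | h
    · have := hs a b ha.1.1 h
      omega
    · exact h
    · have := hs b a hb.1.1 h
      omega
  calc |∑ m ∈ (Icc 1 n).filter (fun m => s m = n), w m|
      ≤ ∑ m ∈ (Icc 1 n).filter (fun m => s m = n), |w m| := abs_sum_le_sum_abs _ _
    _ ≤ ∑ m ∈ (Icc 1 n).filter (fun m => s m = n), (1 : ℝ) := sum_le_sum fun m _ => hw m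
    _ = (((Icc 1 n).filter (fun m => s m = n)).card : ℝ) := by rw [sum_const, nsmul_eq_mul, mul_one]
    _ ≤ 1 := by exact_mod_cast hc

open Classical in
theorem transport (s : ℕ → ℕ) (hl : ∀ m, 1 ≤ m → m ≤ s m) (w : ℕ → ℝ) (Q : ℕ → Prop) (g : ℕ → ℝ) (y : ℕ) :
    ∑ m ∈ (Icc 1 y).filter (fun m => s m ≤ y ∧ Q (s m)), w m * g (s m) =
      ∑ n ∈ (Icc 1 y).filter Q, tw s w n * g n := by
  have h1 : ∀ n ∈ (Icc 1 y).filter Q, tw s w n * g n =
      ∑ m ∈ (Icc 1 y).filter (fun m => s m ≤ y ∧ Q (s m)), if s m = n then w m * g (s m) else 0 := by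
    intro n hn
    rw [mem_filter, mem_Icc] at hn
    unfold tw
    rw [sum_mul, ← sum_filter]
    apply sum_congr
    · ext m
      rw [mem_filter, mem_filter, mem_filter, mem_Icc, mem_Icc]
      constructor
      · rintro ⟨⟨a1, a2⟩, a3⟩
        rw [a3]
        exact ⟨⟨⟨a1, by omega⟩, hn.1.2, hn.2⟩, rfl⟩
      · rintro ⟨⟨⟨a1, a2⟩, a3, a4⟩, a5⟩
        have := hl m a1
        exact ⟨⟨a1, by omega⟩, a5⟩
    · intro m hm
      rw [mem_filter, mem_filter] at hm
      rw [hm.2]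
  rw [sum_congr rfl h1, sum_comm]
  apply sum_congr rfl
  intro m hm
  rw [mem_filter, mem_Icc] at hm
  have h2 := hl m hm.1.1
  rw [sum_ite_eq, if_pos]
  rw [mem_filter, mem_Icc]
  exact ⟨⟨by omega, hm.2.1⟩, hm.2.2⟩

/-- the `m`-th prime -/
noncomputable def pr (m : ℕ) : ℕ := Nat.nth Nat.Prime (m - 1)

theorem pr_lt (a b : ℕ) (ha : 1 ≤ a) (hab : a < b) : pr a < pr b :=
  Nat.nth_strictMono Nat.infinite_setOfPred_prime (by omega)

theorem pr_ge (m : ℕ) (hm : 1 ≤ m) : m < pr m := by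
  induction m with
  | zero => omega
  | succ n ih =>
      rcases Nat.eq_zero_or_pos n with h | h
      · subst h
        exact (Nat.prime_nth_prime 0).two_le
      · have h1 := ih h
        have h2 := pr_lt n (n + 1) h (Nat.lt_succ_self n)
        omega

end Pool.Agent.U918.LP
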