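import Pool.Agent.U918.LP.Mult
import Pool.Agent.H316R2.LS

/-! The numbers `6 x y ± x ± y` with multiplicities. -/

set_option autoImplicit false

namespace Pool.Agent.U918.LP
open Finset

lemma tau_sq6 (N : ℕ) : ∑ n ∈ Icc 1 N, (n.divisors.card : ℝ) ^ 2 ≤ N * (1 + Real.log N) ^ 4 := by
  have h := Pool.Agent.H316R2.tau_sq_sum_le N
  have h1 : ∑ n ∈ Icc 1 N, (n.divisors.card : ℝ) ^ 2 ≤ N * ∑ n ∈ Icc 1 N, (n.divisors.card : ℝ) ^ 2 / n := by
    rw [mul_sum]
    apply sum_le_sum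
    intro n hn
    rw [mem_Icc] at hn
    have hn0 : (0 : ℝ) < n := by exact_mod_cast hn.1
    have hnN : (n : ℝ) ≤ N := by exact_mod_cast hn.2
    rw [mul_div_assoc', le_div_iff₀ hn0, mul_comm (N : ℝ)]
    exact mul_le_mul_of_nonneg_left hnN (by positivity)
  exact h1.trans (mul_le_mul_of_nonneg_left h (Nat.cast_nonneg _))

/-- families of values with at most `τ(n)` representations of each `n` -/
lemma tau_coin (X : ℕ) (R : Finset (ℕ × ℕ)) (v g : ℕ × ℕ → ℕ) (hR : ∀ t ∈ R, 1 ≤ v t ∧ v t ≤ X)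
    (hg : ∀ t ∈ R, g t ∣ v t) (hinj : ∀ t ∈ R, ∀ s ∈ R, v t = v s → g t = g s → t = s) :
    (((R ×ˢ R).filter (fun p => v p.1 = v p.2)).card : ℝ) ≤ X * (1 + Real.log X) ^ 4 := by
  set m : ℕ → ℝ := fun n => ((R.filter (fun t => v t = n)).card : ℝ) with hm
  have h1 : (((R ×ˢ R).filter (fun p => v p.1 = v p.2)).card : ℝ) = ∑ n ∈ Icc 1 X, m n ^ 2 := by
    rw [card_filter]
    push_cast
    rw [sum_product]
    have e0 : ∀ t ∈ R, ∑ s ∈ R, (if v t = v s then (1 : ℝ) else 0) = m (v t) := by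
      intro t _
      rw [hm]
      beta_reduce
      rw [card_filter]
      push_cast
      apply sum_congr rfl
      intro s _
      by_cases h : v s = v t
      · rw [if_pos h, if_pos h.symm]
      · rw [if_neg h, if_neg (fun h' => h h'.symm)]
    rw [sum_congr rfl e0]
    have e1 : ∀ n ∈ Icc 1 X, m n ^ 2 = ∑ t ∈ R, if v t = n then m (v t) else 0 := by
      intro n _
      rw [← sum_filter]
      have : ∀ t ∈ R.filter (fun t => v t = n), m (v t) = m n := by
        intro t ht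
        rw [(mem_filter.1 ht).2]
      rw [sum_congr rfl this, sum_const, nsmul_eq_mul, sq]
    rw [sum_congr rfl e1, sum_comm]
    apply sum_congr rfl
    intro t ht
    rw [sum_ite_eq, if_pos (mem_Icc.2 (hR t ht))]
  rw [h1]
  refine (sum_le_sum fun n hn => ?_).trans (tau_sq6 X)
  rw [mem_Icc] at hn
  apply pow_le_pow_left₀ (Nat.cast_nonneg _)
  rw [hm]
  beta_reduce
  rw [Nat.cast_le]
  apply card_le_card_of_injOn g
  · intro t ht
    rw [mem_coe, mem_filter] at ht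
    rw [mem_coe, Nat.mem_divisors]
    exact ⟨by rw [← ht.2]; exact hg t ht.1, by omega⟩
  · intro t ht s hs hst
    rw [mem_coe, mem_filter] at ht hs
    exact hinj t ht.1 s hs.1 (by rw [ht.2, hs.2]) hst

/-- `6 x y + a x + b y` -/
def num6 (a b : ℤ) (t : ℕ × ℕ) : ℤ := 6 * t.1 * t.2 + a * t.1 + b * t.2

/-- `6 (n + h) + s` as a natural number -/
def val6 (a b : ℤ) (t : ℕ × ℕ) (h : ℕ) (s : ℤ) : ℕ := (6 * (num6 a b t + h) + s).toNat

open Classical in
theorem six (r B U D : ℕ) :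
    ∃ B₀ : ℕ, ∀ E : ℕ, ∃ X₀ : ℕ, ∀ X : ℕ, X₀ ≤ X → ∀ z : ℕ, Real.log X ^ B₀ ≤ z → (z : ℝ) ≤ Real.log X ^ E →
    ∀ a b : ℤ, (a = 1 ∨ a = -1) → (b = 1 ∨ b = -1) → ∀ σ : Fin r → ℤ, (∀ i, σ i = 1 ∨ σ i = -1) →
    ∀ R : Finset (ℕ × ℕ), (∀ t ∈ R, 1 ≤ t.1 ∧ 1 ≤ t.2 ∧ 6 * num6 a b t + 1 ≤ X) →
    ∀ W : ℕ × ℕ → ℝ, (∀ t, |W t| ≤ 1) →
    (((Fintype.piFinset (fun _ : Fin r => Icc 1 (B * X))).filter (fun h =>
      (X : ℝ) / Real.log X ^ D <
          |∑ t ∈ R.filter (fun t => ∀ i, (val6 a b t (h i) (σ i)).Prime), W t -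
           ∑ t ∈ R.filter (fun t => ∀ i, ∀ l : ℕ, l.Prime → l ≤ z → ¬ l ∣ val6 a b t (h i) (σ i)),
            W t * ∏ i, (Pool.Agent.H373R2.T7.Vz z * Real.log ((val6 a b t (h i) (σ i) : ℕ) : ℝ))⁻¹|)).card : ℝ) ≤
      (X : ℝ) ^ r / Real.log X ^ U := by
  obtain ⟨B₀, h0⟩ := multi (ι := ℕ × ℕ) r (3 * B + 1) U D 1 5
  refine ⟨B₀, fun E => ?_⟩
  obtain ⟨x0, hx0⟩ := h0 E
  obtain ⟨x1, hx1⟩ := Pool.Agent.H373R2.T7.ev_L' 16
  refine ⟨max x0 x1, fun X hX z hz1 hz2 a b ha hb σ hσ R hR W hW => ?_⟩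
  have a0 : x0 ≤ X := (le_max_left _ _).trans hX
  have hL := hx1 X ((le_max_right _ _).trans hX)
  set v : ℕ × ℕ → ℕ := fun t => (6 * num6 a b t + a * b).toNat with hv
  set g : ℕ × ℕ → ℕ := fun t => (6 * (t.1 : ℤ) + b).toNat with hg
  have hfac : ∀ t : ℕ × ℕ, 6 * num6 a b t + a * b = (6 * (t.1 : ℤ) + b) * (6 * (t.2 : ℤ) + a) := by
    intro t
    unfold num6
    ring
  have hab : a * b = 1 ∨ a * b = -1 := by
    rcases ha with rfl | rfl <;> rcases hb with rfl | rfl <;> simp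
  have hpos : ∀ t ∈ R, 5 ≤ 6 * (t.1 : ℤ) + b ∧ 5 ≤ 6 * (t.2 : ℤ) + a := by
    intro t ht
    have h1 := hR t ht
    have h2 : (1 : ℤ) ≤ t.1 := by exact_mod_cast h1.1
    have h3 : (1 : ℤ) ≤ t.2 := by exact_mod_cast h1.2.1
    constructor
    · rcases hb with rfl | rfl <;> omega
    · rcases ha with rfl | rfl <;> omega
  have hvz : ∀ t ∈ R, ((v t : ℕ) : ℤ) = 6 * num6 a b t + a * b := by
    intro t ht
    rw [hv]
    beta_reduce
    apply Int.toNat_of_nonneg
    rw [hfac]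
    have := hpos t ht
    nlinarith [this.1, this.2]
  have hgz : ∀ t ∈ R, ((g t : ℕ) : ℤ) = 6 * (t.1 : ℤ) + b := by
    intro t ht
    rw [hg]
    beta_reduce
    apply Int.toNat_of_nonneg
    have := hpos t ht
    linarith [this.1]
  have hv1 : ∀ t ∈ R, 1 ≤ v t ∧ v t ≤ X := by
    intro t ht
    have h1 := hvz t ht
    have h2 := (hR t ht).2.2
    have h3 := hpos t ht
    have h4 := hfac t
    constructor
    · have : (1 : ℤ) ≤ (v t : ℤ) := by
        rw [h1, h4]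
        nlinarith [h3.1, h3.2]
      exact_mod_cast this
    · have : (v t : ℤ) ≤ (X : ℤ) := by
        rw [h1]
        rcases hab with h | h <;> rw [h] <;> linarith
      exact_mod_cast this
  have hE : (((R ×ˢ R).filter (fun p => v p.1 = v p.2)).card : ℝ) ≤ X * Real.log X ^ 5 := by
    refine (tau_coin X R v g hv1 (fun t ht => ?_) (fun t ht s hs hvv hgg => ?_)).trans ?_
    · have : ((g t : ℕ) : ℤ) ∣ ((v t : ℕ) : ℤ) := by
        rw [hgz t ht, hvz t ht, hfac]
        exact Dvd.intro _ rfl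
      exact_mod_cast this
    · have e1 : ((g t : ℕ) : ℤ) = ((g s : ℕ) : ℤ) := by rw [hgg]
      rw [hgz t ht, hgz s hs] at e1
      have e2 : ((v t : ℕ) : ℤ) = ((v s : ℕ) : ℤ) := by rw [hvv]
      rw [hvz t ht, hvz s hs, hfac, hfac, e1] at e2
      have h5 := (hpos s hs).1
      have e3 : 6 * (t.2 : ℤ) + a = 6 * (s.2 : ℤ) + a :=
        mul_left_cancel₀ (show (6 * (s.1 : ℤ) + b) ≠ 0 by omega) e2
      exact Prod.ext (by omega) (by omega)
    · have h3 : (1 + Real.log X) ^ 4 ≤ (2 * Real.log X) ^ 4 := pow_le_pow_left₀ (by linarith) (by linarith) 4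
      calc (X : ℝ) * (1 + Real.log X) ^ 4 ≤ X * (2 * Real.log X) ^ 4 :=
            mul_le_mul_of_nonneg_left h3 (Nat.cast_nonneg _)
        _ = X * Real.log X ^ 4 * 16 := by ring
        _ ≤ X * Real.log X ^ 4 * Real.log X := mul_le_mul_of_nonneg_left hL (by positivity)
        _ = X * Real.log X ^ 5 := by ring
  have key := hx0 X a0 z hz1 hz2 R v hv1 (by convert hE) W hW
  refine le_trans ?_ key
  rw [Nat.cast_le]
  -- the new shifts
  set e : Fin r → (Fin r → ℕ) → ℕ := fun i h => (3 * (h i : ℤ) + (σ i - a * b) / 2).toNat with he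
  have hez : ∀ (h : Fin r → ℕ) (i : Fin r), 1 ≤ h i → 2 * ((e i h : ℕ) : ℤ) = 6 * (h i : ℤ) + (σ i - a * b) ∧
      2 ≤ e i h ∧ e i h ≤ 3 * h i + 1 := by
    intro h i hi
    have h1 : (1 : ℤ) ≤ h i := by exact_mod_cast hi
    rcases hσ i with h2 | h2 <;> rcases hab with h3 | h3 <;>
    · have h4 : (e i h : ℕ) = (3 * (h i : ℤ) + (σ i - a * b) / 2).toNat := rfl
      rw [h4, h2, h3]
      omega
  apply card_le_card_of_injOn (fun h => fun i => e i h)
  · intro h hh
    rw [mem_coe, mem_filter] at hh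
    rw [mem_coe, mem_filter]
    have hhi : ∀ i, 1 ≤ h i ∧ h i ≤ B * X := fun i => mem_Icc.1 (Fintype.mem_piFinset.1 hh.1 i)
    refine ⟨?_, 1, 0, le_refl 1, ?_, ?_⟩
    · rw [Fintype.mem_piFinset]
      intro i
      have h1 := hez h i (hhi i).1
      have h2 := hhi i
      have hX1 : 1 ≤ X := by
        by_contra hc
        have : X = 0 := by omega
        rw [this] at hL
        simp at hL
        linarith
      rw [mem_Icc]
      show 1 ≤ e i h ∧ e i h ≤ (3 * B + 1) * X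
      constructor
      · omega
      · have h3 : (3 * B + 1) * X = 3 * (B * X) + X := by ring
        omega
    · rw [pow_one]
      push_cast
      linarith
    · have hval : ∀ t ∈ R, ∀ i, v t + 2 * e i h = val6 a b t (h i) (σ i) := by
        intro t ht i
        have h1 := hez h i (hhi i).1
        have h2 := hvz t ht
        unfold val6
        have h3 : ((v t + 2 * e i h : ℕ) : ℤ) = 6 * (num6 a b t + (h i : ℤ)) + σ i := by
          push_cast
          rw [h2]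
          linarith [h1.1]
        rw [← h3, Int.toNat_natCast]
      have hsum : ∑ t ∈ R, W t * (ph1 (fun i => e i h) 1 0 (v t) - ph2 z (fun i => e i h) 1 0 (v t)) =
          ∑ t ∈ R.filter (fun t => ∀ i, (val6 a b t (h i) (σ i)).Prime), W t -
           ∑ t ∈ R.filter (fun t => ∀ i, ∀ l : ℕ, l.Prime → l ≤ z → ¬ l ∣ val6 a b t (h i) (σ i)),
            W t * ∏ i, (Pool.Agent.H373R2.T7.Vz z * Real.log ((val6 a b t (h i) (σ i) : ℕ) : ℝ))⁻¹ := by
        rw [sum_filter, sum_filter, ← sum_sub_distrib]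
        apply sum_congr rfl
        intro t ht
        unfold ph1 ph2
        simp only [hval t ht, Nat.modEq_one, true_and]
        rw [mul_sub]
        congr 1
        · split_ifs <;> simp
        · split_ifs <;> simp
      rw [hsum]
      exact hh.2
  · intro h hh h' hh' heq
    rw [mem_coe, mem_filter] at hh hh'
    funext i
    have h1 := hez h i (mem_Icc.1 (Fintype.mem_piFinset.1 hh.1 i)).1
    have h2 := hez h' i (mem_Icc.1 (Fintype.mem_piFinset.1 hh'.1 i)).1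
    have h3 : e i h = e i h' := congrFun heq i
    rw [h3] at h1
    omega

end Pool.Agent.U918.LP
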