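import Pool.Agent.U918.LP.Seq
import Pool.Agent.H373R2.T7.LamZ2

/-! The sequences `p_m + 2 c m`, all slopes `c` at once. -/

set_option autoImplicit false

namespace Pool.Agent.U918.LP
open Finset

/-- `p_m + 2 c m` -/
noncomputable def sl (c m : ℕ) : ℕ := pr m + 2 * c * m

theorem sl_lt (c : ℕ) (a b : ℕ) (ha : 1 ≤ a) (hab : a < b) : sl c a < sl c b := by
  unfold sl
  have h1 := pr_lt a b ha hab
  have h2 : 2 * c * a ≤ 2 * c * b := Nat.mul_le_mul_left _ hab.le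
  omega

theorem sl_ge (c m : ℕ) (hm : 1 ≤ m) : m ≤ sl c m := by
  unfold sl
  have := pr_ge m hm
  omega

theorem sl_ge' (c m : ℕ) : c * m ≤ sl c m := by
  unfold sl
  have : c * m ≤ 2 * c * m := by nlinarith
  omega

open Classical in
/-- prime sum along the values of `sl c` -/
noncomputable def PC {r : ℕ} (c : ℕ) (w : ℕ → ℝ) (h : Fin r → ℕ) (q a y : ℕ) : ℝ :=
  ∑ m ∈ (Icc 1 y).filter (fun m => sl c m ≤ y ∧ sl c m ≡ a [MOD q] ∧ ∀ i, (sl c m + 2 * h i).Prime), w m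

open Classical in
/-- model sum along the values of `sl c` -/
noncomputable def MC {r : ℕ} (c z : ℕ) (w : ℕ → ℝ) (h : Fin r → ℕ) (q a y : ℕ) : ℝ :=
  ∑ m ∈ (Icc 1 y).filter (fun m => sl c m ≤ y ∧ sl c m ≡ a [MOD q] ∧
    ∀ i, ∀ l : ℕ, l.Prime → l ≤ z → ¬ l ∣ sl c m + 2 * h i),
    w m * ∏ i, (Pool.Agent.H373R2.T7.Vz z * Real.log ((sl c m + 2 * h i : ℕ) : ℝ))⁻¹

open Classical in
theorem one_slope (r B U D K : ℕ) :
    ∃ B₀ : ℕ, ∀ E : ℕ, ∃ X₀ : ℕ, ∀ X : ℕ, X₀ ≤ X → ∀ z : ℕ, Real.log X ^ B₀ ≤ z → (z : ℝ) ≤ Real.log X ^ E →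
    ∀ c : ℕ, ∀ w : ℕ → ℝ, (∀ m, |w m| ≤ 1) →
    (((Fintype.piFinset (fun _ : Fin r => Icc 1 (B * X))).filter (fun h =>
      ∃ y ≤ X, ∃ q a : ℕ, 1 ≤ q ∧ (q : ℝ) ≤ Real.log X ^ K ∧
        (X : ℝ) / Real.log X ^ D < |PC c w h q a y - MC c z w h q a y|)).card : ℝ) ≤
      (X : ℝ) ^ r / Real.log X ^ U := by
  obtain ⟨B₀, h0⟩ := lin r (fun _ => True) (fun _ => 1) (fun _ => 2) (fun _ => 0)
    (fun _ => by norm_num) (fun _ => by norm_num) (fun _ => by norm_num) B U D K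
  refine ⟨B₀, fun E => ?_⟩
  obtain ⟨x0, hx0⟩ := h0 E
  refine ⟨x0, fun X hX z hz1 hz2 c w hw => ?_⟩
  refine le_trans (le_of_eq ?_) (hx0 X hX z hz1 hz2 (tw (sl c) w) (tw_le (sl c) (sl_lt c) w hw))
  have ev : ∀ n h : ℕ, lv 1 2 0 n h = n + 2 * h := by
    intro n h
    unfold lv
    push_cast
    omega
  have e1 : ∀ (h : Fin r → ℕ) (q a y : ℕ), PC c w h q a y = PL (fun _ => True) (fun _ => 1)
      (fun _ => 2) (fun _ => 0) (tw (sl c) w) h q a y := by
    intro h q a y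
    unfold PC PL
    simp only [ev, true_and]
    have := transport (sl c) (sl_ge c) w (fun n => n ≡ a [MOD q] ∧ ∀ i, (n + 2 * h i).Prime) (fun _ => 1) y
    simp only [mul_one] at this
    convert this
  have e2 : ∀ (h : Fin r → ℕ) (q a y : ℕ), MC c z w h q a y = ML (fun _ => True) (fun _ => 1)
      (fun _ => 2) (fun _ => 0) z (tw (sl c) w) h q a y := by
    intro h q a y
    unfold MC ML
    simp only [ev, true_and]
    have := transport (sl c) (sl_ge c) w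
      (fun n => n ≡ a [MOD q] ∧ ∀ i, ∀ l : ℕ, l.Prime → l ≤ z → ¬ l ∣ n + 2 * h i)
      (fun n => ∏ i, (Pool.Agent.H373R2.T7.Vz z * Real.log ((n + 2 * h i : ℕ) : ℝ))⁻¹) y
    convert this
  simp only [e1, e2]

/-- number of terms for a large slope -/
theorem few_terms (c y : ℕ) (hc : 1 ≤ c) (Q : ℕ → Prop) [DecidablePred Q] :
    (((Icc 1 y).filter (fun m => sl c m ≤ y ∧ Q m)).card : ℝ) ≤ (y : ℝ) / c := by
  have h1 : ((Icc 1 y).filter (fun m => sl c m ≤ y ∧ Q m)) ⊆ Icc 1 (y / c) := by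
    intro m hm
    rw [mem_filter, mem_Icc] at hm
    rw [mem_Icc]
    refine ⟨hm.1.1, ?_⟩
    rw [Nat.le_div_iff_mul_le (by omega)]
    have := sl_ge' c m
    calc m * c = c * m := Nat.mul_comm _ _
      _ ≤ y := this.trans hm.2.1
  have h2 := card_le_card h1
  rw [Nat.card_Icc, Nat.add_sub_cancel] at h2
  calc (((Icc 1 y).filter (fun m => sl c m ≤ y ∧ Q m)).card : ℝ) ≤ ((y / c : ℕ) : ℝ) := by exact_mod_cast h2
    _ ≤ (y : ℝ) / c := Nat.cast_div_le

open Classical in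
theorem large_slope {r : ℕ} (c z y X : ℕ) (hc : 1 ≤ c) (hy : y ≤ X) (w : ℕ → ℝ) (hw : ∀ m, |w m| ≤ 1)
    (hV : (Pool.Agent.H373R2.T7.Vz z)⁻¹ ≤ Real.log X) (hV0 : 0 < Pool.Agent.H373R2.T7.Vz z) (hX : 1 ≤ Real.log X)
    (h : Fin r → ℕ) (q a : ℕ) :
    |PC c w h q a y - MC c z w h q a y| ≤ 2 * (X : ℝ) * (Real.log X) ^ r / c := by
  have hc0 : (0 : ℝ) < c := by exact_mod_cast hc
  have hyX : (y : ℝ) ≤ X := by exact_mod_cast hy
  have hp1 : 1 ≤ Real.log X ^ r := one_le_pow₀ hX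
  have b1 : |PC c w h q a y| ≤ (y : ℝ) / c := by
    unfold PC
    refine le_trans (abs_sum_le_sum_abs _ _) ?_
    refine le_trans (sum_le_sum fun m _ => hw m) ?_
    rw [sum_const, nsmul_eq_mul, mul_one]
    exact few_terms c y hc _
  have b2 : |MC c z w h q a y| ≤ (y : ℝ) / c * Real.log X ^ r := by
    unfold MC
    refine le_trans (abs_sum_le_sum_abs _ _) ?_
    have b3 : ∀ m ∈ (Icc 1 y).filter (fun m => sl c m ≤ y ∧ sl c m ≡ a [MOD q] ∧
        ∀ i, ∀ l : ℕ, l.Prime → l ≤ z → ¬ l ∣ sl c m + 2 * h i),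
        |w m * ∏ i, (Pool.Agent.H373R2.T7.Vz z * Real.log ((sl c m + 2 * h i : ℕ) : ℝ))⁻¹| ≤ Real.log X ^ r := by
      intro m hm
      rw [mem_filter, mem_Icc] at hm
      rw [abs_mul, abs_prod]
      have b4 : ∀ i : Fin r, |(Pool.Agent.H373R2.T7.Vz z * Real.log ((sl c m + 2 * h i : ℕ) : ℝ))⁻¹| ≤ Real.log X := by
        intro i
        have b5 : 1 ≤ Real.log ((sl c m + 2 * h i : ℕ) : ℝ) := by
          have b6 : 3 ≤ sl c m + 2 * h i := by
            have := pr_ge m hm.1.1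
            unfold sl
            have h7 : 1 ≤ m := hm.1.1
            have h8 : m ≤ c * m := Nat.le_mul_of_pos_left m hc
            have h9 : 2 * c * m = 2 * (c * m) := by ring
            omega
          have b7 : (3 : ℝ) ≤ ((sl c m + 2 * h i : ℕ) : ℝ) := by exact_mod_cast b6
          rw [Real.le_log_iff_exp_le (by linarith)]
          have := Real.exp_one_lt_d9
          linarith
        rw [mul_inv, abs_mul, abs_of_pos (inv_pos.2 hV0), abs_of_pos (inv_pos.2 (by linarith))]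
        calc (Pool.Agent.H373R2.T7.Vz z)⁻¹ * (Real.log ((sl c m + 2 * h i : ℕ) : ℝ))⁻¹
            ≤ (Pool.Agent.H373R2.T7.Vz z)⁻¹ * 1 :=
              mul_le_mul_of_nonneg_left (inv_le_one_of_one_le₀ b5) (inv_pos.2 hV0).le
          _ = (Pool.Agent.H373R2.T7.Vz z)⁻¹ := mul_one _
          _ ≤ Real.log X := hV
      calc |w m| * ∏ i, |(Pool.Agent.H373R2.T7.Vz z * Real.log ((sl c m + 2 * h i : ℕ) : ℝ))⁻¹|
          ≤ 1 * ∏ _i : Fin r, Real.log X :=
            mul_le_mul (hw m) (prod_le_prod (fun i _ => abs_nonneg _) (fun i _ => b4 i))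
              (prod_nonneg fun i _ => abs_nonneg _) zero_le_one
        _ = Real.log X ^ r := by rw [one_mul, prod_const, card_univ, Fintype.card_fin]
    refine le_trans (sum_le_sum b3) ?_
    rw [sum_const, nsmul_eq_mul]
    exact mul_le_mul_of_nonneg_right (few_terms c y hc _) (by positivity)
  have b8 : (y : ℝ) / c ≤ (X : ℝ) / c := div_le_div_of_nonneg_right hyX hc0.le
  have hXc : (0 : ℝ) ≤ (X : ℝ) / c := by positivity
  calc |PC c w h q a y - MC c z w h q a y| ≤ |PC c w h q a y| + |MC c z w h q a y| := abs_sub _ _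
    _ ≤ (y : ℝ) / c + (y : ℝ) / c * Real.log X ^ r := add_le_add b1 b2
    _ ≤ (X : ℝ) / c * Real.log X ^ r + (X : ℝ) / c * Real.log X ^ r := by
        refine add_le_add (b8.trans ?_) (mul_le_mul_of_nonneg_right b8 (by positivity))
        exact le_mul_of_one_le_right hXc hp1
    _ = 2 * (X : ℝ) * (Real.log X) ^ r / c := by ring

open Classical in
theorem all_slopes (r B U D K : ℕ) :
    ∃ B₀ : ℕ, ∀ E : ℕ, ∃ X₀ : ℕ, ∀ X : ℕ, X₀ ≤ X → ∀ z : ℕ, Real.log X ^ B₀ ≤ z → (z : ℝ) ≤ Real.log X ^ E →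
    ∀ w : ℕ → ℕ → ℝ, (∀ c m, |w c m| ≤ 1) →
    (((Fintype.piFinset (fun _ : Fin r => Icc 1 (B * X))).filter (fun h =>
      ∃ c : ℕ, ∃ y ≤ X, ∃ q a : ℕ, 1 ≤ q ∧ (q : ℝ) ≤ Real.log X ^ K ∧
        (X : ℝ) / Real.log X ^ D < |PC c (w c) h q a y - MC c z (w c) h q a y|)).card : ℝ) ≤
      (X : ℝ) ^ r / Real.log X ^ U := by
  obtain ⟨B₀, h0⟩ := one_slope r B (U + (D + r + 2)) D K
  refine ⟨B₀, fun E => ?_⟩
  obtain ⟨x0, hx0⟩ := h0 E
  obtain ⟨x1, hx1⟩ := Pool.Agent.H373R2.T7.Vz_inv_small E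
  obtain ⟨x2, hx2⟩ := Pool.Agent.H373R2.T7.ev_L' 2
  refine ⟨max x0 (max x1 x2), fun X hX z hz1 hz2 w hw => ?_⟩
  have a0 : x0 ≤ X := (le_max_left _ _).trans hX
  have a1 : x1 ≤ X := ((le_max_left _ _).trans (le_max_right _ _)).trans hX
  have a2 : x2 ≤ X := ((le_max_right _ _).trans (le_max_right _ _)).trans hX
  have hL2 := hx2 X a2
  have hgen := hx0 X a0 z hz1 hz2
  have hVi := hx1 X a1 z
  obtain ⟨L, hLd⟩ : ∃ L, L = Real.log X := ⟨_, rfl⟩
  rw [← hLd] at hL2 hgen hVi hz1 hz2 ⊢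
  have hL0 : 0 < L := by linarith
  have hz0 : 0 < z := by
    have : (0 : ℝ) < z := lt_of_lt_of_le (by positivity) hz1
    exact_mod_cast this
  have hV := hVi hz0 hz2
  set M : ℕ := ⌊L ^ (D + r + 1)⌋₊ with hM
  set Bd : ℕ → Finset (Fin r → ℕ) := fun c =>
    (Fintype.piFinset (fun _ : Fin r => Icc 1 (B * X))).filter (fun h =>
      ∃ y ≤ X, ∃ q a : ℕ, 1 ≤ q ∧ (q : ℝ) ≤ L ^ K ∧
        (X : ℝ) / L ^ D < |PC c (w c) h q a y - MC c z (w c) h q a y|) with hBd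
  have hsub : ((Fintype.piFinset (fun _ : Fin r => Icc 1 (B * X))).filter (fun h =>
      ∃ c : ℕ, ∃ y ≤ X, ∃ q a : ℕ, 1 ≤ q ∧ (q : ℝ) ≤ L ^ K ∧
        (X : ℝ) / L ^ D < |PC c (w c) h q a y - MC c z (w c) h q a y|)) ⊆ (range (M + 1)).biUnion Bd := by
    intro h hh
    rw [mem_filter] at hh
    obtain ⟨hh1, c, y, hy, q, a, hq1, hq2, hlt⟩ := hh
    rw [mem_biUnion]
    refine ⟨c, ?_, ?_⟩
    · rw [mem_range]
      by_contra hc
      push Not at hc
      have hcM : L ^ (D + r + 1) < c := by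
        refine lt_of_lt_of_le (Nat.lt_floor_add_one _) ?_
        exact_mod_cast hc
      have hc1 : 1 ≤ c := by omega
      have hc0 : (0 : ℝ) < c := by exact_mod_cast hc1
      have hls := large_slope (r := r) c z y X hc1 hy (w c) (hw c) (by rw [← hLd]; exact hV)
        (Pool.Agent.H373R2.T7.Vz_pos z) (by rw [← hLd]; linarith) h q a
      rw [← hLd] at hls
      have hX0 : (0 : ℝ) ≤ X := Nat.cast_nonneg _
      have hb : 2 * (X : ℝ) * L ^ r / c ≤ X / L ^ D := by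
        rw [div_le_div_iff₀ hc0 (by positivity)]
        have h3 : 2 * L ^ r * L ^ D ≤ c := by
          refine le_trans ?_ hcM.le
          calc 2 * L ^ r * L ^ D = 2 * L ^ (D + r) := by ring
            _ ≤ L * L ^ (D + r) := by
                apply mul_le_mul_of_nonneg_right hL2 (by positivity)
            _ = L ^ (D + r + 1) := by ring
        calc 2 * (X : ℝ) * L ^ r * L ^ D = X * (2 * L ^ r * L ^ D) := by ring
          _ ≤ X * c := mul_le_mul_of_nonneg_left h3 hX0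
      linarith
    · rw [hBd]
      beta_reduce
      rw [mem_filter]
      exact ⟨hh1, y, hy, q, a, hq1, hq2, hlt⟩
  have hcard : ∀ c ∈ range (M + 1), ((Bd c).card : ℝ) ≤ (X : ℝ) ^ r / L ^ (U + (D + r + 2)) := fun c _ =>
    hgen c (w c) (hw c)
  calc (((Fintype.piFinset (fun _ : Fin r => Icc 1 (B * X))).filter (fun h =>
      ∃ c : ℕ, ∃ y ≤ X, ∃ q a : ℕ, 1 ≤ q ∧ (q : ℝ) ≤ L ^ K ∧
        (X : ℝ) / L ^ D < |PC c (w c) h q a y - MC c z (w c) h q a y|)).card : ℝ)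
      ≤ (((range (M + 1)).biUnion Bd).card : ℝ) := by exact_mod_cast card_le_card hsub
    _ ≤ ∑ c ∈ range (M + 1), ((Bd c).card : ℝ) := by exact_mod_cast card_biUnion_le
    _ ≤ ∑ _c ∈ range (M + 1), (X : ℝ) ^ r / L ^ (U + (D + r + 2)) := sum_le_sum hcard
    _ = ((M + 1 : ℕ) : ℝ) * ((X : ℝ) ^ r / L ^ (U + (D + r + 2))) := by rw [sum_const, card_range, nsmul_eq_mul]
    _ ≤ L ^ (D + r + 2) * ((X : ℝ) ^ r / L ^ (U + (D + r + 2))) := by
        apply mul_le_mul_of_nonneg_right _ (by positivity)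
        have h4 : (M : ℝ) ≤ L ^ (D + r + 1) := Nat.floor_le (by positivity)
        have h5 : (1 : ℝ) ≤ L ^ (D + r + 1) := one_le_pow₀ (by linarith)
        push_cast
        calc (M : ℝ) + 1 ≤ 2 * L ^ (D + r + 1) := by linarith
          _ ≤ L * L ^ (D + r + 1) := mul_le_mul_of_nonneg_right hL2 (by positivity)
          _ = L ^ (D + r + 2) := by ring
    _ = (X : ℝ) ^ r / L ^ U := by
        rw [pow_add L U]
        have : L ^ (D + r + 2) ≠ 0 := by positivity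
        have : L ^ U ≠ 0 := by positivity
        field_simp

end Pool.Agent.U918.LP
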