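import Pool.Agent.U918.LP.Core
import Pool.Agent.H316R2.LS

/-! Shifts that are sums of two squares (plus a constant): almost all pairs. -/

set_option autoImplicit false

namespace Pool.Agent.U918.LP
open Finset

lemma tau_sum (N : ℕ) : ∑ n ∈ Icc 1 N, (n.divisors.card : ℝ) ≤ N * (1 + Real.log N) ^ 2 := by
  have h := Pool.Agent.H316R2.tau_sum_le N
  have h1 : ∑ n ∈ Icc 1 N, (n.divisors.card : ℝ) ≤ N * ∑ n ∈ Icc 1 N, (n.divisors.card : ℝ) / n := by
    rw [mul_sum]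
    apply sum_le_sum
    intro n hn
    rw [mem_Icc] at hn
    have hn0 : (0 : ℝ) < n := by exact_mod_cast hn.1
    have hnN : (n : ℝ) ≤ N := by exact_mod_cast hn.2
    rw [mul_div_assoc', le_div_iff₀ hn0, mul_comm (N : ℝ)]
    exact mul_le_mul_of_nonneg_left hnN (Nat.cast_nonneg _)
  exact h1.trans (mul_le_mul_of_nonneg_left h (Nat.cast_nonneg _))

/-- the number of `(c, c')` with `b² + c² = b'² + c'²` -/
def cnt (X b b' : ℕ) : ℕ := ((Icc 1 X ×ˢ Icc 1 X).filter (fun t => b ^ 2 + t.1 ^ 2 = b' ^ 2 + t.2 ^ 2)).card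

lemma cnt_self (X b : ℕ) : cnt X b b ≤ X := by
  unfold cnt
  have h : ((Icc 1 X ×ˢ Icc 1 X).filter (fun t : ℕ × ℕ => b ^ 2 + t.1 ^ 2 = b ^ 2 + t.2 ^ 2)).card ≤ (Icc 1 X).card := by
    apply card_le_card_of_injOn (fun t => t.1)
    · intro t ht
      rw [mem_coe, mem_filter, mem_product] at ht
      exact ht.1.1
    · intro t ht s hs hts
      rw [mem_coe, mem_filter] at ht hs
      have e1 : t.1 = t.2 := Nat.pow_left_injective (two_ne_zero) (by simpa using ht.2)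
      have e2 : s.1 = s.2 := Nat.pow_left_injective (two_ne_zero) (by simpa using hs.2)
      have h3 : t.1 = s.1 := hts
      exact Prod.ext h3 (by omega)
  rw [Nat.card_Icc, Nat.add_sub_cancel] at h
  exact h

lemma cnt_comm (X b b' : ℕ) : cnt X b b' = cnt X b' b := by
  unfold cnt
  apply card_bij (fun t _ => (t.2, t.1))
  · intro t ht
    rw [mem_filter, mem_product] at ht ⊢
    exact ⟨⟨ht.1.2, ht.1.1⟩, ht.2.symm⟩
  · intro t _ s _ h
    have h1 := Prod.mk.inj h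
    exact Prod.ext h1.2 h1.1
  · intro t ht
    rw [mem_filter, mem_product] at ht
    refine ⟨(t.2, t.1), ?_, rfl⟩
    rw [mem_filter, mem_product]
    exact ⟨⟨ht.1.2, ht.1.1⟩, ht.2.symm⟩

lemma cnt_lt (X b b' : ℕ) (h : b' < b) : cnt X b b' ≤ ((b - b') * (b + b')).divisors.card := by
  unfold cnt
  obtain ⟨u, rfl⟩ : ∃ u, b = b' + u := ⟨b - b', by omega⟩
  have hu : 0 < u := by omega
  have e0 : b' + u - b' = u := by omega
  rw [e0]
  have hlt : ∀ t ∈ (Icc 1 X ×ˢ Icc 1 X).filter (fun t : ℕ × ℕ => (b' + u) ^ 2 + t.1 ^ 2 = b' ^ 2 + t.2 ^ 2), t.1 < t.2 := by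
    intro t ht
    rw [mem_filter] at ht
    by_contra hc
    push Not at hc
    have h1 : t.2 ^ 2 ≤ t.1 ^ 2 := Nat.pow_le_pow_left hc 2
    have h2 : b' ^ 2 < (b' + u) ^ 2 := Nat.pow_lt_pow_left (by omega) two_ne_zero
    omega
  have hprod : ∀ t ∈ (Icc 1 X ×ˢ Icc 1 X).filter (fun t : ℕ × ℕ => (b' + u) ^ 2 + t.1 ^ 2 = b' ^ 2 + t.2 ^ 2),
      (t.2 - t.1) * (t.2 + t.1) = u * (b' + u + b') := by
    intro t ht
    have h1 := hlt t ht
    rw [mem_filter] at ht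
    obtain ⟨d, hd⟩ : ∃ d, t.2 = t.1 + d := ⟨t.2 - t.1, by omega⟩
    have h3 := ht.2
    rw [hd] at h3 ⊢
    rw [Nat.add_sub_cancel_left]
    nlinarith
  apply card_le_card_of_injOn (fun t => t.2 - t.1)
  · intro t ht
    rw [mem_coe, Nat.mem_divisors]
    refine ⟨⟨t.2 + t.1, (hprod t ht).symm⟩, ?_⟩
    positivity
  · intro t ht s hs hts
    have h1 := hprod t ht
    have h2 := hprod s hs
    have h3 : t.2 - t.1 = s.2 - s.1 := hts
    have h4 := hlt t ht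
    have h5 := hlt s hs
    rw [← h2, h3] at h1
    have h6 := Nat.eq_of_mul_eq_mul_left (by omega) h1
    exact Prod.ext (by omega) (by omega)

/-- the number of `(b, b', c, c')` with `b² + c² = b'² + c'²` is small -/
lemma energy (X : ℕ) (hX : 1 ≤ X) : ∑ b ∈ Icc 1 X, ∑ b' ∈ Icc 1 X, (cnt X b b' : ℝ) ≤
    5 * (X : ℝ) ^ 2 * (1 + Real.log (2 * X)) ^ 4 := by
  classical
  have hX0 : (1 : ℝ) ≤ X := by exact_mod_cast hX
  have hl0 : 0 ≤ Real.log X := Real.log_natCast_nonneg X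
  have hl2 : Real.log X ≤ Real.log (2 * X) := Real.log_le_log (by linarith) (by linarith)
  -- split by order
  have h1 : ∀ b ∈ Icc 1 X, ∀ b' ∈ Icc 1 X, (cnt X b b' : ℝ) ≤
      (if b = b' then (X : ℝ) else 0) + (if b' < b then (((b - b') * (b + b')).divisors.card : ℝ) else 0) +
        (if b < b' then (((b' - b) * (b' + b)).divisors.card : ℝ) else 0) := by
    intro b _ b' _
    rcases lt_trichotomy b b' with h | h | h
    · rw [if_neg (by omega), if_neg (by omega), if_pos h, zero_add, zero_add, cnt_comm]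
      exact_mod_cast cnt_lt X b' b h
    · rw [if_pos h, if_neg (by omega), if_neg (by omega), add_zero, add_zero, h]
      exact_mod_cast cnt_self X b'
    · rw [if_neg (by omega), if_pos h, if_neg (by omega), zero_add, add_zero]
      exact_mod_cast cnt_lt X b b' h
  refine (sum_le_sum fun b hb => sum_le_sum fun b' hb' => h1 b hb b' hb').trans ?_
  simp only [sum_add_distrib]
  have e1 : ∑ b ∈ Icc 1 X, ∑ b' ∈ Icc 1 X, (if b = b' then (X : ℝ) else 0) = X * X := by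
    rw [show (X : ℝ) * X = ∑ b ∈ Icc 1 X, (X : ℝ) by
      rw [sum_const, Nat.card_Icc, Nat.add_sub_cancel, nsmul_eq_mul]]
    apply sum_congr rfl
    intro b hb
    rw [sum_ite_eq, if_pos hb]
  have e2 : ∑ b ∈ Icc 1 X, ∑ b' ∈ Icc 1 X, (if b < b' then (((b' - b) * (b' + b)).divisors.card : ℝ) else 0) =
      ∑ b ∈ Icc 1 X, ∑ b' ∈ Icc 1 X, (if b' < b then (((b - b') * (b + b')).divisors.card : ℝ) else 0) := by
    rw [sum_comm]
  have e3 : ∑ b ∈ Icc 1 X, ∑ b' ∈ Icc 1 X, (if b' < b then (((b - b') * (b + b')).divisors.card : ℝ) else 0) ≤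
      (X * (1 + Real.log X) ^ 2) * ((2 * X : ℕ) * (1 + Real.log (2 * X : ℕ)) ^ 2) := by
    calc ∑ b ∈ Icc 1 X, ∑ b' ∈ Icc 1 X, (if b' < b then (((b - b') * (b + b')).divisors.card : ℝ) else 0)
        ≤ ∑ b ∈ Icc 1 X, ∑ b' ∈ Icc 1 X, (if b' < b then ((b - b').divisors.card : ℝ) * ((b + b').divisors.card : ℝ)
            else 0) := by
          apply sum_le_sum
          intro b _
          apply sum_le_sum
          intro b' _
          split_ifs
          · exact_mod_cast Pool.Agent.H316R2.tau_mul_le (b - b') (b + b')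
          · exact le_rfl
      _ = ∑ t ∈ (Icc 1 X ×ˢ Icc 1 X).filter (fun t => t.2 < t.1),
            ((t.1 - t.2).divisors.card : ℝ) * ((t.1 + t.2).divisors.card : ℝ) := by
          rw [sum_filter, sum_product]
      _ = ∑ s ∈ ((Icc 1 X ×ˢ Icc 1 X).filter (fun t => t.2 < t.1)).image (fun t => (t.1 - t.2, t.1 + t.2)),
            ((s.1).divisors.card : ℝ) * ((s.2).divisors.card : ℝ) := by
          rw [sum_image]
          intro t ht s hs hts
          rw [mem_coe, mem_filter] at ht hs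
          have h2 := Prod.mk.inj hts
          exact Prod.ext (by omega) (by omega)
      _ ≤ ∑ s ∈ Icc 1 X ×ˢ Icc 1 (2 * X), ((s.1).divisors.card : ℝ) * ((s.2).divisors.card : ℝ) := by
          apply sum_le_sum_of_subset_of_nonneg
          · intro s hs
            rw [mem_image] at hs
            obtain ⟨t, ht, rfl⟩ := hs
            rw [mem_filter, mem_product, mem_Icc, mem_Icc] at ht
            rw [mem_product, mem_Icc, mem_Icc]
            dsimp only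
            omega
          · intro s _ _
            positivity
      _ = (∑ u ∈ Icc 1 X, (u.divisors.card : ℝ)) * ∑ v ∈ Icc 1 (2 * X), (v.divisors.card : ℝ) := by
          rw [sum_product, sum_mul_sum]
      _ ≤ _ := by
          apply mul_le_mul (tau_sum X) (tau_sum (2 * X)) (sum_nonneg fun _ _ => Nat.cast_nonneg _) (by positivity)
  rw [e1, e2]
  push_cast at e3
  have h5 : (1 + Real.log X) ^ 2 ≤ (1 + Real.log (2 * X)) ^ 2 := pow_le_pow_left₀ (by linarith) (by linarith) 2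
  have h6 : (1 : ℝ) ≤ (1 + Real.log (2 * X)) ^ 4 := one_le_pow₀ (by linarith)
  have h7 : (X * (1 + Real.log X) ^ 2) * (2 * X * (1 + Real.log (2 * X)) ^ 2) ≤
      2 * (X : ℝ) ^ 2 * (1 + Real.log (2 * X)) ^ 4 := by
    have h8 : (0 : ℝ) ≤ 2 * (X : ℝ) ^ 2 * (1 + Real.log (2 * X)) ^ 2 := by positivity
    have h9 := mul_le_mul_of_nonneg_left h5 h8
    calc _ = 2 * (X : ℝ) ^ 2 * (1 + Real.log (2 * X)) ^ 2 * (1 + Real.log X) ^ 2 := by ring
      _ ≤ _ := h9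
      _ = _ := by ring
  have h10 : (X : ℝ) * X ≤ (X : ℝ) ^ 2 * (1 + Real.log (2 * X)) ^ 4 := by
    rw [← sq]
    exact le_mul_of_one_le_right (by positivity) h6
  linarith

/-- for a set `M` of integers, few pairs `(b, c)` have `b² + c² + k ∈ M` -/
lemma pairs_bad (X k : ℕ) (hX : 1 ≤ X) (M : Finset ℕ) (Q : Finset (ℕ × ℕ)) (hQ : Q ⊆ Icc 1 X ×ˢ Icc 1 X)
    (hM : ∀ t ∈ Q, t.1 ^ 2 + t.2 ^ 2 + k ∈ M) :
    (Q.card : ℝ) ^ 2 ≤ M.card * (5 * (X : ℝ) ^ 2 * (1 + Real.log (2 * X)) ^ 4) := by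
  classical
  have h1 : Q.card = ∑ h ∈ M, (Q.filter (fun t => t.1 ^ 2 + t.2 ^ 2 + k = h)).card :=
    card_eq_sum_card_fiberwise (fun t ht => hM t ht)
  have h2 : ((∑ h ∈ M, ((Q.filter (fun t => t.1 ^ 2 + t.2 ^ 2 + k = h)).card : ℝ))) ^ 2 ≤
      M.card * ∑ h ∈ M, ((Q.filter (fun t => t.1 ^ 2 + t.2 ^ 2 + k = h)).card : ℝ) ^ 2 := sq_sum_le_card_mul_sum_sq
  have h3 : ∑ h ∈ M, ((Q.filter (fun t => t.1 ^ 2 + t.2 ^ 2 + k = h)).card : ℝ) ^ 2 ≤
      ∑ b ∈ Icc 1 X, ∑ b' ∈ Icc 1 X, (cnt X b b' : ℝ) := by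
    have e : ∀ h ∈ M, ((Q.filter (fun t => t.1 ^ 2 + t.2 ^ 2 + k = h)).card : ℝ) ^ 2 =
        ∑ t ∈ Q.filter (fun t => t.1 ^ 2 + t.2 ^ 2 + k = h),
          ((Q.filter (fun s => s.1 ^ 2 + s.2 ^ 2 + k = t.1 ^ 2 + t.2 ^ 2 + k)).card : ℝ) := by
      intro h _
      have : ∀ t ∈ Q.filter (fun t => t.1 ^ 2 + t.2 ^ 2 + k = h),
          ((Q.filter (fun s => s.1 ^ 2 + s.2 ^ 2 + k = t.1 ^ 2 + t.2 ^ 2 + k)).card : ℝ) =
          ((Q.filter (fun t => t.1 ^ 2 + t.2 ^ 2 + k = h)).card : ℝ) := by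
        intro t ht
        rw [mem_filter] at ht
        rw [ht.2]
      rw [sum_congr rfl this, sum_const, nsmul_eq_mul, sq]
    rw [sum_congr rfl e, sum_fiberwise_of_maps_to (fun t ht => hM t ht)
      (fun t => ((Q.filter (fun s => s.1 ^ 2 + s.2 ^ 2 + k = t.1 ^ 2 + t.2 ^ 2 + k)).card : ℝ))]
    have h4 : ∀ t ∈ Icc 1 X ×ˢ Icc 1 X, ((Q.filter (fun s => s.1 ^ 2 + s.2 ^ 2 + k = t.1 ^ 2 + t.2 ^ 2 + k)).card : ℝ) ≤
        (((Icc 1 X ×ˢ Icc 1 X).filter (fun s => t.1 ^ 2 + t.2 ^ 2 = s.1 ^ 2 + s.2 ^ 2)).card : ℝ) := by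
      intro t _
      have : Q.filter (fun s => s.1 ^ 2 + s.2 ^ 2 + k = t.1 ^ 2 + t.2 ^ 2 + k) ⊆
          (Icc 1 X ×ˢ Icc 1 X).filter (fun s => t.1 ^ 2 + t.2 ^ 2 = s.1 ^ 2 + s.2 ^ 2) := by
        intro s hs
        rw [mem_filter] at hs ⊢
        exact ⟨hQ hs.1, by omega⟩
      exact_mod_cast card_le_card this
    calc ∑ t ∈ Q, ((Q.filter (fun s => s.1 ^ 2 + s.2 ^ 2 + k = t.1 ^ 2 + t.2 ^ 2 + k)).card : ℝ)
        ≤ ∑ t ∈ Icc 1 X ×ˢ Icc 1 X, ((Q.filter (fun s => s.1 ^ 2 + s.2 ^ 2 + k = t.1 ^ 2 + t.2 ^ 2 + k)).card : ℝ) :=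
          sum_le_sum_of_subset_of_nonneg hQ (fun _ _ _ => Nat.cast_nonneg _)
      _ ≤ ∑ t ∈ Icc 1 X ×ˢ Icc 1 X, (((Icc 1 X ×ˢ Icc 1 X).filter (fun s =>
            t.1 ^ 2 + t.2 ^ 2 = s.1 ^ 2 + s.2 ^ 2)).card : ℝ) := sum_le_sum h4
      _ = ∑ b ∈ Icc 1 X, ∑ c ∈ Icc 1 X, ∑ b' ∈ Icc 1 X, ∑ c' ∈ Icc 1 X,
            (if b ^ 2 + c ^ 2 = b' ^ 2 + c' ^ 2 then (1 : ℝ) else 0) := by
          rw [sum_product]
          apply sum_congr rfl
          intro b _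
          apply sum_congr rfl
          intro c _
          rw [card_filter]
          push_cast
          rw [sum_product]
      _ = ∑ b ∈ Icc 1 X, ∑ b' ∈ Icc 1 X, (cnt X b b' : ℝ) := by
          apply sum_congr rfl
          intro b _
          rw [sum_comm]
          apply sum_congr rfl
          intro b' _
          unfold cnt
          rw [card_filter]
          push_cast
          rw [sum_product]
  have h5 : (Q.card : ℝ) = ∑ h ∈ M, ((Q.filter (fun t => t.1 ^ 2 + t.2 ^ 2 + k = h)).card : ℝ) := by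
    rw [h1]
    push_cast
    rfl
  rw [h5]
  exact h2.trans (mul_le_mul_of_nonneg_left (h3.trans (energy X hX)) (Nat.cast_nonneg _))

open Classical in
/-- one quadratic polynomial, arbitrary weights on the argument, shifts `b² + c² + k` -/
theorem two (f : Polynomial ℤ) (hd : f.natDegree = 2) (hl : 0 < f.leadingCoeff) (F : ℕ → ℕ)
    (hF : ∀ m : ℕ, f.eval (m : ℤ) = F m) (hmono : Monotone F) (B U D K : ℕ) :
    ∃ B0 : ℕ, ∀ E : ℕ, ∃ x0 : ℕ, ∀ x : ℕ, x0 ≤ x → ∀ z : ℕ, Real.log x ^ B0 ≤ z → (z : ℝ) ≤ Real.log x ^ E →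
    ∀ w : ℕ → ℝ, (∀ m, |w m| ≤ 1) → ∀ k : ℕ, k ≤ B * x ^ 2 →
    (((Icc 1 x ×ˢ Icc 1 x).filter (fun t =>
      ∃ y ≤ x, ∃ q a : ℕ, 1 ≤ q ∧ (q : ℝ) ≤ Real.log x ^ K ∧
        (x : ℝ) / Real.log x ^ D < |PS (fun _ : Fin 1 => true) (fun _ => F) w (fun _ => t.1 ^ 2 + t.2 ^ 2 + k) q a y -
          MS (fun _ : Fin 1 => true) (fun _ => F) z w (fun _ => t.1 ^ 2 + t.2 ^ 2 + k) q a y|)).card : ℝ) ≤
      (x : ℝ) ^ 2 / Real.log x ^ U := by
  obtain ⟨B0, h0⟩ := core 1 (fun _ => f) (fun _ => by rw [hd]; norm_num) (fun _ => hl) (fun _ => F) (fun _ => hF)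
    (fun _ => hmono) (fun _ => true) (B + 2) (2 * U + 5) D K
  refine ⟨B0, fun E => ?_⟩
  obtain ⟨x1, hx1⟩ := h0 E
  obtain ⟨x2, hx2⟩ := Pool.Agent.H373R2.T7.ev_L' 80
  refine ⟨max (max x1 x2) 1, fun x hx z hz1 hz2 w hw k hk => ?_⟩
  have b1 : x1 ≤ x := ((le_max_left _ _).trans (le_max_left _ _)).trans hx
  have b2 : x2 ≤ x := ((le_max_right _ _).trans (le_max_left _ _)).trans hx
  have b3 : 1 ≤ x := (le_max_right _ _).trans hx
  have hL := hx2 x b2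
  have key := hx1 x b1 z hz1 hz2 w hw
  simp only [hd] at key
  rw [prod_const, card_univ, Fintype.card_fin, pow_one] at key
  set bad : ℕ → Prop := fun h => ∃ y ≤ x, ∃ q a : ℕ, 1 ≤ q ∧ (q : ℝ) ≤ Real.log x ^ K ∧
        (x : ℝ) / Real.log x ^ D < |PS (fun _ : Fin 1 => true) (fun _ => F) w (fun _ => h) q a y -
          MS (fun _ : Fin 1 => true) (fun _ => F) z w (fun _ => h) q a y| with hbad
  set M := (Icc 1 ((B + 2) * x ^ 2)).filter bad with hM
  set Q := (Icc 1 x ×ˢ Icc 1 x).filter (fun t : ℕ × ℕ => bad (t.1 ^ 2 + t.2 ^ 2 + k)) with hQ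
  have h1 := pairs_bad x k b3 M Q (filter_subset _ _) (by
    intro t ht
    rw [hQ, mem_filter, mem_product, mem_Icc, mem_Icc] at ht
    rw [hM, mem_filter, mem_Icc]
    refine ⟨⟨?_, ?_⟩, ht.2⟩
    · have : 1 ≤ t.1 ^ 2 := Nat.one_le_pow _ _ (by omega)
      omega
    · have h2 : t.1 ^ 2 ≤ x ^ 2 := Nat.pow_le_pow_left ht.1.1.2 2
      have h3 : t.2 ^ 2 ≤ x ^ 2 := Nat.pow_le_pow_left ht.1.2.2 2
      calc t.1 ^ 2 + t.2 ^ 2 + k ≤ x ^ 2 + x ^ 2 + B * x ^ 2 := by omega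
        _ = (B + 2) * x ^ 2 := by ring)
  have h2 : (M.card : ℝ) ≤ (x : ℝ) ^ 2 / Real.log x ^ (2 * U + 5) := by
    refine le_trans ?_ key
    exact_mod_cast card_le_card_of_injOn (fun (h : ℕ) (_ : Fin 1) => h) (by
      intro h hh
      rw [mem_coe, hM, mem_filter] at hh
      rw [mem_coe, mem_filter, Fintype.mem_piFinset]
      exact ⟨fun _ => hh.1, hh.2⟩) (by
      intro h _ h' _ hhh
      exact congrFun hhh 0)
  have hL0 : 0 < Real.log x := by linarith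
  have hx0 : (1 : ℝ) ≤ x := by exact_mod_cast b3
  have hl2 : 1 + Real.log (2 * x) ≤ 2 * Real.log x := by
    rw [Real.log_mul (by norm_num) (by linarith)]
    have := Real.log_two_lt_d9
    linarith
  have hl20 : 0 ≤ 1 + Real.log (2 * x) := by
    have := Real.log_nonneg (by linarith : (1 : ℝ) ≤ 2 * x)
    linarith
  have h3 : 5 * (x : ℝ) ^ 2 * (1 + Real.log (2 * x)) ^ 4 ≤ (x : ℝ) ^ 2 * Real.log x ^ 5 := by
    have h4 : (1 + Real.log (2 * x)) ^ 4 ≤ (2 * Real.log x) ^ 4 := pow_le_pow_left₀ hl20 hl2 4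
    calc 5 * (x : ℝ) ^ 2 * (1 + Real.log (2 * x)) ^ 4 ≤ 5 * (x : ℝ) ^ 2 * (2 * Real.log x) ^ 4 :=
          mul_le_mul_of_nonneg_left h4 (by positivity)
      _ = (x : ℝ) ^ 2 * Real.log x ^ 4 * 80 := by ring
      _ ≤ (x : ℝ) ^ 2 * Real.log x ^ 4 * Real.log x := mul_le_mul_of_nonneg_left hL (by positivity)
      _ = _ := by ring
  have h5 : (Q.card : ℝ) ^ 2 ≤ ((x : ℝ) ^ 2 / Real.log x ^ U) ^ 2 := by
    refine h1.trans ?_
    calc (M.card : ℝ) * (5 * (x : ℝ) ^ 2 * (1 + Real.log (2 * x)) ^ 4)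
        ≤ (x : ℝ) ^ 2 / Real.log x ^ (2 * U + 5) * ((x : ℝ) ^ 2 * Real.log x ^ 5) :=
          mul_le_mul h2 h3 (by positivity) (by positivity)
      _ = _ := by
          rw [pow_add, div_pow, mul_comm 2 U, pow_mul]
          field_simp
  exact (pow_le_pow_iff_left₀ (Nat.cast_nonneg _) (by positivity) two_ne_zero).1 h5

end Pool.Agent.U918.LP
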